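import Pool.Agent.H51.ZC.Large

/-!
# The choice of the parameter
-/

set_option autoImplicit false
set_option linter.unusedSectionVars false

open IsDedekindDomain NumberField WithZero

namespace Pool.Agent.H51.ZC

section
variable {K : Type*} [Field K]

lemma na_finset {v : AbsoluteValue K ℝ} (hna : IsNonarchimedean v) {ι : Type*} (s : Finset ι) (f : ι → K)
    {M : ℝ} (hM : 0 ≤ M) (h : ∀ i ∈ s, v (f i) ≤ M) : v (∑ i ∈ s, f i) ≤ M := by
  classical
  induction s using Finset.induction_on with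
  | empty => simpa using hM
  | insert j s hj ih =>
    rw [Finset.sum_insert hj]
    exact na_sum hna (h j (Finset.mem_insert_self _ _))
      (ih fun i hi => h i (Finset.mem_insert_of_mem hi))

/-- integral elements -/
lemma na_integral {v : AbsoluteValue K ℝ} (hna : IsNonarchimedean v) {z : K} (hz : IsIntegral ℤ z) :
    v z ≤ 1 := by
  obtain ⟨p, hp, hpz⟩ := hz
  by_contra hcon
  rw [not_le] at hcon
  have hn : p.natDegree ≠ 0 := by
    intro h0
    have h1 := Polynomial.eq_one_of_monic_natDegree_zero hp h0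
    rw [h1, Polynomial.eval₂_one] at hpz
    exact one_ne_zero hpz
  rw [Polynomial.eval₂_eq_sum_range, Finset.sum_range_succ] at hpz
  have h1 : ((algebraMap ℤ K) (p.coeff p.natDegree)) = 1 := by
    rw [Polynomial.coeff_natDegree, hp.leadingCoeff, map_one]
  rw [h1, one_mul] at hpz
  have h2 : v (z ^ p.natDegree) ≤ v z ^ (p.natDegree - 1) := by
    have e : z ^ p.natDegree = -∑ i ∈ Finset.range p.natDegree, (algebraMap ℤ K) (p.coeff i) * z ^ i := by
      linear_combination hpz
    rw [e, v.map_neg]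
    refine na_finset hna _ _ (by positivity) fun i hi => ?_
    rw [map_mul, map_pow]
    have hi' : i ≤ p.natDegree - 1 := by
      have := Finset.mem_range.1 hi
      omega
    have h3 : v ((algebraMap ℤ K) (p.coeff i)) ≤ 1 := by
      rw [eq_intCast]
      exact hna.apply_intCast_le_one
    calc v ((algebraMap ℤ K) (p.coeff i)) * v z ^ i ≤ 1 * v z ^ (p.natDegree - 1) := by
          gcongr
          exact hcon.le
      _ = _ := one_mul _
  rw [map_pow] at h2
  have h4 : v z ^ (p.natDegree - 1) < v z ^ p.natDegree := pow_lt_pow_right₀ hcon (by omega)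
  linarith

variable [NumberField K]

lemma exists_prime_above (p : ℕ) (hp : p.Prime) :
    ∃ P : HeightOneSpectrum (𝓞 K), (p : 𝓞 K) ∈ P.asIdeal := by
  have : (Ideal.span {(p : ℤ)}).IsMaximal :=
    PrincipalIdealRing.isMaximal_of_irreducible (Nat.prime_iff_prime_int.1 hp).irreducible
  obtain ⟨P, hP, hover⟩ :=
    Ideal.exists_maximal_ideal_liesOver_of_isIntegral (S := 𝓞 K) (Ideal.span {(p : ℤ)})
  have h2P : (p : 𝓞 K) ∈ P := by
    have h : (p : ℤ) ∈ P.under ℤ := by
      rw [← hover.over]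
      exact Ideal.mem_span_singleton_self _
    rw [Ideal.under_def, Ideal.mem_comap] at h
    simpa using h
  have hne : P ≠ ⊥ := by
    rintro rfl
    rw [Ideal.mem_bot] at h2P
    exact hp.ne_zero (by exact_mod_cast h2P)
  exact ⟨⟨P, hP.isPrime, hne⟩, h2P⟩

lemma infinite_primes {a : 𝓞 K} (ha : a ≠ 0) :
    {P : HeightOneSpectrum (𝓞 K) | a ∉ P.asIdeal}.Infinite := by
  choose f hf using fun p : {p : ℕ // p.Prime} => exists_prime_above (K := K) p.1 p.2
  have hinj : Function.Injective f := by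
    intro p q hpq
    by_contra hne
    have hcop : Nat.Coprime p.1 q.1 :=
      (Nat.coprime_primes p.2 q.2).2 fun h => hne (Subtype.ext h)
    have hic : IsCoprime ((p.1 : ℕ) : ℤ) ((q.1 : ℕ) : ℤ) := Nat.isCoprime_iff_coprime.2 hcop
    obtain ⟨c, d, hcd⟩ := hic
    have h1 : (1 : 𝓞 K) ∈ (f p).asIdeal := by
      have h2 := (f p).asIdeal.mul_mem_left (c : 𝓞 K) (hf p)
      have h3 := (f q).asIdeal.mul_mem_left (d : 𝓞 K) (hf q)
      rw [← hpq] at h3
      have h4 := (f p).asIdeal.add_mem h2 h3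
      have h5 : (c : 𝓞 K) * ((p.1 : ℕ) : 𝓞 K) + (d : 𝓞 K) * ((q.1 : ℕ) : 𝓞 K) = 1 := by
        exact_mod_cast congrArg (Int.cast (R := 𝓞 K)) hcd
      rwa [h5] at h4
    exact (f p).isPrime.ne_top ((Ideal.eq_top_iff_one _).2 h1)
  have : Infinite {p : ℕ // p.Prime} := Nat.infinite_setOfPred_prime.to_subtype
  have hr : (Set.range f).Infinite := Set.infinite_range_of_injective hinj
  have hfin : {P : HeightOneSpectrum (𝓞 K) | a ∈ P.asIdeal}.Finite := by
    have h := Ideal.finite_factors (R := 𝓞 K) (I := Ideal.span {a})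
      (by rwa [Ne, Ideal.zero_eq_bot, Ideal.span_singleton_eq_bot])
    refine h.subset fun P hP => ?_
    exact Ideal.dvd_span_singleton.2 hP
  refine (hr.sdiff hfin).mono fun P hP => ?_
  exact hP.2

lemma val_sq {w : Valuation K ℤᵐ⁰} {t : K} : w t ^ 2 ≠ exp (-1 : ℤ) := by
  intro h
  by_cases h0 : w t = 0
  · rw [h0, zero_pow two_ne_zero] at h
    exact exp_ne_zero h.symm
  · obtain ⟨n, hn⟩ : ∃ n : ℤ, w t = exp n := ⟨log (w t), (exp_log h0).symm⟩
    rw [hn, ← exp_nsmul, exp_inj] at h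
    simp only [nsmul_eq_mul, Nat.cast_ofNat] at h
    omega

/-- **The choice of the parameter.** -/
theorem exists_mu {v : AbsoluteValue K ℝ} (hna : IsNonarchimedean v) (h2 : v 2 < 1) (S : Finset K)
    (R : ℝ) : ∃ μ : K, R < v μ ∧ ∀ l ∈ S, ∀ l' ∈ S, l ≠ l' → ¬∃ t : K, t ^ 2 = (μ - l) * (μ - l') := by
  classical
  obtain ⟨b, hb⟩ := IsLocalization.exist_integer_multiples_of_finset (nonZeroDivisors (𝓞 K)) S
  have hb0 : (b : 𝓞 K) ≠ 0 := nonZeroDivisors.coe_ne_zero b
  have hA : ∀ l : S, ∃ a : 𝓞 K, (a : K) = (b : 𝓞 K) * l := by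
    intro l
    obtain ⟨a, ha⟩ := hb l.1 l.2
    exact ⟨a, ha.trans (Algebra.smul_def _ _)⟩
  choose A hA using hA
  obtain ⟨D, hD⟩ : ∃ D : 𝓞 K, D = 2 * b * ∏ l : S, ∏ l' ∈ Finset.univ.erase l, (A l - A l') := ⟨_, rfl⟩
  have hAne : ∀ l l' : S, l ≠ l' → A l - A l' ≠ 0 := by
    intro l l' hne h0
    apply hne
    have h1 : ((A l : 𝓞 K) : K) = A l' := by rw [sub_eq_zero.1 h0]
    rw [hA, hA] at h1
    have hbK : ((b : 𝓞 K) : K) ≠ 0 := by
      intro h3
      apply hb0
      exact_mod_cast h3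
    exact Subtype.ext (mul_left_cancel₀ hbK h1)
  have hD0 : D ≠ 0 := by
    rw [hD]
    refine mul_ne_zero (mul_ne_zero two_ne_zero hb0) ?_
    refine Finset.prod_ne_zero_iff.2 fun l _ => Finset.prod_ne_zero_iff.2 fun l' hl' => ?_
    exact hAne l l' (Finset.ne_of_mem_erase hl').symm
  let e := (infinite_primes (K := K) hD0).natEmbedding
  let P : S → HeightOneSpectrum (𝓞 K) := fun l => (e (S.equivFin l)).1
  have hPinj : Function.Injective P := by
    intro l l' h
    have h1 : e (S.equivFin l) = e (S.equivFin l') := Subtype.ext h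
    have h3 := e.injective h1
    exact S.equivFin.injective (Fin.ext h3)
  have hPD : ∀ l, D ∉ (P l).asIdeal := fun l => (e (S.equivFin l)).2
  have hP2 : ∀ l, (2 : 𝓞 K) ∉ (P l).asIdeal := fun l h => hPD l (by
    rw [hD, mul_assoc]
    exact Ideal.mul_mem_right _ _ h)
  have hPb : ∀ l, (b : 𝓞 K) ∉ (P l).asIdeal := fun l h => hPD l (by
    rw [hD]
    exact Ideal.mul_mem_right _ _ (Ideal.mul_mem_left _ _ h))
  have hPA : ∀ l l', l ≠ l' → A l - A l' ∉ (P l).asIdeal := fun l l' hne h => hPD l (by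
    rw [hD]
    refine Ideal.mul_mem_left _ _ ?_
    rw [← Finset.mul_prod_erase _ _ (Finset.mem_univ l)]
    refine Ideal.mul_mem_right _ _ ?_
    rw [← Finset.mul_prod_erase _ _ (Finset.mem_erase.2 ⟨hne.symm, Finset.mem_univ l'⟩)]
    exact Ideal.mul_mem_right _ _ h)
  choose π hπ using fun l => (P l).intValuation_exists_uniformizer
  have hv20 : 0 < v 2 := v.pos two_ne_zero
  obtain ⟨M, hM⟩ := exists_pow_lt_of_lt_one (show (0 : ℝ) < 1 / (|R| + 1) by positivity) h2
  -- the congruences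
  let I : Option S → Ideal (𝓞 K) := fun o => o.elim (Ideal.span {2}) fun l => (P l).asIdeal ^ 2
  have hmax : ∀ l, (P l).asIdeal.IsMaximal := fun l => (P l).isMaximal
  have hcop : Pairwise (Function.onFun IsCoprime I) := by
    have key : ∀ l, IsCoprime (Ideal.span {(2 : 𝓞 K)}) ((P l).asIdeal ^ 2) := by
      intro l
      refine IsCoprime.pow_right ?_
      rw [Ideal.isCoprime_iff_sup_eq]
      refine (hmax l).out.2 _ (lt_of_le_of_ne le_sup_right fun h => hP2 l ?_)
      rw [h]
      exact Ideal.mem_sup_left (Ideal.mem_span_singleton_self _)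
    rintro (_ | l) (_ | l') hne
    · exact absurd rfl hne
    · exact key l'
    · exact (key l).symm
    · have hne' : (P l).asIdeal ≠ (P l').asIdeal := by
        intro h
        apply hne
        rw [hPinj (HeightOneSpectrum.ext h)]
      have := hmax l
      have := hmax l'
      exact (Ideal.isCoprime_of_isMaximal hne').pow
  obtain ⟨y, hy⟩ := Ideal.exists_forall_sub_mem_ideal hcop
    (fun o => o.elim 1 fun l => 2 ^ M * A l + π l)
  have hy1 : y - 1 ∈ Ideal.span {(2 : 𝓞 K)} := hy none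
  have hyl : ∀ l, y - (2 ^ M * A l + π l) ∈ (P l).asIdeal ^ 2 := fun l => hy (some l)
  have hbK : ((b : 𝓞 K) : K) ≠ 0 := by
    intro h3
    apply hb0
    exact_mod_cast h3
  have h2K : (2 : K) ≠ 0 := two_ne_zero
  -- the valuations at the primes
  have hw1 : ∀ l, (P l).valuation K ((y : K) - 2 ^ M * A l) = exp (-1 : ℤ) := by
    intro l
    have e1 : ((y : K) - 2 ^ M * A l) = algebraMap (𝓞 K) K (y - 2 ^ M * A l) := by
      rw [map_sub, map_mul, map_pow, map_ofNat]
    rw [e1, HeightOneSpectrum.valuation_of_algebraMap]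
    have e2 : y - 2 ^ M * A l = (y - (2 ^ M * A l + π l)) + π l := by ring
    rw [e2]
    have e3 : (P l).intValuation (y - (2 ^ M * A l + π l)) < (P l).intValuation (π l) := by
      refine lt_of_le_of_lt (((P l).intValuation_le_pow_iff_mem _ 2).2 (hyl l)) ?_
      rw [hπ l, exp_lt_exp]
      norm_num
    rw [Valuation.map_add_eq_of_lt_right _ e3, hπ l]
  have hw2 : ∀ l l', l ≠ l' → (P l).valuation K ((y : K) - 2 ^ M * A l') = 1 := by
    intro l l' hne
    have e1 : ((y : K) - 2 ^ M * A l') = ((y : K) - 2 ^ M * A l) +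
        algebraMap (𝓞 K) K (2 ^ M * (A l - A l')) := by
      rw [map_mul, map_sub, map_pow, map_ofNat]
      ring
    have e2 : (P l).valuation K (algebraMap (𝓞 K) K (2 ^ M * (A l - A l'))) = 1 := by
      rw [HeightOneSpectrum.valuation_eq_one_iff_notMem]
      intro h
      rcases (P l).isPrime.mem_or_mem h with h | h
      · exact hP2 l ((P l).isPrime.mem_of_pow_mem _ h)
      · exact hPA l l' hne h
    rw [e1, Valuation.map_add_eq_of_lt_right, e2]
    rw [hw1 l, e2, ← exp_zero, exp_lt_exp]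
    norm_num
  have hw3 : ∀ l, (P l).valuation K ((2 : K) ^ M * (b : 𝓞 K)) = 1 := by
    intro l
    have e1 : ((2 : K) ^ M * (b : 𝓞 K)) = algebraMap (𝓞 K) K (2 ^ M * (b : 𝓞 K)) := by
      rw [map_mul, map_pow, map_ofNat]
    rw [e1, HeightOneSpectrum.valuation_eq_one_iff_notMem]
    intro h
    rcases (P l).isPrime.mem_or_mem h with h | h
    · exact hP2 l ((P l).isPrime.mem_of_pow_mem _ h)
    · exact hPb l h
  have hden : ((2 : K) ^ M * (b : 𝓞 K)) ≠ 0 := mul_ne_zero (pow_ne_zero M h2K) hbK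
  have hμl : ∀ l : S, (y : K) / ((2 : K) ^ M * (b : 𝓞 K)) - l =
      ((y : K) - 2 ^ M * A l) / ((2 : K) ^ M * (b : 𝓞 K)) := by
    intro l
    rw [hA l]
    field_simp
  refine ⟨(y : K) / ((2 : K) ^ M * (b : 𝓞 K)), ?_, ?_⟩
  · -- the absolute value
    obtain ⟨z, hz⟩ := Ideal.mem_span_singleton'.1 hy1
    have hyz : (y : K) = 1 + 2 * z := by
      have := congrArg (algebraMap (𝓞 K) K) hz
      rw [map_mul, map_ofNat, map_sub, map_one] at this
      linear_combination -this
    have hvz : v (z : K) ≤ 1 := na_integral hna z.2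
    have hvy : v (y : K) = 1 := by
      rw [hyz, na_lt hna, map_one]
      rw [map_mul, map_one]
      calc v 2 * v (z : K) ≤ v 2 * 1 := by gcongr
        _ < 1 := by rwa [mul_one]
    have hvb : v ((b : 𝓞 K) : K) ≤ 1 := na_integral hna (b : 𝓞 K).2
    have hvb0 : 0 < v ((b : 𝓞 K) : K) := v.pos hbK
    rw [map_div₀, map_mul, map_pow, hvy, lt_div_iff₀ (by positivity)]
    have h5 : v 2 ^ M * (|R| + 1) < 1 := by
      rwa [lt_div_iff₀ (by positivity)] at hM
    have h6 : v 2 ^ M * v ((b : 𝓞 K) : K) ≤ v 2 ^ M := by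
      calc _ ≤ v 2 ^ M * 1 := by gcongr
        _ = _ := mul_one _
    have h7 : R ≤ |R| + 1 := (le_abs_self R).trans (by linarith)
    calc R * (v 2 ^ M * v ((b : 𝓞 K) : K)) ≤ (|R| + 1) * (v 2 ^ M * v ((b : 𝓞 K) : K)) := by gcongr
      _ ≤ (|R| + 1) * v 2 ^ M := by gcongr
      _ < 1 := by rwa [mul_comm]
  · rintro l hl l' hl' hne ⟨t, ht⟩
    have hne' : (⟨l, hl⟩ : S) ≠ ⟨l', hl'⟩ := fun h => hne (congrArg Subtype.val h)
    have h8 := hμl ⟨l, hl⟩
    have h9 := hμl ⟨l', hl'⟩
    simp only at h8 h9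
    rw [h8, h9] at ht
    have h10 := congrArg ((P ⟨l, hl⟩).valuation K) ht
    rw [map_pow, map_mul, map_div₀, map_div₀, hw3, hw1, hw2 _ _ hne', div_one, div_one, mul_one] at h10
    exact val_sq h10

end

end Pool.Agent.H51.ZC
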