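import Pool.Agent.H51.ZC.LegLink
import Pool.Agent.H51.ZC.Mu

/-!
# Growth of the coordinates
-/

set_option autoImplicit false
set_option linter.unusedSectionVars false

open WeierstrassCurve Polynomial

namespace Pool.Agent.H51.ZC

section
variable {F : Type*} [Field F] {v : AbsoluteValue F ℝ}

lemma poly_large (hna : IsNonarchimedean v) {p : F[X]} (hp : p ≠ 0) : ∃ C : ℝ, 1 ≤ C ∧ ∀ x, C < v x →
    v (p.eval x) = v p.leadingCoeff * v x ^ p.natDegree := by
  have hlc : 0 < v p.leadingCoeff := v.pos (leadingCoeff_ne_zero.2 hp)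
  obtain ⟨A, hA⟩ : ∃ A : ℝ, A = ∑ i ∈ Finset.range p.natDegree, v (p.coeff i) + 1 := ⟨_, rfl⟩
  have hA0 : 0 < A := by
    rw [hA]
    have : 0 ≤ ∑ i ∈ Finset.range p.natDegree, v (p.coeff i) := Finset.sum_nonneg fun i _ => v.nonneg _
    linarith
  refine ⟨max 1 (A / v p.leadingCoeff), le_max_left _ _, fun x hx => ?_⟩
  have hx1 : 1 < v x := (le_max_left _ _).trans_lt hx
  have hxA : A < v x * v p.leadingCoeff := by
    rw [← div_lt_iff₀ hlc]
    exact (le_max_right _ _).trans_lt hx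
  rw [eval_eq_sum_range, Finset.sum_range_succ, add_comm, coeff_natDegree]
  by_cases hn : p.natDegree = 0
  · rw [hn]
    simp
  rw [na_lt hna, map_mul, map_pow]
  rw [map_mul, map_pow]
  have hb : v (∑ i ∈ Finset.range p.natDegree, p.coeff i * x ^ i) ≤ A * v x ^ (p.natDegree - 1) := by
    refine na_finset hna _ _ (by positivity) fun i hi => ?_
    rw [map_mul, map_pow]
    have hi' : i ≤ p.natDegree - 1 := by
      have := Finset.mem_range.1 hi
      omega
    have h1 : v (p.coeff i) ≤ A := by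
      rw [hA]
      have := Finset.single_le_sum (f := fun i => v (p.coeff i)) (fun i _ => v.nonneg _) hi
      linarith
    gcongr
    exact hx1.le
  calc _ ≤ A * v x ^ (p.natDegree - 1) := hb
    _ < (v x * v p.leadingCoeff) * v x ^ (p.natDegree - 1) := by gcongr
    _ = v p.leadingCoeff * (v x ^ (p.natDegree - 1) * v x) := by ring
    _ = v p.leadingCoeff * v x ^ p.natDegree := by
      rw [← pow_succ]
      congr 2
      omega

/-- the first coordinate is large -/
lemma Leg.large (hna : IsNonarchimedean v) {l : F} {W : WeierstrassCurve F} {e : F} (L : Leg l W e)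
    (R : ℝ) : ∃ C : ℝ, ∀ x, C < v x → L.d.eval x ≠ 0 ∧ R < v (L.n.eval x / L.d.eval x) := by
  have hn0 : L.n ≠ 0 := by
    intro h0
    have := L.deg
    rw [h0, natDegree_zero] at this
    exact absurd this (Nat.not_lt_zero _)
  have hd0 : L.d ≠ 0 := by
    intro h0
    apply L.d0
    rw [h0, eval_zero]
  obtain ⟨C₁, h1, hn⟩ := poly_large hna hn0
  obtain ⟨C₂, h2, hd⟩ := poly_large hna hd0
  have p1 : 0 < v L.n.leadingCoeff := v.pos (leadingCoeff_ne_zero.2 hn0)
  have p2 : 0 < v L.d.leadingCoeff := v.pos (leadingCoeff_ne_zero.2 hd0)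
  refine ⟨max (max C₁ C₂) (R * v L.d.leadingCoeff / v L.n.leadingCoeff), fun x hx => ?_⟩
  have e1 : C₁ < v x := (le_max_left _ _).trans_lt ((le_max_left _ _).trans_lt hx)
  have e2 : C₂ < v x := (le_max_right _ _).trans_lt ((le_max_left _ _).trans_lt hx)
  have e3 : R * v L.d.leadingCoeff < v x * v L.n.leadingCoeff := by
    rw [← div_lt_iff₀ p1]
    exact (le_max_right _ _).trans_lt hx
  have hx1 : 1 < v x := h1.trans_lt e1
  have hdp : 0 < v (L.d.eval x) := by
    rw [hd x e2]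
    positivity
  refine ⟨v.pos_iff.1 hdp, ?_⟩
  rw [map_div₀, lt_div_iff₀ hdp, hn x e1, hd x e2]
  obtain ⟨j, hj⟩ := Nat.exists_eq_add_of_lt L.deg
  rw [hj]
  calc R * (v L.d.leadingCoeff * v x ^ L.d.natDegree)
      = (R * v L.d.leadingCoeff) * v x ^ L.d.natDegree := by ring
    _ < (v x * v L.n.leadingCoeff) * v x ^ L.d.natDegree := by gcongr
    _ = v L.n.leadingCoeff * (v x ^ L.d.natDegree * v x) * 1 := by ring
    _ ≤ v L.n.leadingCoeff * (v x ^ L.d.natDegree * v x) * v x ^ j := by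
      gcongr
      exact one_le_pow₀ hx1.le
    _ = v L.n.leadingCoeff * v x ^ (L.d.natDegree + j + 1) := by ring

lemma Leg.big (hna : IsNonarchimedean v) {l : F} {W : WeierstrassCurve F} {e : F} (L : Leg l W e) :
    ∃ C : ℝ, ∀ x, C < v x → L.d.eval x ≠ 0 ∧ Big v W (L.n.eval x / L.d.eval x) := by
  obtain ⟨C, hC⟩ := L.large hna (max (max 1 (v W.a₂)) (max (v W.a₄) (v W.a₆)))
  refine ⟨C, fun x hx => ⟨(hC x hx).1, ?_⟩⟩
  have h := (hC x hx).2
  have h1 : 1 < v (L.n.eval x / L.d.eval x) := (le_max_left _ _).trans_lt ((le_max_left _ _).trans_lt h)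
  have h2 : v W.a₂ < v (L.n.eval x / L.d.eval x) :=
    (le_max_right _ _).trans_lt ((le_max_left _ _).trans_lt h)
  have h4 : v W.a₄ < v (L.n.eval x / L.d.eval x) :=
    (le_max_left _ _).trans_lt ((le_max_right _ _).trans_lt h)
  have h6 : v W.a₆ < v (L.n.eval x / L.d.eval x) :=
    (le_max_right _ _).trans_lt ((le_max_right _ _).trans_lt h)
  refine ⟨h2, h4.trans_le ?_, h6.trans_le ?_⟩
  · exact le_self_pow₀ h1.le two_ne_zero
  · exact le_self_pow₀ h1.le three_ne_zero

lemma Leg.exists_at [DecidableEq F] [IsAlgClosed F] {l : F} {W : WeierstrassCurve F} {e : F} (L : Leg l W e)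
    (hΔ : W.Δ ≠ 0) {x : F} (hd : L.d.eval x ≠ 0) : ∃ P : W.toAffine.Point, L.At x P := by
  obtain ⟨y, hy⟩ := IsAlgClosed.exists_pow_nat_eq (x * (x - 1) * (x - l)) (n := 2) two_pos
  have k := congrArg (eval x) L.eq
  simp only [eval_add, eval_mul, eval_pow, eval_C, eval_X, eval_sub, eval_one] at k
  refine ⟨.some (L.n.eval x / L.d.eval x) (y * L.m.eval x / L.d.eval x) (ns_of L.a₁ L.a₃ hΔ ?_),
    hd, y, hy, _, rfl⟩
  field_simp
  rw [← hy] at k
  linear_combination k

end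

/-- a 2-adic absolute value on an algebraic extension of `ℚ` -/
theorem exists_abv (F : Type*) [Field F] [Algebra ℚ F] [Algebra.IsAlgebraic ℚ F] :
    ∃ v : AbsoluteValue F ℝ, IsNonarchimedean v ∧ v 2 < 1 := by
  have : Fact (Nat.Prime 2) := ⟨Nat.prime_two⟩
  let φ : F →ₐ[ℚ] PadicAlgCl 2 := IsAlgClosed.lift
  refine ⟨(NormedField.toAbsoluteValue (PadicAlgCl 2)).comp φ.injective, ?_, ?_⟩
  · intro x y
    have h := PadicAlgCl.isNonarchimedean 2 (φ x) (φ y)
    change ‖φ (x + y)‖ ≤ max ‖φ x‖ ‖φ y‖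
    rw [map_add]
    exact h
  · have h1 : (NormedField.toAbsoluteValue (PadicAlgCl 2)).comp φ.injective 2 = ‖φ 2‖ := rfl
    rw [h1, map_ofNat]
    have h2 : (2 : PadicAlgCl 2) = algebraMap ℚ_[2] (PadicAlgCl 2) 2 := (map_ofNat _ 2).symm
    have h3 : ‖(2 : PadicAlgCl 2)‖ = ‖(2 : ℚ_[2])‖ := by
      rw [h2]
      exact PadicAlgCl.norm_extends 2 2
    rw [h3]
    have h4 : ‖((2 : ℕ) : ℚ_[2])‖ = ((2 : ℕ) : ℝ)⁻¹ := Padic.norm_p
    push_cast at h4
    rw [h4]
    norm_num

end Pool.Agent.H51.ZC
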