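import Pool.Agent.H51.ZC.Large
import Pool.Agent.H51.ZC.Grow

/-!
# A place of the algebraic closure above two
-/

set_option autoImplicit false
set_option linter.unusedSectionVars false

open Finset

namespace Pool.Agent.H51.ZC

/-- a 2-adic absolute value on an algebraic closure; it is precompact on the number field -/
theorem exists_abv_pre (K : Type*) [Field K] [NumberField K] (F : Type*) [Field F] [Algebra K F]
    [Algebra ℚ F] [Algebra.IsAlgebraic ℚ F] :
    ∃ v : AbsoluteValue F ℝ, IsNonarchimedean v ∧ v 2 < 1 ∧ PreC (v.comp (algebraMap K F).injective) := by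
  classical
  have : Fact (Nat.Prime 2) := ⟨Nat.prime_two⟩
  let φ : F →ₐ[ℚ] PadicAlgCl 2 := IsAlgClosed.lift
  refine ⟨(NormedField.toAbsoluteValue (PadicAlgCl 2)).comp φ.injective, ?_, ?_, ?_⟩
  · intro x y
    have h := PadicAlgCl.isNonarchimedean 2 (φ x) (φ y)
    change ‖φ (x + y)‖ ≤ max ‖φ x‖ ‖φ y‖
    rw [map_add]
    exact h
  · have h1 : (NormedField.toAbsoluteValue (PadicAlgCl 2)).comp φ.injective 2 = ‖φ 2‖ := rfl
    rw [h1, map_ofNat]
    have h2 : (2 : PadicAlgCl 2) = algebraMap ℚ_[2] (PadicAlgCl 2) 2 := (map_ofNat _ 2).symm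
    have h3 : ‖(2 : PadicAlgCl 2)‖ = ‖(2 : ℚ_[2])‖ := by
      rw [h2]
      exact PadicAlgCl.norm_extends 2 2
    rw [h3]
    have h4 : ‖((2 : ℕ) : ℚ_[2])‖ = ((2 : ℕ) : ℝ)⁻¹ := Padic.norm_p
    push_cast at h4
    rw [h4]
    norm_num
  · intro R ε hε
    let ψ : K →+* PadicAlgCl 2 := (φ : F →+* PadicAlgCl 2).comp (algebraMap K F)
    change ∃ S : Finset K, ∀ x : K, ‖ψ x‖ ≤ R → ∃ a ∈ S, ‖ψ (x - a)‖ < ε
    let b := Module.finBasis ℚ K
    let V : Submodule ℚ_[2] (PadicAlgCl 2) := Submodule.span ℚ_[2] (Set.range fun i => ψ (b i))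
    have hfin : FiniteDimensional ℚ_[2] V := FiniteDimensional.span_of_finite ℚ_[2] (Set.finite_range _)
    have hprop : ProperSpace V := FiniteDimensional.proper ℚ_[2] V
    have hmem : ∀ x : K, ψ x ∈ V := by
      intro x
      rw [← b.sum_repr x, map_sum]
      refine V.sum_mem fun i _ => ?_
      rw [Algebra.smul_def, map_mul]
      have e : ψ (algebraMap ℚ K (b.repr x i)) = algebraMap ℚ_[2] (PadicAlgCl 2) (b.repr x i : ℚ_[2]) := by
        rw [eq_ratCast, map_ratCast, map_ratCast]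
      rw [e, ← Algebra.smul_def]
      exact V.smul_mem _ (Submodule.subset_span ⟨i, rfl⟩)
    let s : Set V := {z | ∃ x : K, ‖ψ x‖ ≤ R ∧ z = ⟨ψ x, hmem x⟩}
    have hs : TotallyBounded s := by
      refine (isCompact_closedBall (0 : V) R).totallyBounded.subset ?_
      rintro _ ⟨x, hx, rfl⟩
      rw [mem_closedBall_zero_iff]
      exact hx
    obtain ⟨t, hts, htf, hcov⟩ := Metric.finite_approx_of_totallyBounded hs ε hε
    choose! g hg1 hg2 using fun (z : V) (hz : z ∈ t) => hts hz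
    refine ⟨htf.toFinset.image g, fun x hx => ?_⟩
    obtain ⟨z, hz, hxz⟩ := Set.mem_iUnion₂.1 (hcov (show (⟨ψ x, hmem x⟩ : V) ∈ s from ⟨x, hx, rfl⟩))
    refine ⟨g z, mem_image_of_mem g (htf.mem_toFinset.2 hz), ?_⟩
    rw [Metric.mem_ball, dist_eq_norm, hg2 z hz] at hxz
    rw [map_sub]
    exact hxz

end Pool.Agent.H51.ZC
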