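import Pool.Agent.H51.ZC.Leg

/-!
# Towers of isogenies and the arithmetic-geometric mean
-/

set_option autoImplicit false
set_option linter.unusedSectionVars false

open Polynomial WeierstrassCurve

namespace Pool.Agent.H51.ZC

section
variable {F : Type*} [Field F]

/-- the recursion of the tower -/
def IsAgm (r : ℕ → F) : Prop := ∀ j, r (j + 1) ^ 2 * (4 * r j) = (1 + r j) ^ 2

/-- **Maps from the Legendre curves of the tower.** -/
theorem exists_leg [IsAlgClosed F] (h2 : (2 : F) ≠ 0) (k : ℕ) :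
    ∀ (r : ℕ → F), IsAgm r → (∀ j, r j ≠ 0) → (∀ j, r j ^ 2 ≠ 1) → ∀ {W : WeierstrassCurve F}
      {e₁ e₂ e₃ : F}, Roots W e₁ e₂ e₃ → e₂ ≠ e₁ → e₃ - e₁ = r 0 ^ 2 * (e₂ - e₁) →
        Nonempty (Leg (r k ^ 2) W e₁) := by
  induction k with
  | zero =>
    intro r _ _ _ W e₁ e₂ e₃ h h12 hl
    obtain ⟨a, ha⟩ := IsAlgClosed.exists_pow_nat_eq (e₂ - e₁) (n := 2) two_pos
    have ha0 : a ≠ 0 := by
      rintro rfl
      apply h12
      linear_combination -ha
    exact ⟨Leg.start h ha ha0 hl⟩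
  | succ k ih =>
    intro r hr hr0 hr1 W e₁ e₂ e₃ h h12 hl
    obtain ⟨a, ha⟩ := IsAlgClosed.exists_pow_nat_eq (e₂ - e₁) (n := 2) two_pos
    have ha0 : a ≠ 0 := by
      rintro rfl
      apply h12
      linear_combination -ha
    have h1r : 1 + r 0 ≠ 0 := by
      intro h0
      apply hr1 0
      linear_combination (r 0 - 1) * h0
    have h4 : (4 : F) ≠ 0 := by
      have : (4 : F) = 2 ^ 2 := by norm_num
      rw [this]
      exact pow_ne_zero 2 h2
    obtain ⟨L⟩ := ih (fun j => r (j + 1)) (fun j => hr (j + 1)) (fun j => hr0 (j + 1))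
      (fun j => hr1 (j + 1)) (up2_roots a (r 0 * a))
      (by
        intro h0
        have h5 : 4 * r 0 * a ^ 2 = 0 := by linear_combination h0
        exact mul_ne_zero (mul_ne_zero h4 (hr0 0)) (pow_ne_zero 2 ha0) h5)
      (by
        have h6 := hr 0
        simp only [zero_add] at h6 ⊢
        linear_combination -a ^ 2 * h6)
    refine ⟨Leg.push h ha ?_ L ?_ ?_ h2⟩
    · rw [hl, ← ha]
      ring
    · refine neg_ne_zero.2 (pow_ne_zero 2 ?_)
      have : a + r 0 * a = a * (1 + r 0) := by ring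
      rw [this]
      exact mul_ne_zero ha0 h1r
    · ring

end

section
variable {F : Type*} [Field F] [IsAlgClosed F] [CharZero F] (ι : F →+* ℂ)

/-- the distance from one -/
noncomputable def kap (r : F) : ℝ := ‖ι r - 1‖ / ‖ι r + 1‖

/-- admissible values -/
def Adm (r : F) : Prop := r ≠ 0 ∧ r ^ 2 ≠ 1 ∧ 0 ≤ (ι r).re

lemma norm_add_one_sq (z : ℂ) : ‖z + 1‖ ^ 2 = ‖z‖ ^ 2 + 2 * z.re + 1 := by
  rw [← Complex.normSq_eq_norm_sq, ← Complex.normSq_eq_norm_sq, Complex.normSq_apply,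
    Complex.normSq_apply]
  simp
  ring

lemma norm_sub_one_sq (z : ℂ) : ‖z - 1‖ ^ 2 = ‖z‖ ^ 2 - 2 * z.re + 1 := by
  rw [← Complex.normSq_eq_norm_sq, ← Complex.normSq_eq_norm_sq, Complex.normSq_apply,
    Complex.normSq_apply]
  simp
  ring

/-- a square root with positive real part -/
lemma exists_sqrt {r : F} (h : Adm ι r) : ∃ g : F, g ^ 2 = r ∧ 0 < (ι g).re := by
  obtain ⟨g, hg⟩ := IsAlgClosed.exists_pow_nat_eq r (n := 2) two_pos
  have hne : (ι g).re ≠ 0 := by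
    intro h0
    have h1 : (ι g) ^ 2 = ι r := by rw [← map_pow, hg]
    have h2 : (ι r).re = -(ι g).im ^ 2 := by
      rw [← h1, sq, Complex.mul_re, h0]
      ring
    have h3 : (ι g).im = 0 := by
      have := h.2.2
      rw [h2] at this
      nlinarith [sq_nonneg (ι g).im]
    have h4 : ι g = 0 := Complex.ext h0 h3
    have h5 : g = 0 := by
      apply ι.injective
      rw [h4, map_zero]
    apply h.1
    rw [← hg, h5]
    ring
  rcases lt_or_gt_of_ne hne with h1 | h1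
  · refine ⟨-g, by rw [← hg]; ring, ?_⟩
    rw [map_neg, Complex.neg_re]
    linarith
  · exact ⟨g, hg, h1⟩

lemma adm_step {r : F} (h : Adm ι r) : ∃ r' : F, (Adm ι r' ∧ 0 < (ι r').re) ∧
    r' ^ 2 * (4 * r) = (1 + r) ^ 2 ∧ kap ι r' < kap ι r := by
  obtain ⟨g, hg, hre⟩ := exists_sqrt ι h
  have hg0 : g ≠ 0 := by
    rintro rfl
    rw [map_zero, Complex.zero_re] at hre
    exact lt_irrefl _ hre
  have h2 : (2 : F) ≠ 0 := two_ne_zero
  have hg1 : g - 1 ≠ 0 := by
    intro h0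
    apply h.2.1
    have : g = 1 := by linear_combination h0
    rw [← hg, this]
    ring
  have hgp : g + 1 ≠ 0 := by
    intro h0
    apply h.2.1
    have : g = -1 := by linear_combination h0
    rw [← hg, this]
    ring
  have hr1 : 1 + r ≠ 0 := by
    intro h0
    apply h.2.1
    linear_combination (r - 1) * h0
  have hpos : 0 < (ι ((1 + r) / (2 * g))).re := by
    have e1 : (1 + r) / (2 * g) = (g + g⁻¹) / 2 := by
      rw [← hg]
      field_simp
      ring
    rw [e1, map_div₀, map_add, map_inv₀, map_ofNat]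
    have e2 : ((ι g + (ι g)⁻¹) / (2 : ℂ)).re = ((ι g).re + ((ι g)⁻¹).re) / 2 := by
      have : (ι g + (ι g)⁻¹) / (2 : ℂ) = ((1 / 2 : ℝ) : ℂ) * (ι g + (ι g)⁻¹) := by
        push_cast
        ring
      rw [this, Complex.re_ofReal_mul, Complex.add_re]
      ring
    rw [e2, Complex.inv_re]
    have h5 : 0 ≤ (ι g).re / Complex.normSq (ι g) := div_nonneg hre.le (Complex.normSq_nonneg _)
    linarith
  refine ⟨(1 + r) / (2 * g), ⟨⟨div_ne_zero hr1 (mul_ne_zero h2 hg0), ?_, hpos.le⟩, hpos⟩, ?_, ?_⟩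
  · intro h0
    rw [div_pow, div_eq_one_iff_eq (pow_ne_zero 2 (mul_ne_zero h2 hg0))] at h0
    have h6 : (g - 1) ^ 2 * (g + 1) ^ 2 = 0 := by
      rw [← hg] at h0
      linear_combination h0
    exact mul_ne_zero (pow_ne_zero 2 hg1) (pow_ne_zero 2 hgp) h6
  · rw [← hg]
    field_simp
    ring
  · unfold kap
    have k1 : (1 + r) / (2 * g) - 1 = (g - 1) ^ 2 / (2 * g) := by
      rw [← hg]
      field_simp
      ring
    have k2 : (1 + r) / (2 * g) + 1 = (g + 1) ^ 2 / (2 * g) := by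
      rw [← hg]
      field_simp
      ring
    have l1 : ι ((1 + r) / (2 * g)) - 1 = (ι g - 1) ^ 2 / (2 * ι g) := by
      have := congrArg ι k1
      simpa only [map_sub, map_one, map_div₀, map_pow, map_mul, map_ofNat] using this
    have l2 : ι ((1 + r) / (2 * g)) + 1 = (ι g + 1) ^ 2 / (2 * ι g) := by
      have := congrArg ι k2
      simpa only [map_add, map_one, map_div₀, map_pow, map_mul, map_ofNat] using this
    have l3 : ι r - 1 = (ι g - 1) * (ι g + 1) := by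
      rw [← hg, map_pow]
      ring
    have l4 : ι r + 1 = ι g ^ 2 + 1 := by
      rw [← hg, map_pow]
    rw [l1, l2, l3, l4]
    simp only [norm_div, norm_mul, norm_pow]
    have n0 : 0 < ‖ι g‖ := norm_pos_iff.2 ((map_ne_zero ι).2 hg0)
    have n1 : 0 < ‖ι g - 1‖ := by
      rw [norm_pos_iff]
      intro h0
      apply hg1
      apply ι.injective
      rw [map_sub, map_one, h0, map_zero]
    have n2 : 0 < ‖ι g + 1‖ := by
      rw [norm_pos_iff]
      intro h0
      apply hgp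
      apply ι.injective
      rw [map_add, map_one, h0, map_zero]
    have n3 : 0 < ‖ι g ^ 2 + 1‖ := by
      rw [norm_pos_iff]
      intro h0
      apply hr1
      apply ι.injective
      rw [map_add, map_one, ← hg, map_pow, map_zero, add_comm]
      exact h0
    have n4 : ‖(2 : ℂ)‖ * ‖ι g‖ ≠ 0 := by
      have : ‖(2 : ℂ)‖ = 2 := by norm_num
      rw [this]
      positivity
    have m1 : ‖ι g - 1‖ ^ 2 / (‖(2 : ℂ)‖ * ‖ι g‖) / (‖ι g + 1‖ ^ 2 / (‖(2 : ℂ)‖ * ‖ι g‖)) =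
        ‖ι g - 1‖ ^ 2 / ‖ι g + 1‖ ^ 2 := div_div_div_cancel_right₀ n4 _ _
    rw [m1, div_lt_div_iff₀ (by positivity) n3]
    have s1 := norm_add_one_sq (ι g)
    have s2 := norm_sub_one_sq (ι g)
    have a1 : ‖ι g - 1‖ < ‖ι g + 1‖ := by
      refine lt_of_pow_lt_pow_left₀ 2 n2.le ?_
      rw [s1, s2]
      linarith
    have a2 : ‖ι g ^ 2 + 1‖ ≤ ‖ι g + 1‖ ^ 2 := by
      calc ‖ι g ^ 2 + 1‖ ≤ ‖ι g ^ 2‖ + ‖(1 : ℂ)‖ := norm_add_le _ _
        _ = ‖ι g‖ ^ 2 + 1 := by rw [norm_pow, norm_one]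
        _ ≤ _ := by rw [s1]; linarith
    calc ‖ι g - 1‖ ^ 2 * ‖ι g ^ 2 + 1‖ ≤ ‖ι g - 1‖ ^ 2 * ‖ι g + 1‖ ^ 2 := by gcongr
      _ = (‖ι g - 1‖ * ‖ι g - 1‖) * ‖ι g + 1‖ ^ 2 := by ring
      _ < (‖ι g - 1‖ * ‖ι g + 1‖) * ‖ι g + 1‖ ^ 2 := by gcongr

include ι in
/-- **The sequence of the tower.** -/
theorem exists_agm {l : F} (h0 : l ≠ 0) (h1 : l ≠ 1) : ∃ r : ℕ → F, IsAgm r ∧ (∀ j, r j ≠ 0) ∧
    (∀ j, r j ^ 2 ≠ 1) ∧ r 0 ^ 2 = l ∧ Function.Injective fun j => r (j + 1) ^ 2 := by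
  obtain ⟨r₀, hr₀, hadm⟩ : ∃ r₀ : F, r₀ ^ 2 = l ∧ Adm ι r₀ := by
    obtain ⟨r, hr⟩ := IsAlgClosed.exists_pow_nat_eq l (n := 2) two_pos
    have hr0 : r ≠ 0 := by
      rintro rfl
      apply h0
      rw [← hr]
      ring
    rcases le_total 0 (ι r).re with h | h
    · exact ⟨r, hr, hr0, by rwa [hr], h⟩
    · refine ⟨-r, by rw [← hr]; ring, neg_ne_zero.2 hr0, by rw [neg_sq, hr]; exact h1, ?_⟩
      rw [map_neg, Complex.neg_re]
      linarith
  choose f hf1 hf2 hf3 using fun r : {r : F // Adm ι r} => adm_step ι r.2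
  let G : {r : F // Adm ι r} → {r : F // Adm ι r} := fun r => ⟨f r, (hf1 r).1⟩
  let R : ℕ → {r : F // Adm ι r} := fun n => G^[n] ⟨r₀, hadm⟩
  have hR : ∀ n, R (n + 1) = G (R n) := fun n => Function.iterate_succ_apply' _ _ _
  have hanti : StrictAnti fun n => kap ι (R n).1 := by
    refine strictAnti_nat_of_succ_lt fun n => ?_
    rw [hR]
    exact hf3 (R n)
  refine ⟨fun n => (R n).1, fun j => ?_, fun j => (R j).2.1, fun j => (R j).2.2.1, hr₀, ?_⟩
  · simp only [hR]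
    exact hf2 (R j)
  · intro j k hjk
    have hpos : ∀ n, 0 < (ι (R (n + 1)).1).re := fun n => by
      rw [hR]
      exact (hf1 (R n)).2
    have hjk' : (R (j + 1)).1 ^ 2 = (R (k + 1)).1 ^ 2 := hjk
    rcases sq_eq_sq_iff_eq_or_eq_neg.1 hjk' with h | h
    · have := hanti.injective (show kap ι (R (j + 1)).1 = kap ι (R (k + 1)).1 by rw [h])
      omega
    · exfalso
      have h3 := hpos j
      rw [h, map_neg, Complex.neg_re] at h3
      linarith [hpos k]

end

end Pool.Agent.H51.ZC
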