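import Mathlib

/-!
# Zero-cycles on products of elliptic curves

The curves are `W i : y² = x³ + a₂ x² + a₄ x + a₆`, `i ∈ ι`.  `Rat W` is a group of zero-cycles on the product
of the `W i` that are rationally equivalent to zero.
-/

set_option autoImplicit false

open Polynomial WeierstrassCurve

namespace Pool.Agent.H51.ZC

section
variable {F : Type*} [Field F]

/-- A hyperelliptic family of points on `W × W'`: the rational functions `X₁ = n₁ / d`, `Y₁ = m₁ / d`,
`X₂ = n₂ / d`, `Y₂ = m₂ / d` of `s` and the polynomial `h` satisfy `h Y₁² = X₁³ + a₂ X₁² + a₄ X₁ + a₆`, and the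
same for the second curve `W'`, so that `(s, y) ↦ ((X₁, y Y₁), (X₂, y Y₂))` is a map from the curve
`y² = h(s)` to `W × W'`. -/
structure Family (W W' : WeierstrassCurve F) where
  h : F[X]
  d : F[X]
  n₁ : F[X]
  m₁ : F[X]
  n₂ : F[X]
  m₂ : F[X]
  short₁ : W.a₁ = 0 ∧ W.a₃ = 0
  short₂ : W'.a₁ = 0 ∧ W'.a₃ = 0
  eq₁ : h * m₁ ^ 2 * d = n₁ ^ 3 + C W.a₂ * n₁ ^ 2 * d + C W.a₄ * n₁ * d ^ 2 + C W.a₆ * d ^ 3
  eq₂ : h * m₂ ^ 2 * d = n₂ ^ 3 + C W'.a₂ * n₂ ^ 2 * d + C W'.a₄ * n₂ * d ^ 2 + C W'.a₆ * d ^ 3

/-- `(P, Q)` is the image of a point `(s, y)` of the curve `y² = h(s)` with `d(s) ≠ 0`. -/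
def Family.Over {W W' : WeierstrassCurve F} (f : Family W W') (s : F)
    (P : W.toAffine.Point) (Q : W'.toAffine.Point) : Prop :=
  f.d.eval s ≠ 0 ∧ ∃ y : F, y ^ 2 = f.h.eval s ∧
    (∃ h₁, P = .some (f.n₁.eval s / f.d.eval s) (y * f.m₁.eval s / f.d.eval s) h₁) ∧
    ∃ h₂, Q = .some (f.n₂.eval s / f.d.eval s) (y * f.m₂.eval s / f.d.eval s) h₂

variable [DecidableEq F] {ι : Type*} [DecidableEq ι] (W : ι → WeierstrassCurve F)

/-- The points of the product of the curves `W i`. -/
abbrev Pts : Type _ := ∀ i, (W i).toAffine.Point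

/-- Zero-cycles on the product of the curves `W i`: formal sums of points. -/
abbrev Cyc : Type _ := Pts W →₀ ℤ

/-- The point `R` as a zero-cycle. -/
noncomputable def pt {W : ι → WeierstrassCurve F} (R : Pts W) : Cyc W := Finsupp.single R 1

/-- A group of zero-cycles on the product of the curves `W i` which are rationally equivalent to zero.
`R[i ← P]` denotes the point `R` with the `i`-th coordinate replaced by `P`.  The group is generated by
* the `R[i ← P + P'] + R[i ← O] - R[i ← P] - R[i ← P']`: divisors of rational functions on the curves on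
  which all the coordinates but the `i`-th are constant;
* the differences of the images of two fibres of the double covering `(s, y) ↦ s` of the projective line
  by the curve `y² = h(s)`, under maps from this curve to the product whose coordinates other than the
  `i`-th and the `j`-th are constant. -/
noncomputable def Rat : AddSubgroup (Cyc W) :=
  AddSubgroup.closure
    ({z | ∃ (R : Pts W) (i : ι) (P P' : (W i).toAffine.Point),
        z = pt (Function.update R i (P + P')) + pt (Function.update R i 0) -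
          pt (Function.update R i P) - pt (Function.update R i P')} ∪
      {z | ∃ (R : Pts W) (i j : ι) (f : Family (W i) (W j)) (s s' : F) (P P' : (W i).toAffine.Point)
        (Q Q' : (W j).toAffine.Point), i ≠ j ∧ f.Over s P Q ∧ f.Over s' P' Q' ∧
          z = pt (Function.update (Function.update R i P) j Q) +
            pt (Function.update (Function.update R i (-P)) j (-Q)) -
            pt (Function.update (Function.update R i P') j Q') -
            pt (Function.update (Function.update R i (-P')) j (-Q'))})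

/-- The zero-cycles some positive multiple of which lies in `Rat`: they are torsion modulo rational
equivalence. -/
noncomputable def Tors : AddSubgroup (Cyc W) where
  carrier := {z | ∃ n : ℕ, 0 < n ∧ n • z ∈ Rat W}
  zero_mem' := ⟨1, one_pos, by rw [smul_zero]; exact zero_mem _⟩
  add_mem' := by
    rintro a b ⟨n, hn, h⟩ ⟨m, hm, h'⟩
    refine ⟨n * m, Nat.mul_pos hn hm, ?_⟩
    rw [nsmul_add]
    refine add_mem ?_ ?_
    · rw [mul_comm, mul_nsmul']
      exact AddSubgroup.nsmul_mem _ h m
    · rw [mul_nsmul']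
      exact AddSubgroup.nsmul_mem _ h' n
  neg_mem' := by
    rintro a ⟨n, hn, h⟩
    exact ⟨n, hn, by rw [smul_neg]; exact neg_mem h⟩

variable {W}

/-- the class modulo torsion -/
noncomputable def cl : Cyc W →+ Cyc W ⧸ Tors W := QuotientAddGroup.mk' (Tors W)

lemma cl_zero {z : Cyc W} : cl z = 0 ↔ z ∈ Tors W := QuotientAddGroup.eq_zero_iff _

lemma cl_zero_of {z : Cyc W} (h : z ∈ Rat W) : cl z = 0 :=
  cl_zero.2 ⟨1, one_pos, by rwa [one_smul]⟩

lemma cl_surj (x : Cyc W ⧸ Tors W) : ∃ z, cl z = x := QuotientAddGroup.mk'_surjective _ x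

lemma tf {x : Cyc W ⧸ Tors W} {n : ℕ} (hn : 0 < n) (h : n • x = 0) : x = 0 := by
  obtain ⟨z, rfl⟩ := cl_surj x
  rw [← map_nsmul, cl_zero] at h
  obtain ⟨m, hm, h⟩ := h
  refine cl_zero.2 ⟨m * n, Nat.mul_pos hm hn, ?_⟩
  rwa [mul_nsmul']

lemma cl_add (R : Pts W) (i : ι) (P P' : (W i).toAffine.Point) :
    cl (pt (Function.update R i (P + P'))) = cl (pt (Function.update R i P)) +
      cl (pt (Function.update R i P')) - cl (pt (Function.update R i 0)) := by
  have h3 := cl_zero_of (W := W) (AddSubgroup.subset_closure (Or.inl ⟨R, i, P, P', rfl⟩))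
  rw [map_sub, map_sub, map_add] at h3
  linear_combination (norm := abel) h3

/-- `R[i ← P, j ← Q]` -/
def up (R : Pts W) (i j : ι) (P : (W i).toAffine.Point) (Q : (W j).toAffine.Point) : Pts W :=
  Function.update (Function.update R i P) j Q

lemma up_comm (R : Pts W) {i j : ι} (hij : i ≠ j) (P : (W i).toAffine.Point)
    (Q : (W j).toAffine.Point) : up R i j P Q = up R j i Q P :=
  Function.update_comm hij _ _ _

lemma cl_add_snd (R : Pts W) (i j : ι) (P : (W i).toAffine.Point) (Q Q' : (W j).toAffine.Point) :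
    cl (pt (up R i j P (Q + Q'))) = cl (pt (up R i j P Q)) + cl (pt (up R i j P Q')) -
      cl (pt (up R i j P 0)) := cl_add _ j Q Q'

lemma cl_add_fst (R : Pts W) {i j : ι} (hij : i ≠ j) (P P' : (W i).toAffine.Point)
    (Q : (W j).toAffine.Point) :
    cl (pt (up R i j (P + P') Q)) = cl (pt (up R i j P Q)) + cl (pt (up R i j P' Q)) -
      cl (pt (up R i j 0 Q)) := by
  rw [up_comm R hij, up_comm R hij, up_comm R hij, up_comm R hij]
  exact cl_add _ i P P'

/-- the mixed difference -/
noncomputable def mx (R : Pts W) (i j : ι) (P : (W i).toAffine.Point) (Q : (W j).toAffine.Point) :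
    Cyc W ⧸ Tors W :=
  cl (pt (up R i j P Q)) - cl (pt (up R i j P 0)) - cl (pt (up R i j 0 Q)) + cl (pt (up R i j 0 0))

/-- the mixed difference as a bilinear map -/
noncomputable def bil (R : Pts W) {i j : ι} (hij : i ≠ j) :
    (W i).toAffine.Point →+ (W j).toAffine.Point →+ Cyc W ⧸ Tors W :=
  AddMonoidHom.mk' (fun P => AddMonoidHom.mk' (fun Q => mx R i j P Q) (fun Q Q' => by
      unfold mx
      rw [cl_add_snd R i j P Q Q', cl_add_snd R i j 0 Q Q']
      abel))
    (fun P P' => by
      ext Q
      show mx R i j (P + P') Q = mx R i j P Q + mx R i j P' Q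
      unfold mx
      rw [cl_add_fst R hij P P' Q, cl_add_fst R hij P P' 0]
      abel)

lemma bil_apply (R : Pts W) {i j : ι} (hij : i ≠ j) (P : (W i).toAffine.Point)
    (Q : (W j).toAffine.Point) : bil R hij P Q = mx R i j P Q := rfl

lemma bil_symm (R : Pts W) {i j : ι} (hij : i ≠ j) (P : (W i).toAffine.Point)
    (Q : (W j).toAffine.Point) : bil R hij P Q = bil R hij.symm Q P := by
  rw [bil_apply, bil_apply]
  unfold mx
  rw [up_comm R hij P Q, up_comm R hij P 0, up_comm R hij 0 Q, up_comm R hij 0 0]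
  abel

lemma pt_eq (R : Pts W) {i j : ι} (hij : i ≠ j) (P : (W i).toAffine.Point)
    (Q : (W j).toAffine.Point) :
    cl (pt (up R i j P Q)) = bil R hij P Q + cl (pt (up R i j P 0)) + cl (pt (up R i j 0 Q)) -
      cl (pt (up R i j 0 0)) := by
  rw [bil_apply]
  unfold mx
  abel

lemma pt_pair (R : Pts W) {i j : ι} (hij : i ≠ j) (P : (W i).toAffine.Point)
    (Q : (W j).toAffine.Point) :
    cl (pt (up R i j P Q)) + cl (pt (up R i j (-P) (-Q))) =
      2 • bil R hij P Q + 2 • cl (pt (up R i j 0 0)) := by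
  have h1 : cl (pt (up R i j P 0)) + cl (pt (up R i j (-P) 0)) = 2 • cl (pt (up R i j 0 0)) := by
    have := cl_add_fst R hij P (-P) 0
    rw [add_neg_cancel] at this
    rw [two_nsmul]
    linear_combination (norm := abel) -this
  have h2 : cl (pt (up R i j 0 Q)) + cl (pt (up R i j 0 (-Q))) = 2 • cl (pt (up R i j 0 0)) := by
    have := cl_add_snd R i j 0 Q (-Q)
    rw [add_neg_cancel] at this
    rw [two_nsmul]
    linear_combination (norm := abel) -this
  have h3 : bil R hij (-P) (-Q) = bil R hij P Q := by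
    rw [map_neg, map_neg, AddMonoidHom.neg_apply, neg_neg]
  rw [pt_eq R hij P Q, pt_eq R hij (-P) (-Q), h3]
  linear_combination (norm := abel) h1 + h2

/-- **The relation of a family with a point of order two.** -/
theorem bil_zero (R : Pts W) {i j : ι} (hij : i ≠ j) {f : Family (W i) (W j)} {s s' : F}
    {P T : (W i).toAffine.Point} {Q T' : (W j).toAffine.Point} (h : f.Over s P Q)
    (h' : f.Over s' T T') (hT : 2 • T = 0) : bil R hij P Q = 0 := by
  have h2 := cl_zero_of (W := W) (AddSubgroup.subset_closure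
    (Or.inr ⟨R, i, j, f, s, s', P, T, Q, T', hij, h, h', rfl⟩))
  change cl (pt (up R i j P Q) + pt (up R i j (-P) (-Q)) - pt (up R i j T T') -
    pt (up R i j (-T) (-T'))) = 0 at h2
  rw [map_sub, map_sub, map_add] at h2
  have h4 := pt_pair R hij P Q
  have h5 := pt_pair R hij T T'
  have h3 : 2 • bil R hij T T' = 0 := by
    rw [← AddMonoidHom.nsmul_apply, ← map_nsmul, hT, map_zero, AddMonoidHom.zero_apply]
  rw [h3] at h5
  refine tf two_pos ?_
  linear_combination (norm := abel) h2 - h4 + h5

end

end Pool.Agent.H51.ZC
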