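import Mathlib

/-!
# Definitions
-/

set_option autoImplicit false

open WeierstrassCurve

namespace Pool.Agent.H51.ZC

/-- the curve `y² = x (x - a) (x - b)` -/
def curve₂ {K : Type*} [Field K] (a b : K) : WeierstrassCurve K := ⟨0, -(a + b), 0, a * b, 0⟩

section
variable {F : Type*} [Field F] [DecidableEq F]

/-- the conjugate `(σ x, σ y)` of a point `(x, y)`, a point of the conjugate curve -/
noncomputable def conj (σ : F →+* F) (W : WeierstrassCurve F) :
    W.toAffine.Point →+ (W.map σ).toAffine.Point where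
  toFun
    | 0 => 0
    | .some x y h => .some (σ x) (σ y) ((Affine.map_nonsingular (W := W) σ.injective x y).2 h)
  map_zero' := rfl
  map_add' := by
    rintro (_ | ⟨x₁, y₁, h₁⟩) (_ | ⟨x₂, y₂, h₂⟩)
    any_goals rfl
    by_cases hxy : x₁ = x₂ ∧ y₁ = W.toAffine.negY x₂ y₂
    · rw [Affine.Point.add_of_Y_eq hxy.1 hxy.2]
      refine (Affine.Point.add_of_Y_eq (congrArg σ hxy.1) ?_).symm
      rw [hxy.2]
      exact (Affine.map_negY (W' := W.toAffine) σ x₂ y₂).symm
    · rw [Affine.Point.add_some hxy]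
      have hxy' : ¬(σ x₁ = σ x₂ ∧ σ y₁ = (W.map σ).toAffine.negY (σ x₂) (σ y₂)) := fun h =>
        hxy ⟨σ.injective h.1, σ.injective (h.2.trans (Affine.map_negY (W' := W.toAffine) σ x₂ y₂))⟩
      refine Eq.trans ?_ (Affine.Point.add_some hxy').symm
      have hs := Affine.map_slope (W := W.toAffine) σ x₁ x₂ y₁ y₂
      have e1 : σ (W.toAffine.addX x₁ x₂ (W.toAffine.slope x₁ x₂ y₁ y₂)) =
          (W.map σ).toAffine.addX (σ x₁) (σ x₂) ((W.map σ).toAffine.slope (σ x₁) (σ x₂) (σ y₁) (σ y₂)) := by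
        rw [← Affine.map_addX (W' := W.toAffine) σ, ← hs]
      have e2 : σ (W.toAffine.addY x₁ x₂ y₁ (W.toAffine.slope x₁ x₂ y₁ y₂)) =
          (W.map σ).toAffine.addY (σ x₁) (σ x₂) (σ y₁)
            ((W.map σ).toAffine.slope (σ x₁) (σ x₂) (σ y₁) (σ y₂)) := by
        rw [← Affine.map_addY (W' := W.toAffine) σ, ← hs]
      exact (Affine.Point.some.injEq _ _ _ _ _ _).mpr ⟨e1, e2⟩

end

end Pool.Agent.H51.ZC
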