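import Pool.Agent.H51.ZC.Sys
import Pool.Agent.H51.ZC.Defs

/-!
# The action of automorphisms of the field
-/

set_option autoImplicit false
set_option linter.unusedSectionVars false

open WeierstrassCurve Polynomial

namespace Pool.Agent.H51.ZC

section
variable {F : Type*} [Field F] [DecidableEq F]

/-- the conjugate of a map -/
noncomputable def Leg.conj (σ : F →+* F) {l : F} {W : WeierstrassCurve F} {e : F} (L : Leg l W e) :
    Leg (σ l) (W.map σ) (σ e) where
  n := L.n.map σ
  m := L.m.map σ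
  d := L.d.map σ
  a₁ := by rw [WeierstrassCurve.map_a₁, L.a₁, map_zero]
  a₃ := by rw [WeierstrassCurve.map_a₃, L.a₃, map_zero]
  eq := by
    have h := congrArg (Polynomial.map σ) L.eq
    simpa only [Polynomial.map_mul, Polynomial.map_add, Polynomial.map_pow, Polynomial.map_sub, map_X,
      Polynomial.map_one, map_C, WeierstrassCurve.map_a₂, WeierstrassCurve.map_a₄,
      WeierstrassCurve.map_a₆] using h
  d0 := by
    rw [← map_zero σ, eval_map_apply, map_zero]
    exact (map_ne_zero σ).2 L.d0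
  n0 := by
    have h1 : (L.n.map σ).eval 0 = σ (L.n.eval 0) := by
      conv_lhs => rw [← map_zero σ]
      rw [eval_map_apply]
    have h2 : (L.d.map σ).eval 0 = σ (L.d.eval 0) := by
      conv_lhs => rw [← map_zero σ]
      rw [eval_map_apply]
    rw [h1, h2, L.n0, map_mul]
  deg := by
    rw [natDegree_map, natDegree_map]
    exact L.deg

/-- **The sets of points are stable under automorphisms.** -/
theorem gens_conj (σ : F →+* F) {μ : F} (hμ : σ μ = μ) {W : WeierstrassCurve F}
    {P : W.toAffine.Point} (hP : P ∈ gens μ W) : ZC.conj σ W P ∈ gens μ (W.map σ) := by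
  obtain ⟨l, e, L, hl, hμl, hd, y, hy, h, rfl⟩ := hP
  have ev : ∀ p : F[X], (p.map σ).eval μ = σ (p.eval μ) := by
    intro p
    conv_lhs => rw [← hμ]
    rw [eval_map_apply]
  refine ⟨σ l, σ e, L.conj σ, (map_ne_zero σ).2 hl, fun h0 => hμl (σ.injective (by rw [hμ, ← h0])), ?_,
    σ y, ?_, ?_⟩
  · change (L.d.map σ).eval μ ≠ 0
    rw [ev]
    exact (map_ne_zero σ).2 hd
  · rw [← map_pow, hy]
    simp only [map_mul, map_sub, map_one, hμ]
  · have e1 : σ (L.n.eval μ / L.d.eval μ) = (L.conj σ).n.eval μ / (L.conj σ).d.eval μ := by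
      change _ = (L.n.map σ).eval μ / (L.d.map σ).eval μ
      rw [ev, ev, map_div₀]
    have e2 : σ (y * L.m.eval μ / L.d.eval μ) = σ y * (L.conj σ).m.eval μ / (L.conj σ).d.eval μ := by
      change _ = σ y * (L.m.map σ).eval μ / (L.d.map σ).eval μ
      rw [ev, ev, map_div₀, map_mul]
    rw [← e1, ← e2]
    exact ⟨_, rfl⟩

/-- the saturated subgroups are stable -/
theorem satSub_conj (σ : F →+* F) {μ : F} (hμ : σ μ = μ) (W : WeierstrassCurve F) :
    (satSub (gens μ W)).map (ZC.conj σ W) ≤ satSub (gens μ (W.map σ)) := by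
  rintro _ ⟨P, ⟨n, hn, hP⟩, rfl⟩
  refine ⟨n, hn, ?_⟩
  rw [← map_nsmul]
  have h : (AddSubgroup.closure (gens μ W)).map (ZC.conj σ W) ≤ AddSubgroup.closure (gens μ (W.map σ)) := by
    rw [AddMonoidHom.map_closure]
    refine AddSubgroup.closure_mono ?_
    rintro _ ⟨Q, hQ, rfl⟩
    exact gens_conj σ hμ hQ
  exact h ⟨_, hP, rfl⟩

end

end Pool.Agent.H51.ZC
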