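import Pool.Agent.H51.ZC.Final

/-!
# Cycles on a product of curves
-/

set_option autoImplicit false
set_option linter.unusedSectionVars false

open WeierstrassCurve

namespace Pool.Agent.H51.ZC

section
variable {F : Type*} [Field F] {ι : Type*}

/-- Cycles of codimension `k` on the product of the curves `W o`, `o ∈ ι`: the family `z` stands for the sum, over the
subsets `t` of `ι` with `k` elements, of the products of the zero-cycle `z t` on the product of the `W o`, `o ∈ t`,
with the product of the `W o`, `o ∉ t`. -/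
abbrev Cycles (W : ι → WeierstrassCurve F) (k : ℕ) : Type _ :=
  ∀ t : {t : Finset ι // t.card = k}, Cyc fun o : t.1 => W o

/-- The elements some positive multiple of which lies in the subgroup generated by `S`. -/
def satSub {G : Type*} [AddCommGroup G] (S : Set G) : AddSubgroup G where
  carrier := {P | ∃ n : ℕ, 0 < n ∧ n • P ∈ AddSubgroup.closure S}
  zero_mem' := ⟨1, one_pos, by rw [smul_zero]; exact zero_mem _⟩
  add_mem' := by
    rintro a b ⟨n, hn, h⟩ ⟨k, hk, h'⟩
    refine ⟨n * k, Nat.mul_pos hn hk, ?_⟩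
    rw [nsmul_add]
    refine add_mem ?_ ?_
    · rw [mul_comm, mul_nsmul']
      exact AddSubgroup.nsmul_mem _ h k
    · rw [mul_nsmul']
      exact AddSubgroup.nsmul_mem _ h' n
  neg_mem' := by
    rintro a ⟨n, hn, h⟩
    exact ⟨n, hn, by rw [smul_neg]; exact neg_mem h⟩

lemma mem_satSub {G : Type*} [AddCommGroup G] {S : Set G} {P : G} :
    P ∈ satSub S ↔ P ∈ Sat S := Iff.rfl

lemma subset_satSub {G : Type*} [AddCommGroup G] {S : Set G} {P : G} (h : P ∈ S) : P ∈ satSub S :=
  ⟨1, one_pos, by rw [one_smul]; exact AddSubgroup.subset_closure h⟩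

lemma satSub_sat {G : Type*} [AddCommGroup G] {S : Set G} {P : G} {n : ℕ} (hn : 0 < n)
    (h : n • P ∈ satSub S) : P ∈ satSub S := by
  obtain ⟨k, hk, h⟩ := h
  exact ⟨k * n, Nat.mul_pos hk hn, by rwa [mul_nsmul']⟩

/-- Every cycle `z` of codimension `k` on the product of the curves `W o` such that the zero-cycles `z t` have degree
zero and sum zero and are supported on points with coordinates in the groups `Γ o` is torsion modulo rational
equivalence. -/
def TorsionOn [DecidableEq F] [DecidableEq ι] (W : ι → WeierstrassCurve F) (k : ℕ)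
    (Γ : ∀ o, AddSubgroup (W o).toAffine.Point) : Prop :=
  ∀ z : Cycles W k, (∀ t, ∀ R ∈ (z t).support, ∀ o : t.1, R o ∈ Γ o) →
    (∀ t, ((z t).sum fun _ n => n) = 0) → (∀ t, ((z t).sum fun R n => n • R) = 0) →
    ∃ n : ℕ, 0 < n ∧ ∀ t, n • z t ∈ Rat fun o : t.1 => W o

/-- multiples of the points are linked -/
def Rel [DecidableEq F] {W W' : WeierstrassCurve F} (P : W.toAffine.Point) (Q : W'.toAffine.Point) :
    Prop :=
  ∃ m k : ℕ, 0 < m ∧ 0 < k ∧ (Linked (m • P) (k • Q) ∨ Linked (k • Q) (m • P))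

lemma Rel.of_linked [DecidableEq F] {W W' : WeierstrassCurve F} {P : W.toAffine.Point}
    {Q : W'.toAffine.Point} (h : Linked P Q) : Rel P Q :=
  ⟨1, 1, one_pos, one_pos, Or.inl (by rwa [one_smul, one_smul])⟩

lemma Rel.symm [DecidableEq F] {W W' : WeierstrassCurve F} {P : W.toAffine.Point}
    {Q : W'.toAffine.Point} (h : Rel P Q) : Rel Q P := by
  obtain ⟨m, k, hm, hk, h⟩ := h
  exact ⟨k, m, hk, hm, h.symm⟩

variable [DecidableEq F] [Fintype ι] [DecidableEq ι] {W : ι → WeierstrassCurve F}

/-- **Cycles of degree zero with trivial sums are torsion.** -/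
theorem cycles_torsion (S : ∀ o, Set (W o).toAffine.Point)
    (hS : ∀ o o', o ≠ o' → ∀ P ∈ S o, ∀ Q ∈ S o', Rel P Q) {k : ℕ} :
    TorsionOn W k fun o => satSub (S o) := by
  intro z hz hd hs
  have key : ∀ t : {t : Finset ι // t.card = k}, z t ∈ Tors (fun o : t.1 => W o) := by
    intro t
    refine mem_tors (Γ := fun o : t.1 => Sat (S o)) ?_ (z t) (hz t) (hd t) (hs t)
    intro R o o' hoo P hP Q hQ
    refine bil_sat R hoo ?_ hP hQ
    intro P hP Q hQ
    obtain ⟨m, k, hm, hk, h | h⟩ := hS o o' (fun h => hoo (Subtype.ext h)) P hP Q hQ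
    · exact bil_nsmul R hoo hm hk (bil_linked R hoo h)
    · rw [bil_symm]
      exact bil_nsmul R hoo.symm hk hm (bil_linked R hoo.symm h)
  choose n hn hr using key
  refine ⟨∏ t, n t, Finset.prod_pos fun t _ => hn t, fun t => ?_⟩
  rw [← Finset.prod_erase_mul _ _ (Finset.mem_univ t), mul_nsmul']
  exact AddSubgroup.nsmul_mem _ (hr t) _

end

end Pool.Agent.H51.ZC
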