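import Pool.Agent.H51.ZC.Basic

/-!
# Decomposition of the points of the product
-/

set_option autoImplicit false
set_option linter.unusedSectionVars false

open WeierstrassCurve

namespace Pool.Agent.H51.ZC

section
variable {F : Type*} [Field F] [DecidableEq F] {ι : Type*} [DecidableEq ι]
  {W : ι → WeierstrassCurve F}

/-- the additive part in the direction `i` -/
noncomputable def th (i : ι) : (W i).toAffine.Point →+ Cyc W ⧸ Tors W :=
  AddMonoidHom.mk' (fun P => cl (pt (Function.update (0 : Pts W) i P)) - cl (pt (0 : Pts W))) (fun P P' => by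
    have h := cl_add (W := W) (0 : Pts W) i P P'
    have h0 : Function.update (0 : Pts W) i (0 : (W i).toAffine.Point) = (0 : Pts W) :=
      Function.update_eq_self i (0 : Pts W)
    rw [h0] at h
    rw [h]
    abel)

/-- the point with the coordinates outside `s` replaced by `0` -/
noncomputable def cut (R : Pts W) (s : Finset ι) : Pts W := fun i => if i ∈ s then R i else 0

lemma cut_insert (R : Pts W) {s : Finset ι} {k : ι} :
    cut R (insert k s) = Function.update (cut R s) k (R k) := by
  funext i
  by_cases hi : i = k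
  · subst hi
    simp [cut]
  · simp [cut, Function.update_of_ne hi, hi]

lemma update_cut (R : Pts W) {s : Finset ι} {k : ι} (hk : k ∉ s) :
    Function.update (cut R s) k 0 = cut R s := by
  funext i
  by_cases hi : i = k
  · subst hi
    simp [cut, hk]
  · simp [Function.update_of_ne hi]

variable (Γ : ∀ i, Set (W i).toAffine.Point)

/-- the hypothesis: the mixed differences vanish -/
def Van : Prop := ∀ (R : Pts W) (i j : ι) (hij : i ≠ j), ∀ P ∈ Γ i, ∀ Q ∈ Γ j, bil R hij P Q = 0

variable {Γ}

lemma diff_cut (hV : Van Γ) (R : Pts W) (hR : ∀ i, R i ∈ Γ i) (k : ι) (P : (W k).toAffine.Point)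
    (hP : P ∈ Γ k) (s : Finset ι) (hk : k ∉ s) :
    cl (pt (Function.update (cut R s) k P)) - cl (pt (cut R s)) = th k P := by
  induction s using Finset.induction_on with
  | empty =>
    have h0 : cut R ∅ = 0 := by
      funext i
      simp [cut]
    rw [h0]
    rfl
  | insert j s hj ih =>
    have hkj : k ≠ j := fun h => hk (by rw [h]; exact Finset.mem_insert_self _ _)
    have hks : k ∉ s := fun h => hk (Finset.mem_insert_of_mem h)
    have h1 := hV (cut R s) k j hkj P hP (R j) (hR j)
    rw [bil_apply] at h1
    unfold mx up at h1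
    rw [update_cut R hks, update_cut R hj] at h1
    have h2 : Function.update (Function.update (cut R s) k P) j 0 = Function.update (cut R s) k P := by
      rw [Function.update_comm hkj, update_cut R hj]
    rw [h2] at h1
    rw [cut_insert, Function.update_comm hkj.symm, ← ih hks]
    linear_combination (norm := abel) h1

lemma cut_eq (hV : Van Γ) (R : Pts W) (hR : ∀ i, R i ∈ Γ i) (s : Finset ι) :
    cl (pt (cut R s)) = cl (pt 0) + ∑ i ∈ s, th i (R i) := by
  induction s using Finset.induction_on with
  | empty =>
    have h0 : cut R ∅ = 0 := by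
      funext i
      simp [cut]
    rw [h0, Finset.sum_empty, add_zero]
  | insert j s hj ih =>
    rw [Finset.sum_insert hj, cut_insert, ← diff_cut hV R hR j (R j) (hR j) s hj, ih]
    abel

/-- **Decomposition of a point.** -/
theorem pt_decomp [Fintype ι] (hV : Van Γ) (R : Pts W) (hR : ∀ i, R i ∈ Γ i) :
    cl (pt R) = cl (pt 0) + ∑ i, th i (R i) := by
  have h := cut_eq hV R hR Finset.univ
  have h0 : cut R Finset.univ = R := by
    funext i
    simp [cut]
  rwa [h0] at h

/-- **Zero-cycles of degree zero with trivial sum.** -/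
theorem mem_tors [Fintype ι] (hV : Van Γ) (z : Cyc W) (hz : ∀ R ∈ z.support, ∀ i, R i ∈ Γ i)
    (hdeg : (z.sum fun _ n => n) = 0) (hsum : (z.sum fun R n => n • R) = 0) : z ∈ Tors W := by
  rw [← cl_zero]
  have h1 : cl z = z.sum fun R n => n • cl (pt R) := by
    conv_lhs => rw [← Finsupp.sum_single z]
    rw [Finsupp.sum, map_sum]
    refine Finset.sum_congr rfl fun R _ => ?_
    have h : (Finsupp.single R (z R) : Cyc W) = z R • pt R := by
      unfold pt
      rw [Finsupp.smul_single, smul_eq_mul, mul_one]
    rw [h, map_zsmul]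
  rw [h1, Finsupp.sum]
  have h2 : ∀ R ∈ z.support, z R • cl (pt R) = z R • cl (pt (0 : Pts W)) +
      ∑ i, th i ((z R • R) i) := by
    intro R hR
    rw [pt_decomp hV R (hz R hR), zsmul_add, ← Finset.sum_zsmul]
    congr 1
    refine Finset.sum_congr rfl fun i _ => ?_
    rw [Pi.smul_apply, map_zsmul]
  have h5 : ∑ R ∈ z.support, z R • cl (pt (0 : Pts W)) = 0 := by
    have h3 : (∑ R ∈ z.support, z R) = 0 := hdeg
    have h6 := map_sum (zmultiplesHom _ (cl (pt (0 : Pts W)))) (fun R => z R) z.support
    rw [h3, map_zero] at h6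
    exact h6.symm
  rw [Finset.sum_congr rfl h2, Finset.sum_add_distrib, h5, zero_add, Finset.sum_comm]
  refine Finset.sum_eq_zero fun i _ => ?_
  rw [← map_sum]
  have h4 : ∑ R ∈ z.support, (z R • R) i = 0 := by
    have := congrFun hsum i
    rw [Finsupp.sum, Finset.sum_apply] at this
    exact this
  rw [h4, map_zero]

end

end Pool.Agent.H51.ZC
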