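import Pool.Agent.H51.ZC.Loc

/-!
# Multiples and sums of points close to infinity
-/

set_option autoImplicit false
set_option linter.unusedSectionVars false

open WeierstrassCurve

namespace Pool.Agent.H51.ZC

section
variable {K : Type*} [Field K] {v : AbsoluteValue K ℝ} [DecidableEq K] {W : WeierstrassCurve K}

/-- the size of the second coordinate -/
lemma Big.y_sq (hna : IsNonarchimedean v) (h1 : W.a₁ = 0) (h3 : W.a₃ = 0) {x y : K}
    (h : W.toAffine.Nonsingular x y) (hb : Big v W x) : v y ^ 2 = v x ^ 3 := by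
  obtain ⟨b1, b2, b3⟩ := hb
  have hx0 : 0 < v x := (v.nonneg _).trans_lt b1
  have he := (eqn_iff h1 h3).1 h.1
  have t1 : v (W.a₂ * x ^ 2) < v x ^ 3 := by
    rw [map_mul, map_pow]
    calc v W.a₂ * v x ^ 2 < v x * v x ^ 2 := by gcongr
      _ = v x ^ 3 := by ring
  have t2 : v (W.a₄ * x) < v x ^ 3 := by
    rw [map_mul]
    calc v W.a₄ * v x < v x ^ 2 * v x := by gcongr
      _ = v x ^ 3 := by ring
  rw [← map_pow, he, add_assoc, add_assoc, ← map_pow]
  refine na_lt hna ?_
  rw [map_pow]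
  exact na_sum' hna t1 (na_sum' hna t2 b3)

lemma Big.pos {x : K} (hb : Big v W x) : 0 < v x := (v.nonneg _).trans_lt hb.1

lemma Big.mono {x x' : K} (hb : Big v W x) (h : v x ≤ v x') : Big v W x' := by
  obtain ⟨b1, b2, b3⟩ := hb
  have hx0 : 0 < v x := (v.nonneg _).trans_lt b1
  exact ⟨b1.trans_le h, b2.trans_le (by gcongr), b3.trans_le (by gcongr)⟩

/-- the first coordinate of a sum -/
lemma add_x (h1 : W.a₁ = 0) (h3 : W.a₃ = 0) {x y x' y' : K}
    (h : W.toAffine.Nonsingular x y) (h' : W.toAffine.Nonsingular x' y') (hx : x ≠ x') :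
    ∃ x'' y'' h'', (Affine.Point.some x y h + Affine.Point.some x' y' h' : W.toAffine.Point) =
      Affine.Point.some x'' y'' h'' ∧ x'' * (x - x') ^ 2 = x * x' * (x + x') + (2 * (W.a₂ * (x * x')) +
        W.a₄ * (x + x') + 2 * W.a₆ - 2 * (y * y')) := by
  rw [Affine.Point.add_some (by tauto)]
  refine ⟨_, _, _, rfl, ?_⟩
  have he := (eqn_iff h1 h3).1 h.1
  have he' := (eqn_iff h1 h3).1 h'.1
  rw [Affine.slope_of_X_ne hx, Affine.addX, h1]
  have hd : x - x' ≠ 0 := sub_ne_zero.2 hx
  field_simp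
  linear_combination he + he'

/-- **The sum of two points of different sizes.** -/
theorem add_unequal (hna : IsNonarchimedean v) (h1 : W.a₁ = 0) (h3 : W.a₃ = 0) {x y x' y' : K}
    (h : W.toAffine.Nonsingular x y) (h' : W.toAffine.Nonsingular x' y') (hb' : Big v W x')
    (hlt : v x' < v x) :
    ∃ x'' y'' h'', (Affine.Point.some x y h + Affine.Point.some x' y' h' : W.toAffine.Point) =
      Affine.Point.some x'' y'' h'' ∧ v x'' = v x' := by
  have hb : Big v W x := hb'.mono hlt.le
  have hx : x ≠ x' := by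
    rintro rfl
    exact lt_irrefl _ hlt
  obtain ⟨x'', y'', h'', e1, e2⟩ := add_x h1 h3 h h' hx
  refine ⟨x'', y'', h'', e1, ?_⟩
  have p : 0 < v x := hb.pos
  have p' : 0 < v x' := hb'.pos
  have hs : v (x + x') = v x := na_lt hna hlt
  have hd : v (x - x') = v x := by
    rw [sub_eq_add_neg]
    refine na_lt hna ?_
    rwa [v.map_neg]
  have hm : v (x * x' * (x + x')) = v x ^ 2 * v x' := by
    rw [map_mul, map_mul, hs]
    ring
  have t1 : v (W.a₂ * (x * x')) < v x ^ 2 * v x' := by
    rw [map_mul, map_mul]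
    calc v W.a₂ * (v x * v x') < v x * (v x * v x') := by
          gcongr
          exact hb.1
      _ = v x ^ 2 * v x' := by ring
  have t2 : v (W.a₄ * (x + x')) < v x ^ 2 * v x' := by
    rw [map_mul, hs]
    calc v W.a₄ * v x < v x' ^ 2 * v x := by
          gcongr
          exact hb'.2.1
      _ = v x * v x' * v x' := by ring
      _ < v x * v x' * v x := by gcongr
      _ = v x ^ 2 * v x' := by ring
  have t3 : v W.a₆ < v x ^ 2 * v x' := by
    calc v W.a₆ < v x' ^ 3 := hb'.2.2
      _ = v x' ^ 2 * v x' := by ring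
      _ < v x ^ 2 * v x' := by gcongr
  have t4 : v (y * y') < v x ^ 2 * v x' := by
    have q : v (y * y') ^ 2 < (v x ^ 2 * v x') ^ 2 := by
      rw [map_mul, mul_pow, hb.y_sq hna h1 h3 h, hb'.y_sq hna h1 h3 h']
      calc v x ^ 3 * v x' ^ 3 = v x ^ 3 * v x' ^ 2 * v x' := by ring
        _ < v x ^ 3 * v x' ^ 2 * v x := by gcongr
        _ = (v x ^ 2 * v x') ^ 2 := by ring
    exact lt_of_pow_lt_pow_left₀ 2 (by positivity) q
  have n1 := mul_nat_lt hna 2 t1
  have n3 := mul_nat_lt hna 2 t3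
  have n4 := mul_nat_lt hna 2 t4
  push_cast at n1 n3 n4
  have hN := congrArg v e2
  rw [na_lt hna (by rw [hm]; exact na_sub' hna (na_sum' hna (na_sum' hna n1 t2) n3) n4), hm, map_mul,
    map_pow, hd] at hN
  apply mul_right_cancel₀ (pow_pos p 2).ne'
  rw [hN]
  ring

/-- **The sum of two points of the same size.** -/
theorem add_close (hna : IsNonarchimedean v) (h1 : W.a₁ = 0) (h3 : W.a₃ = 0) {x y x' y' : K}
    (h : W.toAffine.Nonsingular x y) (h' : W.toAffine.Nonsingular x' y') (hb : Big v W x)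
    (heq : v x' = v x) (hd : v 2 * v x < v (x - x')) :
    ∃ x'' y'' h'', (Affine.Point.some x y h + Affine.Point.some x' y' h' : W.toAffine.Point) =
      Affine.Point.some x'' y'' h'' ∧ v x'' * v (x - x') = v x ^ 2 := by
  have hb' : Big v W x' := hb.mono heq.ge
  have hx : x ≠ x' := by
    rintro rfl
    rw [sub_self, map_zero] at hd
    exact absurd hd (not_lt.2 (by positivity))
  obtain ⟨x'', y'', h'', e1, e2⟩ := add_x h1 h3 h h' hx
  refine ⟨x'', y'', h'', e1, ?_⟩
  have p : 0 < v x := hb.pos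
  have pd : 0 < v (x - x') := v.pos (sub_ne_zero.2 hx)
  have hs : v (x + x') = v (x - x') := by
    have e : x + x' = (x - x') + 2 * x' := by ring
    rw [e]
    refine na_lt hna ?_
    rw [map_mul, heq]
    exact hd
  have hdx : v (x - x') ≤ v x := na_sub hna le_rfl heq.le
  have hm : v (x * x' * (x + x')) = v x ^ 2 * v (x - x') := by
    rw [map_mul, map_mul, hs, heq]
    ring
  have key : ∀ z : K, v z ≤ v x ^ 3 → v (2 * z) < v x ^ 2 * v (x - x') := by
    intro z hz
    rw [map_mul]
    calc v 2 * v z ≤ v 2 * v x ^ 3 := by gcongr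
      _ = v x ^ 2 * (v 2 * v x) := by ring
      _ < v x ^ 2 * v (x - x') := by gcongr
  have t1 : v (2 * (W.a₂ * (x * x'))) < v x ^ 2 * v (x - x') := by
    refine key _ ?_
    rw [map_mul, map_mul, heq]
    calc v W.a₂ * (v x * v x) ≤ v x * (v x * v x) := by
          gcongr
          exact hb.1.le
      _ = v x ^ 3 := by ring
  have t2 : v (W.a₄ * (x + x')) < v x ^ 2 * v (x - x') := by
    rw [map_mul, hs]
    gcongr
    exact hb.2.1
  have t3 : v (2 * W.a₆) < v x ^ 2 * v (x - x') := key _ hb.2.2.le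
  have t4 : v (2 * (y * y')) < v x ^ 2 * v (x - x') := by
    refine key _ ?_
    have q : v (y * y') ^ 2 = (v x ^ 3) ^ 2 := by
      rw [map_mul, mul_pow, hb.y_sq hna h1 h3 h, hb'.y_sq hna h1 h3 h', heq]
      ring
    exact ((sq_eq_sq₀ (v.nonneg _) (by positivity)).1 q).le
  have hN := congrArg v e2
  rw [na_lt hna (by rw [hm]; exact na_sub' hna (na_sum' hna (na_sum' hna t1 t2) t3) t4), hm, map_mul,
    map_pow] at hN
  apply mul_right_cancel₀ pd.ne'
  rw [← hN]
  ring

/-- **The size of the multiples of a point close to infinity.** -/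
theorem multiples (hna : IsNonarchimedean v) (h2 : v 2 < 1) (h20 : (2 : K) ≠ 0)
    (h1 : W.a₁ = 0) (h3 : W.a₃ = 0) {x y : K} (h : W.toAffine.Nonsingular x y) (hb : Big v W x) (n : ℕ) :
    0 < n → ∃ x' y' h', ∃ s : ℕ, n • (Affine.Point.some x y h : W.toAffine.Point) =
      Affine.Point.some x' y' h' ∧ Big v W x' ∧ v x' * (v 2 ^ 2) ^ s = v x ∧ (Even n → 1 ≤ s) ∧
        (Odd n → s = 0) := by
  induction n using Nat.strong_induction_on with
  | _ n ih =>
    intro hn
    rcases Nat.even_or_odd n with he | ho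
    · obtain ⟨j, rfl⟩ := even_iff_exists_two_mul.1 he
      obtain ⟨x', y', h', s, e1, e2, e3, -, -⟩ := ih j (by omega) (by omega)
      obtain ⟨x'', y'', h'', f1, f2, f3⟩ := double hna h2 h20 h1 h3 h' e2
      refine ⟨x'', y'', h'', s + 1, ?_, f3, ?_, fun _ => by omega, fun ho => ?_⟩
      · rw [mul_comm, mul_nsmul, e1, f1]
      · rw [← e3, ← f2]
        ring
      · exact absurd he (Nat.not_even_iff_odd.2 ho)
    · obtain ⟨j, rfl⟩ := ho
      rcases Nat.eq_zero_or_pos j with rfl | hj
      · refine ⟨x, y, h, 0, by simp, hb, by simp, fun he => ?_, fun _ => rfl⟩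
        exact absurd he (by decide)
      · obtain ⟨x', y', h', s, e1, e2, e3, e4, -⟩ := ih (2 * j) (by omega) (by omega)
        have hs : 1 ≤ s := e4 (even_two_mul j)
        obtain ⟨h8, h9⟩ := v_two h2 h20
        have hlt : v x < v x' := by
          rw [← e3]
          have hp := e2.pos
          have hpow : (v 2 ^ 2) ^ s < 1 := pow_lt_one₀ (by positivity) h9 (by omega)
          calc v x' * (v 2 ^ 2) ^ s < v x' * 1 := by gcongr
            _ = v x' := mul_one _
        obtain ⟨x'', y'', h'', f1, f2⟩ := add_unequal hna h1 h3 h' h hb hlt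
        refine ⟨x'', y'', h'', 0, ?_, hb.mono f2.ge, ?_, fun he => ?_, fun _ => rfl⟩
        · rw [add_nsmul, one_smul, e1, f1]
        · rw [pow_zero, mul_one, f2]
        · exact absurd he (Nat.not_even_iff_odd.2 ⟨j, rfl⟩)

end

end Pool.Agent.H51.ZC
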