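import Pool.Agent.H51.ZC.Agm
import Pool.Agent.H51.ZC.Mul

/-!
# The coordinates in the tower of isogenies
-/

set_option autoImplicit false
set_option linter.unusedSectionVars false

open Polynomial WeierstrassCurve

namespace Pool.Agent.H51.ZC

section
variable {F : Type*} [Field F]

/-- the sequence without its first term -/
def sh (r : ℕ → F) : ℕ → F := fun j => r (j + 1)

/-- the coordinate on the bottom curve, for the coordinate `x` on the `k`-th curve of the tower -/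
def desc : ℕ → (ℕ → F) → F → F
  | 0, _, x => x
  | k + 1, r, x => r 0 * (desc k (sh r) x * (desc k (sh r) x - 1)) / (desc k (sh r) x - r 1 ^ 2)

/-- no denominator vanishes -/
def GoodD : ℕ → (ℕ → F) → F → Prop
  | 0, _, _ => True
  | k + 1, r, x => desc k (sh r) x ≠ r 1 ^ 2 ∧ GoodD k (sh r) x

/-- **Maps from the Legendre curves of the tower, with their first coordinates.** -/
theorem exists_leg' [IsAlgClosed F] (h2 : (2 : F) ≠ 0) (k : ℕ) :
    ∀ (r : ℕ → F), IsAgm r → (∀ j, r j ≠ 0) → (∀ j, r j ^ 2 ≠ 1) → ∀ {W : WeierstrassCurve F}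
      {e₁ e₂ e₃ : F}, Roots W e₁ e₂ e₃ → e₂ ≠ e₁ → e₃ - e₁ = r 0 ^ 2 * (e₂ - e₁) →
        ∃ L : Leg (r k ^ 2) W e₁, ∀ x, GoodD k r x → L.d.eval x ≠ 0 ∧
          L.n.eval x / L.d.eval x = e₁ + (e₂ - e₁) * desc k r x := by
  induction k with
  | zero =>
    intro r _ _ _ W e₁ e₂ e₃ h h12 hl
    obtain ⟨a, ha⟩ := IsAlgClosed.exists_pow_nat_eq (e₂ - e₁) (n := 2) two_pos
    have ha0 : a ≠ 0 := by
      rintro rfl
      apply h12
      linear_combination -ha
    refine ⟨Leg.start h ha ha0 hl, fun x _ => ?_⟩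
    simp [Leg.start, desc, ha]
  | succ k ih =>
    intro r hr hr0 hr1 W e₁ e₂ e₃ h h12 hl
    obtain ⟨a, ha⟩ := IsAlgClosed.exists_pow_nat_eq (e₂ - e₁) (n := 2) two_pos
    have ha0 : a ≠ 0 := by
      rintro rfl
      apply h12
      linear_combination -ha
    have h1r : 1 + r 0 ≠ 0 := by
      intro h0
      apply hr1 0
      linear_combination (r 0 - 1) * h0
    have h4 : (4 : F) ≠ 0 := by
      have : (4 : F) = 2 ^ 2 := by norm_num
      rw [this]
      exact pow_ne_zero 2 h2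
    obtain ⟨L, hL⟩ := ih (sh r) (fun j => hr (j + 1)) (fun j => hr0 (j + 1))
      (fun j => hr1 (j + 1)) (up2_roots a (r 0 * a))
      (by
        intro h0
        have h5 : 4 * r 0 * a ^ 2 = 0 := by linear_combination h0
        exact mul_ne_zero (mul_ne_zero h4 (hr0 0)) (pow_ne_zero 2 ha0) h5)
      (by
        have h6 := hr 0
        simp only [zero_add, sh] at h6 ⊢
        linear_combination -a ^ 2 * h6)
    have he : -(a + r 0 * a) ^ 2 ≠ 0 := by
      refine neg_ne_zero.2 (pow_ne_zero 2 ?_)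
      have : a + r 0 * a = a * (1 + r 0) := by ring
      rw [this]
      exact mul_ne_zero ha0 h1r
    have hpq : (r 0 * a) ^ 2 = e₃ - e₁ := by
      rw [hl, ← ha]
      ring
    refine ⟨Leg.push h ha hpq L he (by ring) h2, fun x hx => ?_⟩
    obtain ⟨hd, hq⟩ := hL x hx.2
    obtain ⟨y, hy⟩ : ∃ y : F, y = desc k (sh r) x := ⟨_, rfl⟩
    have hyr : y - r 1 ^ 2 ≠ 0 := sub_ne_zero.2 (by rw [hy]; exact hx.1)
    have h6 := hr 0
    simp only [zero_add] at h6
    rw [← hy] at hq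
    have hq2 : L.n.eval x / L.d.eval x = 4 * r 0 * a ^ 2 * (y - r 1 ^ 2) := by
      rw [hq]
      linear_combination a ^ 2 * h6
    have hn : L.n.eval x = 4 * r 0 * a ^ 2 * (y - r 1 ^ 2) * L.d.eval x := by
      rw [← hq2, div_mul_cancel₀ _ hd]
    have hc : 4 * r 0 * a ^ 2 ≠ 0 := mul_ne_zero (mul_ne_zero h4 (hr0 0)) (pow_ne_zero 2 ha0)
    have hn0 : L.n.eval x ≠ 0 := by
      rw [hn]
      exact mul_ne_zero (mul_ne_zero hc hyr) hd
    have h8 : (8 : F) ≠ 0 := by
      have : (8 : F) = 2 ^ 3 := by norm_num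
      rw [this]
      exact pow_ne_zero 3 h2
    constructor
    · change (C 8 * L.n ^ 2 * L.d).eval x ≠ 0
      simp only [eval_mul, eval_C, eval_pow]
      exact mul_ne_zero (mul_ne_zero h8 (pow_ne_zero 2 hn0)) hd
    · change (2 * L.n * (L.n ^ 2 + C (2 * (a ^ 2 + (r 0 * a) ^ 2)) * L.n * L.d +
        C ((a ^ 2 - (r 0 * a) ^ 2) ^ 2) * L.d ^ 2) + C (8 * e₁) * L.n ^ 2 * L.d).eval x /
        (C 8 * L.n ^ 2 * L.d).eval x = e₁ + (e₂ - e₁) * desc (k + 1) r x
      rw [desc, ← hy, ← ha]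
      simp only [eval_mul, eval_C, eval_pow, eval_add, eval_ofNat]
      obtain ⟨D, hD⟩ : ∃ D : F, D = L.d.eval x := ⟨_, rfl⟩
      rw [hn, ← hD]
      rw [← hD] at hd
      obtain ⟨z, hz⟩ : ∃ z : F, z = y - r 1 ^ 2 := ⟨_, rfl⟩
      rw [← hz]
      rw [← hz] at hyr
      have hy2 : 4 * r 0 * y = 4 * r 0 * z + (1 + r 0) ^ 2 := by
        rw [hz]
        linear_combination h6
      have hr00 := hr0 0
      field_simp
      linear_combination (-2 * (a ^ 2) * (4 * r 0 * y - 4 * r 0 + 4 * r 0 * z + (1 + r 0) ^ 2)) * hy2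

end

end Pool.Agent.H51.ZC
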