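import Pool.Agent.H51.ZC.Mu

/-!
# Roots of two in number fields
-/

set_option autoImplicit false
set_option linter.unusedSectionVars false

open Finset

namespace Pool.Agent.H51.ZC

section
variable {F : Type*} [Field F] [CharZero F] {v : AbsoluteValue F ℝ}

lemma na_strict (hna : IsNonarchimedean v) {ι : Type*} (s : Finset ι) (f : ι → F) {M : ℝ} (hM : 0 < M)
    (h : ∀ i ∈ s, v (f i) < M) : v (∑ i ∈ s, f i) < M := by
  classical
  induction s using Finset.induction_on with
  | empty => rw [sum_empty, map_zero]; exact hM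
  | insert a s ha ih =>
    rw [sum_insert ha]
    exact na_sum' hna (h a (mem_insert_self _ _)) (ih fun i hi => h i (mem_insert_of_mem hi))

lemma v_odd (hna : IsNonarchimedean v) (h2 : v 2 < 1) {n : ℕ} (hn : Odd n) : v (n : F) = 1 := by
  obtain ⟨j, rfl⟩ := hn
  have h1 : v ((2 : F) * j) < 1 := by
    rw [map_mul]
    calc v 2 * v (j : F) ≤ v 2 * 1 := by
          gcongr
          exact na_nat hna j
      _ < 1 := by rwa [mul_one]
  have h3 : ((2 * j + 1 : ℕ) : F) = 1 + 2 * j := by push_cast; ring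
  rw [h3, na_lt hna (by rw [map_one]; exact h1), map_one]

lemma v_nat (hna : IsNonarchimedean v) (h2 : v 2 < 1) {n : ℕ} (hn : n ≠ 0) :
    ∃ a : ℤ, v (n : F) = v 2 ^ a := by
  obtain ⟨k, m, hm, rfl⟩ := Nat.exists_eq_two_pow_mul_odd hn
  refine ⟨k, ?_⟩
  push_cast
  rw [map_mul, v_odd hna h2 hm, mul_one, map_pow, zpow_natCast]

lemma v_rat (hna : IsNonarchimedean v) (h2 : v 2 < 1) {q : ℚ} (hq : q ≠ 0) :
    ∃ a : ℤ, v (q : F) = v 2 ^ a := by
  have h20 : v (2 : F) ≠ 0 := (v.pos two_ne_zero).ne'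
  obtain ⟨a, ha⟩ := v_nat hna h2 (n := q.num.natAbs) (Int.natAbs_ne_zero.2 (Rat.num_ne_zero.2 hq))
  obtain ⟨b, hb⟩ := v_nat hna h2 (n := q.den) q.den_nz
  refine ⟨a - b, ?_⟩
  have h1 : v (q.num : F) = v (q.num.natAbs : F) := by
    obtain ⟨n, hn⟩ : ∃ n : ℕ, n = q.num.natAbs := ⟨_, rfl⟩
    rcases Int.natAbs_eq q.num with h | h
    · rw [← hn] at h ⊢
      rw [h, Int.cast_natCast]
    · rw [← hn] at h ⊢
      rw [h, Int.cast_neg, Int.cast_natCast, v.map_neg]
  rw [Rat.cast_def, map_div₀, h1, ha, hb, zpow_sub₀ h20]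

/-- **A root of two of large degree does not lie in a small field, up to units.** -/
theorem root_le [FiniteDimensional ℚ F] (hna : IsNonarchimedean v) (h2 : v 2 < 1) {z : F} {N : ℕ}
    (hN : 0 < N) (h : v z ^ N = v 2) : N ≤ Module.finrank ℚ F := by
  have h20 : 0 < v (2 : F) := v.pos two_ne_zero
  have hz0 : z ≠ 0 := by
    rintro rfl
    rw [map_zero, zero_pow hN.ne'] at h
    exact h20.ne h
  have hli : LinearIndependent ℚ fun i : Fin N => z ^ (i : ℕ) := by
    rw [Fintype.linearIndependent_iff]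
    intro g hg
    by_contra hcon
    push Not at hcon
    obtain ⟨j, hj⟩ := hcon
    have hg' : ∑ i : Fin N, (g i : F) * z ^ (i : ℕ) = 0 := by
      rw [← hg]
      refine sum_congr rfl fun i _ => ?_
      rw [Algebra.smul_def, eq_ratCast]
    let s : Finset (Fin N) := univ.filter fun i => g i ≠ 0
    have hs : s.Nonempty := ⟨j, by simp [s, hj]⟩
    obtain ⟨i₀, hi₀, hmax⟩ := s.exists_max_image (fun i => v ((g i : F) * z ^ (i : ℕ))) hs
    have hg0 : g i₀ ≠ 0 := (mem_filter.1 hi₀).2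
    have hdist : ∀ i ∈ s, i ≠ i₀ → v ((g i : F) * z ^ (i : ℕ)) < v ((g i₀ : F) * z ^ (i₀ : ℕ)) := by
      intro i hi hne
      refine lt_of_le_of_ne (hmax i hi) fun heq => hne ?_
      have hgi : g i ≠ 0 := (mem_filter.1 hi).2
      obtain ⟨a, ha⟩ := v_rat hna h2 hgi
      obtain ⟨b, hb⟩ := v_rat hna h2 hg0
      have h4 := congrArg (fun t : ℝ => t ^ N) heq
      simp only [map_mul, map_pow, mul_pow, ha, hb] at h4
      have h5 : ∀ k : ℕ, (v z ^ k) ^ N = v 2 ^ (k : ℤ) := fun k => by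
        rw [← pow_mul, mul_comm, pow_mul, h, zpow_natCast]
      rw [h5, h5] at h4
      have h6 : ∀ c : ℤ, (v (2 : F) ^ c) ^ N = v 2 ^ (c * N) := fun c => by
        rw [← zpow_natCast, ← zpow_mul]
      rw [h6, h6, ← zpow_add₀ h20.ne', ← zpow_add₀ h20.ne'] at h4
      have h7 : a * N + (i : ℕ) = b * N + (i₀ : ℕ) :=
        zpow_right_injective₀ h20 h2.ne h4
      have h8 : ((i : ℕ) : ℤ) % N = ((i₀ : ℕ) : ℤ) % N := by
        have := congrArg (fun t : ℤ => t % N) h7
        simpa [Int.add_emod] using this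
      rw [Int.emod_eq_of_lt (by positivity) (by exact_mod_cast i.2),
        Int.emod_eq_of_lt (by positivity) (by exact_mod_cast i₀.2)] at h8
      exact Fin.ext (by exact_mod_cast h8)
    have hpos : 0 < v ((g i₀ : F) * z ^ (i₀ : ℕ)) :=
      v.pos (mul_ne_zero (by exact_mod_cast hg0) (pow_ne_zero _ hz0))
    have hsum : (g i₀ : F) * z ^ (i₀ : ℕ) = -∑ i ∈ univ.erase i₀, (g i : F) * z ^ (i : ℕ) := by
      rw [← Finset.add_sum_erase _ _ (mem_univ i₀)] at hg'
      linear_combination hg'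
    have hlt : v (∑ i ∈ univ.erase i₀, (g i : F) * z ^ (i : ℕ)) < v ((g i₀ : F) * z ^ (i₀ : ℕ)) := by
      refine na_strict hna _ _ hpos fun i hi => ?_
      by_cases hgi : g i = 0
      · rw [hgi]
        simpa using hpos
      · exact hdist i (mem_filter.2 ⟨mem_univ _, hgi⟩) (ne_of_mem_erase hi)
    rw [← v.map_neg, ← hsum] at hlt
    exact lt_irrefl _ hlt
  have := hli.fintype_card_le_finrank
  rwa [Fintype.card_fin] at this

end

end Pool.Agent.H51.ZC
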