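import Pool.Agent.H51.ZC.Basic

/-!
# The genus two curves through given points
-/

set_option autoImplicit false
set_option linter.unusedSectionVars false

open Polynomial WeierstrassCurve

namespace Pool.Agent.H51.ZC

section
variable {F : Type*} [Field F]

/-- coefficients of the second curve -/
def dd (u w x₀ : F) : F := x₀ ^ 3 + u * x₀ ^ 2 + w * x₀
def al (u w x₀ c : F) : F := c * (3 * x₀ ^ 2 + 2 * u * x₀ + w)
def be (u w x₀ c : F) : F := c ^ 2 * (3 * x₀ + u) * dd u w x₀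
def ga (u w x₀ c : F) : F := c ^ 3 * dd u w x₀ ^ 2

/-- `W` is the curve `y² = x³ + u x² + w x` -/
structure IsA (u w : F) (W : WeierstrassCurve F) : Prop where
  a₁ : W.a₁ = 0
  a₂ : W.a₂ = u
  a₃ : W.a₃ = 0
  a₄ : W.a₄ = w
  a₆ : W.a₆ = 0

/-- `W` is the curve with parameter `x₀` -/
structure IsB (u w x₀ c : F) (W : WeierstrassCurve F) : Prop where
  a₁ : W.a₁ = 0
  a₂ : W.a₂ = al u w x₀ c
  a₃ : W.a₃ = 0
  a₄ : W.a₄ = be u w x₀ c
  a₆ : W.a₆ = ga u w x₀ c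

variable {W W' : WeierstrassCurve F}

/-- the first family -/
noncomputable def fam₁ {u w x₀ c : F} (hW : IsA u w W) (hW' : IsB u w x₀ c W') : Family W W' where
  h := (C x₀ + C c * X ^ 2) ^ 3 + C u * (C x₀ + C c * X ^ 2) ^ 2 + C w * (C x₀ + C c * X ^ 2)
  d := X ^ 3
  n₁ := X ^ 3 * (C x₀ + C c * X ^ 2)
  m₁ := X ^ 3
  n₂ := C (dd u w x₀) * X
  m₂ := C (dd u w x₀)
  short₁ := ⟨hW.a₁, hW.a₃⟩
  short₂ := ⟨hW'.a₁, hW'.a₃⟩
  eq₁ := by rw [hW.a₂, hW.a₄, hW.a₆, C_0]; ring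
  eq₂ := by
    rw [hW'.a₂, hW'.a₄, hW'.a₆]
    simp only [al, be, ga, dd, map_add, map_mul, map_pow, map_ofNat]
    ring

/-- the second family -/
noncomputable def fam₂ {u w x₀ c : F} (hW : IsA u w W) (hW' : IsB u w x₀ c W') : Family W W' where
  h := (C x₀ + C c * X ^ 2) ^ 3 + C u * (C x₀ + C c * X ^ 2) ^ 2 + C w * (C x₀ + C c * X ^ 2)
  d := (C x₀ + C c * X ^ 2) ^ 2
  n₁ := C w * (C x₀ + C c * X ^ 2)
  m₁ := C w
  n₂ := -C (c * x₀) * (C x₀ + C c * X ^ 2) * (C w + C (x₀ + u) * (C x₀ + C c * X ^ 2))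
  m₂ := C (c ^ 2 * x₀ * w) * X
  short₁ := ⟨hW.a₁, hW.a₃⟩
  short₂ := ⟨hW'.a₁, hW'.a₃⟩
  eq₁ := by rw [hW.a₂, hW.a₄, hW.a₆, C_0]; ring
  eq₂ := by
    rw [hW'.a₂, hW'.a₄, hW'.a₆]
    simp only [al, be, ga, dd, map_add, map_mul, map_pow, map_ofNat]
    ring

/-- the third family -/
noncomputable def fam₃ {u w x₀ c x₁ c₁ : F} (hW : IsB u w x₀ c W) (hW' : IsB u w x₁ c₁ W') :
    Family W W' where
  h := C (c * c₁ * (x₁ - x₀)) *
    ((X ^ 2 * C (c₁ * x₁) - C (c * x₀)) ^ 3 +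
      C u * (X ^ 2 * C (c₁ * x₁) - C (c * x₀)) ^ 2 * (X ^ 2 * C c₁ - C c) +
      C w * (X ^ 2 * C (c₁ * x₁) - C (c * x₀)) * (X ^ 2 * C c₁ - C c) ^ 2)
  d := C (c ^ 2 * c₁ ^ 2 * (x₁ - x₀) ^ 2) * X ^ 3
  n₁ := C (c ^ 3 * dd u w x₀ * c₁ * (x₁ - x₀)) * (X ^ 2 * C c₁ - C c) * X
  m₁ := C (c ^ 3 * dd u w x₀)
  n₂ := C (c * c₁ ^ 3 * dd u w x₁ * (x₁ - x₀)) * (X ^ 2 * C c₁ - C c) * X ^ 3
  m₂ := C (c₁ ^ 3 * dd u w x₁) * X ^ 3
  short₁ := ⟨hW.a₁, hW.a₃⟩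
  short₂ := ⟨hW'.a₁, hW'.a₃⟩
  eq₁ := by
    rw [hW.a₂, hW.a₄, hW.a₆]
    simp only [al, be, ga, dd, map_add, map_mul, map_pow, map_ofNat, map_sub]
    ring
  eq₂ := by
    rw [hW'.a₂, hW'.a₄, hW'.a₆]
    simp only [al, be, ga, dd, map_add, map_mul, map_pow, map_ofNat, map_sub]
    ring

variable [DecidableEq F]

/-- a pair of points on a hyperelliptic family with a point of order two -/
def Linked (P : W.toAffine.Point) (Q : W'.toAffine.Point) : Prop :=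
  ∃ (f : Family W W') (s s' : F) (T : W.toAffine.Point) (T' : W'.toAffine.Point),
    f.Over s P Q ∧ f.Over s' T T' ∧ 2 • T = 0

lemma two_smul_some' {x y : F} (h1 : W.a₁ = 0) (h3 : W.a₃ = 0) (h : W.toAffine.Nonsingular x y)
    (hy : y = 0) : 2 • (Affine.Point.some x y h : W.toAffine.Point) = 0 := by
  subst hy
  rw [two_nsmul]
  refine Affine.Point.add_self_of_Y_eq ?_
  simp [Affine.negY, h1, h3]

lemma over_mk (f : Family W W') {s y x₁ y₁ x₂ y₂ : F}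
    (hd : f.d.eval s ≠ 0) (hy : y ^ 2 = f.h.eval s)
    (e1 : f.n₁.eval s = x₁ * f.d.eval s) (e2 : y * f.m₁.eval s = y₁ * f.d.eval s)
    (e3 : f.n₂.eval s = x₂ * f.d.eval s) (e4 : y * f.m₂.eval s = y₂ * f.d.eval s)
    (h₁ : W.toAffine.Nonsingular x₁ y₁) (h₂ : W'.toAffine.Nonsingular x₂ y₂) :
    f.Over s (.some x₁ y₁ h₁) (.some x₂ y₂ h₂) := by
  have f1 : f.n₁.eval s / f.d.eval s = x₁ := by rw [e1, mul_div_cancel_right₀ _ hd]
  have f2 : y * f.m₁.eval s / f.d.eval s = y₁ := by rw [e2, mul_div_cancel_right₀ _ hd]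
  have f3 : f.n₂.eval s / f.d.eval s = x₂ := by rw [e3, mul_div_cancel_right₀ _ hd]
  have f4 : y * f.m₂.eval s / f.d.eval s = y₂ := by rw [e4, mul_div_cancel_right₀ _ hd]
  subst f1 f2 f3 f4
  exact ⟨hd, y, hy, ⟨h₁, rfl⟩, h₂, rfl⟩

/-- equation -/
lemma eqn_iff {x y : F} (h1 : W.a₁ = 0) (h3 : W.a₃ = 0) : W.toAffine.Equation x y ↔
    y ^ 2 = x ^ 3 + W.a₂ * x ^ 2 + W.a₄ * x + W.a₆ := by
  rw [Affine.equation_iff]
  simp [h1, h3]

lemma ns_of {x y : F} (h1 : W.a₁ = 0) (h3 : W.a₃ = 0) (hΔ : W.Δ ≠ 0)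
    (h : y ^ 2 = x ^ 3 + W.a₂ * x ^ 2 + W.a₄ * x + W.a₆) :
    W.toAffine.Nonsingular x y :=
  (Affine.equation_iff_nonsingular_of_Δ_ne_zero hΔ).1 ((eqn_iff h1 h3).2 h)

/-- the base point -/
lemma base (f : Family W W') {s : F} (hd : f.d.eval s ≠ 0) (hy : f.h.eval s = 0)
    (hΔ₁ : W.Δ ≠ 0) (hΔ₂ : W'.Δ ≠ 0) :
    ∃ T T', f.Over s T T' ∧ 2 • T = 0 := by
  have k1 := congrArg (eval s) f.eq₁
  have k2 := congrArg (eval s) f.eq₂
  simp only [eval_add, eval_mul, eval_pow, eval_C, hy, zero_mul] at k1 k2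
  refine ⟨.some (f.n₁.eval s / f.d.eval s) (0 * f.m₁.eval s / f.d.eval s)
      (ns_of f.short₁.1 f.short₁.2 hΔ₁ ?_),
    .some (f.n₂.eval s / f.d.eval s) (0 * f.m₂.eval s / f.d.eval s)
      (ns_of f.short₂.1 f.short₂.2 hΔ₂ ?_),
    ⟨hd, 0, by rw [hy]; ring, ⟨_, rfl⟩, ⟨_, rfl⟩⟩,
      two_smul_some' f.short₁.1 f.short₁.2 _ (by ring)⟩
  · field_simp
    linear_combination k1
  · field_simp
    linear_combination k2

lemma exists_root [IsAlgClosed F] {u w x₀ : F} (h2 : (2 : F) ≠ 0) (hw : w ≠ 0)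
    (hD : dd u w x₀ ≠ 0) : x₀ ≠ 0 ∧ ∃ r : F, r ^ 2 + u * r + w = 0 ∧ r ≠ 0 ∧ r ≠ x₀ ∧
      r ^ 3 + u * r ^ 2 + w * r = 0 := by
  obtain ⟨r, hr⟩ : ∃ r : F, r ^ 2 + u * r + w = 0 := by
    obtain ⟨z, hz⟩ := IsAlgClosed.exists_pow_nat_eq (u ^ 2 - 4 * w) (n := 2) two_pos
    refine ⟨(-u + z) / 2, ?_⟩
    field_simp
    linear_combination hz
  refine ⟨?_, r, hr, ?_, ?_, by linear_combination r * hr⟩
  · rintro rfl
    apply hD
    simp [dd]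
  · rintro rfl
    apply hw
    linear_combination hr
  · rintro rfl
    apply hD
    unfold dd
    linear_combination r * hr

/-- **The first two links.** -/
theorem links [IsAlgClosed F] {u w x₀ c a₁ b₁ a₂ b₂ : F} (hW : IsA u w W)
    (hW' : IsB u w x₀ c W') (h2 : (2 : F) ≠ 0)
    (hw : w ≠ 0) (hc : c ≠ 0) (hD : dd u w x₀ ≠ 0) (hΔ₁ : W.Δ ≠ 0) (hΔ₂ : W'.Δ ≠ 0)
    (hA : W.toAffine.Nonsingular a₁ b₁) (hB : W.toAffine.Nonsingular a₂ b₂)
    (hQ : W'.toAffine.Nonsingular (dd u w x₀) (dd u w x₀ * b₁))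
    (ha : a₁ = x₀ + c) (hq : a₁ ^ 2 + u * a₁ + w = c * (a₁ - a₂)) (ha2 : a₂ ≠ 0) (hb1 : b₁ ≠ 0)
    (hb2 : b₂ ≠ 0) :
    Linked (Affine.Point.some a₁ b₁ hA) (Affine.Point.some _ _ hQ) ∧
    Linked (Affine.Point.some a₂ b₂ hB) (Affine.Point.some _ _ hQ) := by
  obtain ⟨hx0, r, hr, hr0, hrx, hT⟩ := exists_root h2 hw hD
  obtain ⟨s, hs⟩ := IsAlgClosed.exists_pow_nat_eq ((r - x₀) / c) (n := 2) two_pos
  have hs' : x₀ + c * s ^ 2 = r := by
    rw [hs]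
    field_simp
    ring
  have hs0 : s ≠ 0 := by
    rintro rfl
    apply hrx
    rw [← hs']
    ring
  have e1 := (eqn_iff hW.a₁ hW.a₃).1 hA.1
  have e2 := (eqn_iff hW.a₁ hW.a₃).1 hB.1
  rw [hW.a₂, hW.a₄, hW.a₆] at e1 e2
  obtain ⟨T, T', hT1, hT2⟩ := base (fam₁ hW hW') (s := s)
    (by simp only [fam₁, eval_pow, eval_X]; exact pow_ne_zero 3 hs0)
    (by simp only [fam₁, eval_add, eval_mul, eval_pow, eval_C, eval_X, hs']; exact hT) hΔ₁ hΔ₂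
  obtain ⟨T₂, T₂', hT3, hT4⟩ := base (fam₂ hW hW') (s := s)
    (by simp only [fam₂, eval_add, eval_mul, eval_pow, eval_C, eval_X, hs']; exact pow_ne_zero 2 hr0)
    (by simp only [fam₂, eval_add, eval_mul, eval_pow, eval_C, eval_X, hs']; exact hT) hΔ₁ hΔ₂
  constructor
  · refine ⟨_, 1, s, T, T', over_mk (fam₁ hW hW') (y := b₁) ?_ ?_ ?_ ?_ ?_ ?_ hA hQ, hT1, hT2⟩ <;>
      simp only [fam₁, eval_add, eval_mul, eval_pow, eval_C, eval_X, one_pow, mul_one, ← ha]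
    · exact one_ne_zero
    · linear_combination e1
    · ring
    · ring
  · -- the parameter of the second point
    have hq0 : a₁ ^ 2 + u * a₁ + w ≠ 0 := by
      intro h0
      apply hb1
      have : b₁ ^ 2 = 0 := by linear_combination e1 + a₁ * h0
      exact pow_eq_zero_iff two_ne_zero |>.1 this
    have ha1 : a₁ ≠ 0 := by
      rintro rfl
      apply hb1
      have : b₁ ^ 2 = 0 := by linear_combination e1
      exact pow_eq_zero_iff two_ne_zero |>.1 this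
    have hq2 : a₂ ^ 2 + u * a₂ + w ≠ 0 := by
      intro h0
      apply hb2
      have : b₂ ^ 2 = 0 := by linear_combination e2 + a₂ * h0
      exact pow_eq_zero_iff two_ne_zero |>.1 this
    obtain ⟨q1, hq1⟩ : ∃ q1 : F, q1 = a₁ ^ 2 + u * a₁ + w := ⟨_, rfl⟩
    obtain ⟨q2, hq2'⟩ : ∃ q2 : F, q2 = a₂ ^ 2 + u * a₂ + w := ⟨_, rfl⟩
    rw [← hq1] at hq0 hq
    rw [← hq2'] at hq2
    have e1' : b₁ ^ 2 = a₁ * q1 := by rw [hq1]; linear_combination e1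
    have e2' : b₂ ^ 2 = a₂ * q2 := by rw [hq2']; linear_combination e2
    obtain ⟨t, ht⟩ : ∃ t : F, t = q2 * b₁ / (q1 * b₂) := ⟨_, rfl⟩
    have ht' : t * (q1 * b₂) = q2 * b₁ := by rw [ht]; field_simp
    have ht2 : t ^ 2 * (q1 * a₂) = q2 * a₁ := by
      have h3 : t ^ 2 * (q1 ^ 2 * (a₂ * q2)) = q2 ^ 2 * (a₁ * q1) := by
        rw [← e1', ← e2']
        linear_combination (t * (q1 * b₂) + q2 * b₁) * ht'
      have h4 : (t ^ 2 * (q1 * a₂) - q2 * a₁) * (q1 * q2) = 0 := by linear_combination h3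
      rcases mul_eq_zero.1 h4 with h5 | h5
      · linear_combination h5
      · exact absurd h5 (mul_ne_zero hq0 hq2)
    have hx : x₀ = a₁ - c := by linear_combination -ha
    have hg : x₀ + c * t ^ 2 = w / a₂ := by
      rw [eq_div_iff ha2]
      have h5 : ((x₀ + c * t ^ 2) * a₂ - w) * q1 = 0 := by
        rw [hx]
        linear_combination c * ht2 + (a₁ * a₂ - w) * hq - c * a₂ * hq1 + c * a₁ * hq2'
      rcases mul_eq_zero.1 h5 with h6 | h6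
      · linear_combination h6
      · exact absurd h6 hq0
    have hqx : x₀ ^ 2 + u * x₀ + w = -c * (a₂ + x₀ + u) := by
      rw [hx]
      linear_combination hq - hq1
    have hqx2 : c ^ 2 * q2 = (x₀ ^ 2 + u * x₀ + w) * q1 := by
      rw [hqx, hx]
      linear_combination c ^ 2 * hq2' - c ^ 2 * hq1 + (c ^ 2 + c * (a₂ + (a₁ - c) + u)) * hq
    have hqx3 : b₂ * c ^ 2 * t = (x₀ ^ 2 + u * x₀ + w) * b₁ := by
      have h6 : (b₂ * c ^ 2 * t - (x₀ ^ 2 + u * x₀ + w) * b₁) * q1 = 0 := by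
        linear_combination c ^ 2 * ht' + b₁ * hqx2
      rcases mul_eq_zero.1 h6 with h7 | h7
      · linear_combination h7
      · exact absurd h7 hq0
    refine ⟨_, t, s, T₂, T₂', over_mk (fam₂ hW hW') (y := b₂ * w / a₂ ^ 2) ?_ ?_ ?_ ?_ ?_ ?_ hB hQ,
      hT3, hT4⟩ <;>
      simp only [fam₂, eval_add, eval_mul, eval_pow, eval_C, eval_X, eval_neg, hg]
    · exact pow_ne_zero 2 (div_ne_zero hw ha2)
    · field_simp
      linear_combination e2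
    · field_simp
    · field_simp
    · unfold dd
      field_simp
      linear_combination -hqx
    · unfold dd
      field_simp
      linear_combination hqx3

/-- **The third link.** -/
theorem link₃ [IsAlgClosed F] {u w x₀ c x₁ c₁ a b : F} (hW : IsB u w x₀ c W)
    (hW' : IsB u w x₁ c₁ W') (h2 : (2 : F) ≠ 0) (hw : w ≠ 0) (hc : c ≠ 0) (hc₁ : c₁ ≠ 0)
    (hD : dd u w x₀ ≠ 0) (hD₁ : dd u w x₁ ≠ 0) (hΔ₁ : W.Δ ≠ 0) (hΔ₂ : W'.Δ ≠ 0)
    (hb : b ^ 2 = a ^ 3 + u * a ^ 2 + w * a)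
    (hQ : W.toAffine.Nonsingular (dd u w x₀) (dd u w x₀ * b))
    (hQ' : W'.toAffine.Nonsingular (dd u w x₁) (dd u w x₁ * b))
    (ha : a = x₀ + c) (ha₁ : a = x₁ + c₁) (hne : x₀ ≠ x₁) :
    Linked (Affine.Point.some _ _ hQ) (Affine.Point.some _ _ hQ') := by
  obtain ⟨hx0, r, hr, hr0, hrx, hT⟩ := exists_root h2 hw hD
  have hrx₁ : r ≠ x₁ := by
    rintro rfl
    apply hD₁
    unfold dd
    linear_combination hT
  have e0 : r - x₀ ≠ 0 := sub_ne_zero.2 hrx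
  have e1 : r - x₁ ≠ 0 := sub_ne_zero.2 hrx₁
  have e2 : x₁ - x₀ ≠ 0 := sub_ne_zero.2 hne.symm
  obtain ⟨s, hs⟩ := IsAlgClosed.exists_pow_nat_eq (c * (r - x₀) / (c₁ * (r - x₁))) (n := 2) two_pos
  have hs0 : s ≠ 0 := by
    rintro rfl
    have : c * (r - x₀) / (c₁ * (r - x₁)) ≠ 0 := div_ne_zero (mul_ne_zero hc e0) (mul_ne_zero hc₁ e1)
    exact this (by rw [← hs]; ring)
  have hs' : s ^ 2 * (c₁ * (r - x₁)) = c * (r - x₀) := by
    rw [hs]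
    field_simp
  have hm : s ^ 2 * (c₁ * x₁) - c * x₀ = r * (s ^ 2 * c₁ - c) := by linear_combination -hs'
  obtain ⟨T, T', hT1, hT2⟩ := base (fam₃ hW hW') (s := s)
    (by
      simp only [fam₃, eval_mul, eval_C, eval_pow, eval_X]
      exact mul_ne_zero (mul_ne_zero (mul_ne_zero (pow_ne_zero 2 hc) (pow_ne_zero 2 hc₁))
        (pow_ne_zero 2 e2)) (pow_ne_zero 3 hs0))
    (by
      simp only [fam₃, eval_add, eval_sub, eval_mul, eval_pow, eval_C, eval_X]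
      rw [hm]
      linear_combination c * c₁ * (x₁ - x₀) * (s ^ 2 * c₁ - c) ^ 3 * hT) hΔ₁ hΔ₂
  have hx : x₀ = a - c := by linear_combination -ha
  have hx₁ : x₁ = a - c₁ := by linear_combination -ha₁
  have e3 : c - c₁ ≠ 0 := by
    intro h
    apply e2
    rw [hx, hx₁]
    linear_combination h
  refine ⟨_, c / c₁, s, T, T', over_mk (fam₃ hW hW') (y := b * c ^ 2 * (c - c₁) ^ 2 / c₁) ?_ ?_ ?_ ?_ ?_ ?_
    hQ hQ', hT1, hT2⟩ <;>
      simp only [fam₃, eval_add, eval_sub, eval_mul, eval_pow, eval_C, eval_X]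
  · exact mul_ne_zero (mul_ne_zero (mul_ne_zero (pow_ne_zero 2 hc) (pow_ne_zero 2 hc₁))
        (pow_ne_zero 2 e2)) (pow_ne_zero 3 (div_ne_zero hc hc₁))
  · rw [hx, hx₁]
    field_simp
    linear_combination (c - c₁) ^ 4 * hb
  · rw [hx, hx₁]
    field_simp
    ring
  · rw [hx, hx₁]
    field_simp
    ring
  · rw [hx, hx₁]
    field_simp
    ring
  · rw [hx, hx₁]
    field_simp
    ring

end

end Pool.Agent.H51.ZC
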