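import Pool.Agent.H51.ZC.Place

/-!
# Infinitely many curves of the family
-/

set_option autoImplicit false
set_option linter.unusedSectionVars false

open WeierstrassCurve Polynomial

namespace Pool.Agent.H51.ZC

section
variable {K : Type*} [Field K]

/-- the curve with parameter `c` -/
def crvB (u w a c : K) : WeierstrassCurve K :=
  ⟨0, al u w (a - c) c, 0, be u w (a - c) c, ga u w (a - c) c⟩

lemma isB (u w a c : K) : IsB u w (a - c) c (crvB u w a c) := ⟨rfl, rfl, rfl, rfl, rfl⟩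

/-- the invariant `c₄` up to a factor -/
def ii (u w x₀ : K) : K := (u ^ 2 - 3 * w) * x₀ ^ 2 + u * w * x₀ + w ^ 2

lemma delta_B {u w x₀ c : K} {W : WeierstrassCurve K} (h : IsB u w x₀ c W) :
    W.Δ = 16 * c ^ 6 * dd u w x₀ ^ 2 * (w ^ 2 * (u ^ 2 - 4 * w)) := by
  simp only [WeierstrassCurve.Δ, WeierstrassCurve.b₂, WeierstrassCurve.b₄, WeierstrassCurve.b₆,
    WeierstrassCurve.b₈, h.a₁, h.a₂, h.a₃, h.a₄, h.a₆, al, be, ga, dd]
  ring

lemma c4_B {u w x₀ c : K} {W : WeierstrassCurve K} (h : IsB u w x₀ c W) :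
    W.c₄ = 16 * c ^ 2 * ii u w x₀ := by
  simp only [WeierstrassCurve.c₄, WeierstrassCurve.b₂, WeierstrassCurve.b₄, h.a₁, h.a₂, h.a₃, h.a₄,
    al, be, dd, ii]
  ring

lemma delta_A {u w : K} {W : WeierstrassCurve K} (h : IsA u w W) :
    W.Δ = 16 * (w ^ 2 * (u ^ 2 - 4 * w)) := by
  simp only [WeierstrassCurve.Δ, WeierstrassCurve.b₂, WeierstrassCurve.b₄, WeierstrassCurve.b₆,
    WeierstrassCurve.b₈, h.a₁, h.a₂, h.a₃, h.a₄, h.a₆]
  ring

variable [CharZero K]

/-- finitely many parameters for each `j`-invariant -/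
lemma fin_fibre (u w J : K) (hw : w ≠ 0) :
    {x : K | 256 * ii u w x ^ 3 = J * dd u w x ^ 2}.Finite := by
  set p : K[X] := C 256 * (C (u ^ 2 - 3 * w) * X ^ 2 + C (u * w) * X + C (w ^ 2)) ^ 3 -
    C J * (X ^ 3 + C u * X ^ 2 + C w * X) ^ 2 with hp
  have hp0 : p ≠ 0 := by
    intro h0
    have h1 := congrArg (eval 0) h0
    rw [hp] at h1
    simp only [eval_sub, eval_mul, eval_add, eval_pow, eval_C, eval_X, eval_zero] at h1
    have h2 : 256 * w ^ 6 = 0 := by linear_combination h1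
    rcases mul_eq_zero.1 h2 with h3 | h3
    · norm_num at h3
    · exact hw (pow_eq_zero_iff (by norm_num) |>.1 h3)
  classical
  refine (p.roots.toFinset.finite_toSet).subset fun x hx => ?_
  rw [Finset.mem_coe, Multiset.mem_toFinset, mem_roots hp0, IsRoot.def, hp]
  simp only [eval_sub, eval_mul, eval_add, eval_pow, eval_C, eval_X]
  have hx' : 256 * ii u w x ^ 3 = J * dd u w x ^ 2 := hx
  unfold ii dd at hx'
  linear_combination hx'

variable {v : AbsoluteValue K ℝ}

/-- the point of the curve with small parameter is close to infinity -/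
lemma small_c (hna : IsNonarchimedean v) {u w a b : K} (hb : b ≠ 0)
    (he : b ^ 2 = a ^ 3 + u * a ^ 2 + w * a) : ∃ δ : ℝ, 0 < δ ∧ ∀ c : K, v c < δ →
      dd u w (a - c) ≠ 0 ∧ Big v (crvB u w a c) (dd u w (a - c)) := by
  set R : ℝ := max 1 (max (v a) (max (v u) (v w))) with hR
  have hR1 : 1 ≤ R := le_max_left _ _
  have hR0 : 0 ≤ R := by linarith
  have ha : v a ≤ R := (le_max_left _ _).trans (le_max_right _ _)
  have hu : v u ≤ R := (le_max_left _ _).trans ((le_max_right _ _).trans (le_max_right _ _))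
  have hw : v w ≤ R := (le_max_right _ _).trans ((le_max_right _ _).trans (le_max_right _ _))
  have hb0 : 0 < v b := v.pos hb
  have up2 : R ≤ R ^ 2 := by nlinarith
  refine ⟨min 1 (v b ^ 2 / R ^ 2), lt_min one_pos (by positivity), fun c hc => ?_⟩
  have hc1 : v c < 1 := hc.trans_le (min_le_left _ _)
  have hc2 : v c * R ^ 2 < v b ^ 2 := by
    have := hc.trans_le (min_le_right _ _)
    rwa [lt_div_iff₀ (by positivity)] at this
  have hcR : v c ≤ R := hc1.le.trans hR1
  have hacR : v (a - c) ≤ R := na_sub hna ha hcR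
  have vb2 : v (b ^ 2) = v b ^ 2 := map_pow _ _ _
  -- the value of the cubic at `a - c`
  have hDe : dd u w (a - c) = b ^ 2 +
      -(c * ((3 : ℕ) * a ^ 2 - (3 : ℕ) * (a * c) + c ^ 2 + (2 : ℕ) * (u * a) - u * c + w)) := by
    rw [he]
    unfold dd
    push_cast
    ring
  have hsq : ∀ {r s : K}, v r ≤ R → v s ≤ R → v (r * s) ≤ R ^ 2 := fun hr hs => by
    rw [sq]
    exact bnd_mul v hr hs hR0
  have hg : v ((3 : ℕ) * a ^ 2 - (3 : ℕ) * (a * c) + c ^ 2 + (2 : ℕ) * (u * a) - u * c + w) ≤ R ^ 2 := by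
    refine na_sum hna (na_sub hna (na_sum hna (na_sum hna (na_sub hna ?_ ?_) ?_) ?_) ?_) (hw.trans up2)
    · rw [sq]; exact mul_nat_le hna 3 (hsq ha ha)
    · exact mul_nat_le hna 3 (hsq ha hcR)
    · rw [sq]; exact hsq hcR hcR
    · exact mul_nat_le hna 2 (hsq hu ha)
    · exact hsq hu hcR
  have hvD : v (dd u w (a - c)) = v b ^ 2 := by
    rw [hDe, ← vb2]
    refine na_lt hna ?_
    rw [v.map_neg, map_mul, vb2]
    calc v c * v _ ≤ v c * R ^ 2 := by gcongr
      _ < v b ^ 2 := hc2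
  have hD0 : dd u w (a - c) ≠ 0 := by
    intro h0
    rw [h0, map_zero] at hvD
    exact absurd hvD.symm (by positivity)
  refine ⟨hD0, ?_, ?_, ?_⟩
  · rw [(isB u w a c).a₂, hvD]
    unfold al
    rw [map_mul]
    have h1 : v (3 * (a - c) ^ 2 + 2 * u * (a - c) + w) ≤ R ^ 2 := by
      have e1 : 3 * (a - c) ^ 2 + 2 * u * (a - c) + w =
          (3 : ℕ) * (a - c) ^ 2 + (2 : ℕ) * (u * (a - c)) + w := by
        push_cast
        ring
      rw [e1]
      refine na_sum hna (na_sum hna ?_ ?_) (hw.trans up2)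
      · rw [sq]; exact mul_nat_le hna 3 (hsq hacR hacR)
      · exact mul_nat_le hna 2 (hsq hu hacR)
    calc v c * v _ ≤ v c * R ^ 2 := by gcongr
      _ < v b ^ 2 := hc2
  · rw [(isB u w a c).a₄]
    unfold be
    rw [map_mul, map_mul, map_pow, sq (v (dd u w (a - c)))]
    refine mul_lt_mul_of_pos_right ?_ (by rw [hvD]; positivity)
    rw [hvD]
    have h1 : v (3 * (a - c) + u) ≤ R := by
      have := mul_nat_le hna 3 hacR
      push_cast at this
      exact na_sum hna this hu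
    calc v c ^ 2 * v (3 * (a - c) + u) ≤ v c ^ 2 * R := by gcongr
      _ = v c * (v c * R) := by ring
      _ ≤ v c * (1 * R ^ 2) := by gcongr
      _ = v c * R ^ 2 := by ring
      _ < v b ^ 2 := hc2
  · rw [(isB u w a c).a₆]
    unfold ga
    rw [map_mul, map_pow, map_pow]
    have h0 : 0 < v (dd u w (a - c)) ^ 2 := by rw [hvD]; positivity
    have h1 : v c ^ 3 < v (dd u w (a - c)) := by
      rw [hvD]
      calc v c ^ 3 = v c * (v c * v c) := by ring
        _ ≤ v c * (1 * 1) := by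
          gcongr
        _ ≤ v c * R ^ 2 := by
          have : (1 : ℝ) * 1 ≤ R ^ 2 := by nlinarith
          gcongr
          
        _ < v b ^ 2 := hc2
    calc v c ^ 3 * v (dd u w (a - c)) ^ 2 < v (dd u w (a - c)) * v (dd u w (a - c)) ^ 2 :=
          mul_lt_mul_of_pos_right h1 h0
      _ = v (dd u w (a - c)) ^ 3 := by ring

variable [DecidableEq K] {W : WeierstrassCurve K}

/-- admissible parameters -/
structure Good (v : AbsoluteValue K ℝ) (u w a : K) (B : W.toAffine.Point) (c : K) : Prop where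
  c0 : c ≠ 0
  D0 : dd u w (a - c) ≠ 0
  big : Big v (crvB u w a c) (dd u w (a - c))
  link : ∃ n : ℕ, 0 < n ∧ ∃ a₂ b₂ h₂, n • B = Affine.Point.some a₂ b₂ h₂ ∧ a₂ ≠ 0 ∧ b₂ ≠ 0 ∧
    a ^ 2 + u * a + w = c * (a - a₂)

/-- **There are infinitely many admissible parameters.** -/
theorem good_infinite (hna : IsNonarchimedean v) (h2 : v 2 < 1) (hfin : PreC v)
    {u w a b : K} (hW : IsA u w W) (hd : w ^ 2 * (u ^ 2 - 4 * w) ≠ 0) (hb : b ≠ 0)
    (he : b ^ 2 = a ^ 3 + u * a ^ 2 + w * a) (B : W.toAffine.Point)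
    (hB : ∀ n : ℕ, 0 < n → n • B ≠ 0) : {c : K | Good v u w a B c}.Infinite := by
  intro hf
  obtain ⟨δ, hδ, hsm⟩ := small_c hna hb he
  have hq0 : a ^ 2 + u * a + w ≠ 0 := by
    intro h0
    apply hb
    have : b ^ 2 = 0 := by linear_combination he + a * h0
    exact pow_eq_zero_iff two_ne_zero |>.1 this
  -- a lower bound for the nonzero elements of the finite set
  obtain ⟨η, hη, hlow⟩ : ∃ η : ℝ, 0 < η ∧ ∀ c, Good v u w a B c → η ≤ v c := by
    classical
    rcases hf.toFinset.eq_empty_or_nonempty with hemp | hne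
    · refine ⟨1, one_pos, fun c hc => ?_⟩
      have : c ∈ hf.toFinset := by simpa using hc
      rw [hemp] at this
      simp at this
    · refine ⟨hf.toFinset.inf' hne v, ?_, fun c hc => ?_⟩
      · rw [Finset.lt_inf'_iff]
        intro c hc
        have : Good v u w a B c := by simpa using hc
        exact v.pos this.c0
      · exact Finset.inf'_le _ (by simpa using hc)
  have hm : 0 < min δ η := lt_min hδ hη
  obtain ⟨n, hn, a₂, b₂, h₂, hnB, hlarge⟩ := large hna h2 two_ne_zero hfin hW hd B hB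
    (max (v a) (v (a ^ 2 + u * a + w) / min δ η))
  have hl1 : v a < v a₂ := (le_max_left _ _).trans_lt hlarge
  have hl2 : v (a ^ 2 + u * a + w) < v a₂ * min δ η := by
    rw [← div_lt_iff₀ hm]
    exact (le_max_right _ _).trans_lt hlarge
  have ha20 : 0 < v a₂ := (v.nonneg _).trans_lt hl1
  have hva : v (a - a₂) = v a₂ := by
    have : a - a₂ = -(a₂ + -a) := by ring
    rw [this, v.map_neg]
    exact na_lt hna (by rwa [v.map_neg])
  have haa : a - a₂ ≠ 0 := by
    intro h0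
    rw [h0, map_zero] at hva
    exact absurd hva.symm ha20.ne'
  obtain ⟨c, hc⟩ : ∃ c : K, c = (a ^ 2 + u * a + w) / (a - a₂) := ⟨_, rfl⟩
  have hc' : a ^ 2 + u * a + w = c * (a - a₂) := by rw [hc]; field_simp
  have hvc : v c < min δ η := by
    have := congrArg v hc'
    rw [map_mul, hva] at this
    rw [this, mul_comm] at hl2
    exact lt_of_mul_lt_mul_left hl2 ha20.le
  have hc0 : c ≠ 0 := by
    rintro rfl
    apply hq0
    rw [hc', zero_mul]
  have ha2 : a₂ ≠ 0 := v.pos_iff.1 ha20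
  have hb2 : b₂ ≠ 0 := by
    rintro rfl
    apply hB (2 * n) (by omega)
    rw [mul_comm, mul_nsmul, hnB]
    exact two_smul_some' hW.a₁ hW.a₃ h₂ rfl
  obtain ⟨h3, h4⟩ := hsm c (hvc.trans_le (min_le_left _ _))
  have hgood : Good v u w a B c := ⟨hc0, h3, h4, n, hn, a₂, b₂, h₂, hnB, ha2, hb2, hc'⟩
  exact absurd (hlow c hgood) (not_le.2 (hvc.trans_le (min_le_right _ _)))

/-- the `j`-invariant -/
def jj (W : WeierstrassCurve K) : K := W.c₄ ^ 3 / W.Δ

lemma jj_B {u w x₀ c : K} {W : WeierstrassCurve K} (h : IsB u w x₀ c W) (hc : c ≠ 0)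
    (hD : dd u w x₀ ≠ 0) (hd : w ^ 2 * (u ^ 2 - 4 * w) ≠ 0) :
    256 * ii u w x₀ ^ 3 = (jj W * (w ^ 2 * (u ^ 2 - 4 * w))) * dd u w x₀ ^ 2 := by
  have h16 : (16 : K) ≠ 0 := by norm_num
  unfold jj
  rw [delta_B h, c4_B h]
  have hden : 16 * c ^ 6 * dd u w x₀ ^ 2 * (w ^ 2 * (u ^ 2 - 4 * w)) ≠ 0 :=
    mul_ne_zero (mul_ne_zero (mul_ne_zero h16 (pow_ne_zero 6 hc)) (pow_ne_zero 2 hD)) hd
  have e1 : (16 * c ^ 2 * ii u w x₀) ^ 3 / (16 * c ^ 6 * dd u w x₀ ^ 2 * (w ^ 2 * (u ^ 2 - 4 * w))) *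
      (16 * c ^ 6 * dd u w x₀ ^ 2 * (w ^ 2 * (u ^ 2 - 4 * w))) = (16 * c ^ 2 * ii u w x₀) ^ 3 :=
    div_mul_cancel₀ _ hden
  have h16c : (16 : K) * c ^ 6 ≠ 0 := mul_ne_zero h16 (pow_ne_zero 6 hc)
  apply mul_left_cancel₀ h16c
  linear_combination -e1

/-- **Infinitely many curves with distinct `j`-invariants.** -/
theorem exists_seq (hna : IsNonarchimedean v) (h2 : v 2 < 1) (hfin : PreC v)
    {u w a b : K} (hW : IsA u w W) (hd : w ^ 2 * (u ^ 2 - 4 * w) ≠ 0) (hb : b ≠ 0)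
    (he : b ^ 2 = a ^ 3 + u * a ^ 2 + w * a) (B : W.toAffine.Point)
    (hB : ∀ n : ℕ, 0 < n → n • B ≠ 0) :
    ∃ c : ℕ → K, (∀ i, Good v u w a B (c i)) ∧ (∀ i, jj (crvB u w a (c i)) ≠ jj W) ∧
      Function.Injective fun i => jj (crvB u w a (c i)) := by
  have hw : w ≠ 0 := by
    rintro rfl
    apply hd
    ring
  have hinf := good_infinite hna h2 hfin hW hd hb he B hB
  have himg : ((fun c => jj (crvB u w a c)) '' {c : K | Good v u w a B c}).Infinite := by
    intro hf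
    apply hinf
    have hsub : {c : K | Good v u w a B c} ⊆
        ⋃ J ∈ (fun c => jj (crvB u w a c)) '' {c : K | Good v u w a B c},
          (fun x => a - x) '' {x : K | 256 * ii u w x ^ 3 = (J * (w ^ 2 * (u ^ 2 - 4 * w))) * dd u w x ^ 2} := by
      intro c hc
      simp only [Set.mem_iUnion]
      refine ⟨jj (crvB u w a c), ⟨c, hc, rfl⟩, a - c, ?_, by ring⟩
      exact jj_B (isB u w a c) hc.c0 hc.D0 hd
    refine Set.Finite.subset (Set.Finite.biUnion hf fun J _ => ?_) hsub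
    exact (fin_fibre u w _ hw).image _
  have himg' := himg.sdiff (Set.finite_singleton (jj W))
  have hex : ∀ i : ℕ, ∃ c, Good v u w a B c ∧ jj (crvB u w a c) = (himg'.natEmbedding _ i : K) := by
    intro i
    obtain ⟨c, hc, h⟩ := (himg'.natEmbedding _ i).2.1
    exact ⟨c, hc, h⟩
  choose c hc hj using hex
  refine ⟨c, hc, fun i => ?_, fun i i' h => ?_⟩
  · rw [hj i]
    exact (himg'.natEmbedding _ i).2.2
  · have h' : ((himg'.natEmbedding _ i : K)) = (himg'.natEmbedding _ i' : K) := by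
      rw [← hj i, ← hj i']
      exact h
    exact (himg'.natEmbedding _).injective (Subtype.ext h')

end

end Pool.Agent.H51.ZC
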