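import Pool.Agent.H51.ZC.Decomp
import Pool.Agent.H51.ZC.Params

/-!
# Zero-cycles over the algebraic closure
-/

set_option autoImplicit false
set_option linter.unusedSectionVars false

open WeierstrassCurve

namespace Pool.Agent.H51.ZC

/-- The elements of `G` some positive multiple of which lies in the subgroup generated by `S`. -/
def Sat {G : Type*} [AddCommGroup G] (S : Set G) : Set G :=
  {P | ∃ m : ℕ, 0 < m ∧ m • P ∈ AddSubgroup.closure S}

section
variable {K : Type*} [Field K]

/-- The curves `W, E 0, E 1, …`. -/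
def crv (W : WeierstrassCurve K) (E : ℕ → WeierstrassCurve K) : Option ℕ → WeierstrassCurve K
  | none => W
  | some i => E i

/-- The sets of points `{A, B}` of `W`, `{Q 0}` of `E 0`, `{Q 1}` of `E 1`, … -/
def gen {W : WeierstrassCurve K} {E : ℕ → WeierstrassCurve K} (A B : W.toAffine.Point)
    (Q : ∀ i, (E i).toAffine.Point) : ∀ o, Set (crv W E o).toAffine.Point
  | none => {A, B}
  | some i => {Q i}

variable [DecidableEq K] (F : Type*) [Field F] [DecidableEq F] [Algebra K F]

/-- The embedding of the `K`-points into the `F`-points of the curve. -/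
noncomputable def bc (W : WeierstrassCurve K) :
    W.toAffine.Point →+ (W.map (algebraMap K F)).toAffine.Point :=
  Affine.Point.map (R := K) (S := K) (W' := W) (Algebra.ofId K F)

lemma bc_some (W : WeierstrassCurve K) {x y : K} (h : W.toAffine.Nonsingular x y)
    (h' : (W.map (algebraMap K F)).toAffine.Nonsingular (algebraMap K F x) (algebraMap K F y)) :
    bc F W (.some x y h) = .some _ _ h' := rfl

lemma ns_map (W : WeierstrassCurve K) {x y : K} (h : W.toAffine.Nonsingular x y) :
    (W.map (algebraMap K F)).toAffine.Nonsingular (algebraMap K F x) (algebraMap K F y) :=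
  (Affine.map_nonsingular (W := W) (algebraMap K F).injective x y).2 h

end

section
variable {F : Type*} [Field F] [DecidableEq F] {ι : Type*} [DecidableEq ι]
  {W : ι → WeierstrassCurve F}

lemma bil_closure (R : Pts W) {i j : ι} (hij : i ≠ j) {S : Set (W i).toAffine.Point}
    {T : Set (W j).toAffine.Point} (h : ∀ P ∈ S, ∀ Q ∈ T, bil R hij P Q = 0)
    {P : (W i).toAffine.Point} {Q : (W j).toAffine.Point} (hP : P ∈ AddSubgroup.closure S)
    (hQ : Q ∈ AddSubgroup.closure T) : bil R hij P Q = 0 := by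
  induction hP using AddSubgroup.closure_induction with
  | mem P hP =>
    induction hQ using AddSubgroup.closure_induction with
    | mem Q hQ => exact h P hP Q hQ
    | zero => rw [map_zero]
    | add Q Q' _ _ h1 h2 => rw [map_add, h1, h2, add_zero]
    | neg Q _ h1 => rw [map_neg, h1, neg_zero]
  | zero => rw [map_zero, AddMonoidHom.zero_apply]
  | add P P' _ _ h1 h2 => rw [map_add, AddMonoidHom.add_apply, h1, h2, add_zero]
  | neg P _ h1 => rw [map_neg, AddMonoidHom.neg_apply, h1, neg_zero]

lemma bil_nsmul (R : Pts W) {i j : ι} (hij : i ≠ j) {P : (W i).toAffine.Point}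
    {Q : (W j).toAffine.Point} {m k : ℕ} (hm : 0 < m) (hk : 0 < k)
    (h : bil R hij (m • P) (k • Q) = 0) : bil R hij P Q = 0 := by
  rw [map_nsmul, map_nsmul, AddMonoidHom.nsmul_apply] at h
  exact tf hm (tf hk h)

lemma bil_sat (R : Pts W) {i j : ι} (hij : i ≠ j) {S : Set (W i).toAffine.Point}
    {T : Set (W j).toAffine.Point} (h : ∀ P ∈ S, ∀ Q ∈ T, bil R hij P Q = 0)
    {P : (W i).toAffine.Point} {Q : (W j).toAffine.Point} (hP : P ∈ Sat S)
    (hQ : Q ∈ Sat T) : bil R hij P Q = 0 := by
  obtain ⟨m, hm, hP⟩ := hP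
  obtain ⟨k, hk, hQ⟩ := hQ
  exact bil_nsmul R hij hm hk (bil_closure R hij h hP hQ)

lemma bil_linked (R : Pts W) {i j : ι} (hij : i ≠ j) {P : (W i).toAffine.Point}
    {Q : (W j).toAffine.Point} (h : Linked P Q) : bil R hij P Q = 0 := by
  obtain ⟨f, s, s', T, T', h1, h2, h3⟩ := h
  exact bil_zero R hij h1 h2 h3

end

section
variable {K : Type*} [Field K] [DecidableEq K] (F : Type*) [Field F] [DecidableEq F] [Algebra K F]
  {ι : Type*} [DecidableEq ι] (W : ι → WeierstrassCurve K)

/-- The curves `W i` over `F`. -/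
abbrev ext : ι → WeierstrassCurve F := fun i => (W i).map (algebraMap K F)

/-- The embedding of the `K`-points of the product of the `W i` into its `F`-points. -/
noncomputable def bcPts (R : Pts W) : Pts (ext F W) := fun i => bc F (W i) (R i)

/-- The zero-cycle over `F` given by a zero-cycle supported on `K`-points. -/
noncomputable def bcCyc (z : Cyc W) : Cyc (ext F W) := z.mapDomain (bcPts F W)

variable {F W}

lemma sat_map {G H : Type*} [AddCommGroup G] [AddCommGroup H] (f : G →+ H) {S : Set G} {P : G}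
    (h : P ∈ Sat S) : f P ∈ Sat (f '' S) := by
  obtain ⟨m, hm, h⟩ := h
  refine ⟨m, hm, ?_⟩
  rw [← map_nsmul, ← AddMonoidHom.map_closure]
  exact ⟨_, h, rfl⟩

/-- **Zero-cycles of degree zero with trivial sum.** -/
theorem bc_mem_tors [Fintype ι] (Γ : ∀ i, Set (W i).toAffine.Point)
    (hV : ∀ (R : Pts (ext F W)) (i j : ι) (hij : i ≠ j), ∀ P ∈ Γ i, ∀ Q ∈ Γ j,
      bil R hij (bc F (W i) P) (bc F (W j) Q) = 0)
    (z : Cyc W) (hz : ∀ R ∈ z.support, ∀ i, R i ∈ Sat (Γ i))
    (hdeg : (z.sum fun _ n => n) = 0) (hsum : (z.sum fun R n => n • R) = 0) :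
    bcCyc F W z ∈ Tors (ext F W) := by
  have hV' : Van (W := ext F W) (fun i => Sat (bc F (W i) '' Γ i)) := by
    intro R i j hij P hP Q hQ
    refine bil_sat R hij ?_ hP hQ
    rintro _ ⟨P, hP, rfl⟩ _ ⟨Q, hQ, rfl⟩
    exact hV R i j hij P hP Q hQ
  refine mem_tors hV' _ ?_ ?_ ?_
  · intro R hR i
    obtain ⟨R', hR', rfl⟩ := Finset.mem_image.1 (Finsupp.mapDomain_support hR)
    exact sat_map _ (hz R' hR' i)
  · unfold bcCyc
    rw [Finsupp.sum_mapDomain_index (fun _ => rfl) (fun _ _ _ => rfl)]
    exact hdeg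
  · unfold bcCyc
    rw [Finsupp.sum_mapDomain_index (h := fun (R : Pts (ext F W)) (n : ℤ) => n • R)
      (fun _ => zero_smul _ _) (fun _ _ _ => add_smul _ _ _)]
    funext i
    rw [Finsupp.sum, Finset.sum_apply]
    have h := congrArg (bc F (W i)) (congrFun hsum i)
    rw [Finsupp.sum, Finset.sum_apply, map_sum, Pi.zero_apply, map_zero] at h
    rw [Pi.zero_apply, ← h]
    refine Finset.sum_congr rfl fun R _ => ?_
    rw [Pi.smul_apply, Pi.smul_apply, map_zsmul]
    rfl

end

end Pool.Agent.H51.ZC
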