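import Pool.Agent.H51.ZC.Leg

/-!
# Independence of points
-/

set_option autoImplicit false
set_option linter.unusedSectionVars false

open WeierstrassCurve Polynomial

namespace Pool.Agent.H51.ZC

/-- **Elements in different eigenspaces are independent.** -/
theorem indep_of_signs {G : Type*} [AddCommGroup G] {ι : Type*} (R : ι → G)
    (hinf : ∀ k, ∀ n : ℕ, 0 < n → n • R k ≠ 0)
    (hs : ∀ k l, k ≠ l → ∃ σ : G →+ G, (∀ j, σ (R j) = R j ∨ σ (R j) = -R j) ∧
      ((σ (R k) = R k ∧ σ (R l) = -R l) ∨ (σ (R k) = -R k ∧ σ (R l) = R l))) :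
    LinearIndependent ℤ R := by
  classical
  have hz : ∀ k, ∀ n : ℤ, n • R k = 0 → n = 0 := by
    intro k n hn
    by_contra h0
    have h1 : n.natAbs • R k = 0 := by
      rcases Int.natAbs_eq n with h | h
      · rw [h] at hn
        simpa using hn
      · rw [h] at hn
        simpa using hn
    exact hinf k _ (Int.natAbs_pos.2 h0) h1
  have hne : ∀ k, R k ≠ -R k := by
    intro k h
    refine hinf k 2 two_pos ?_
    rw [two_nsmul]
    nth_rewrite 1 [h]
    exact neg_add_cancel _
  rw [linearIndependent_iff']
  intro s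
  induction s using Finset.strongInduction with
  | H s ih =>
    intro c hc
    by_contra hcon
    push Not at hcon
    obtain ⟨k, hk, hck⟩ := hcon
    by_cases hl : ∃ l ∈ s, l ≠ k
    · obtain ⟨l, hls, hlk⟩ := hl
      obtain ⟨σ, h1, h2⟩ := hs k l hlk.symm
      have hε : ∀ j, ∃ ε : ℤ, σ (R j) = ε • R j := by
        intro j
        rcases h1 j with h | h
        · exact ⟨1, by rw [h, one_smul]⟩
        · exact ⟨-1, by rw [h, neg_smul, one_smul]⟩
      choose ε hε using hε
      have hσ : ∑ j ∈ s, (ε j * c j) • R j = 0 := by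
        have h3 := congrArg σ hc
        rw [map_sum, map_zero] at h3
        rw [← h3]
        refine Finset.sum_congr rfl fun j _ => ?_
        rw [map_zsmul, hε, smul_smul, mul_comm]
      have step : ∀ τ : ℤ, (1 + τ * ε l) * c l = 0 → (1 + τ * ε k) * c k ≠ 0 → False := by
        intro τ hl0 hk0
        have h4 : ∑ j ∈ s, ((1 + τ * ε j) * c j) • R j = 0 := by
          have h5 : ∀ j ∈ s, ((1 + τ * ε j) * c j) • R j = c j • R j + τ • ((ε j * c j) • R j) := by
            intro j _
            rw [smul_smul, ← add_smul]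
            congr 1
            ring
          rw [Finset.sum_congr rfl h5, Finset.sum_add_distrib, hc, ← Finset.smul_sum, hσ, smul_zero,
            add_zero]
        rw [← Finset.sum_erase_add _ _ hls, hl0, zero_smul, add_zero] at h4
        exact hk0 (ih (s.erase l) (Finset.erase_ssubset hls) _ h4 k
          (Finset.mem_erase.2 ⟨hlk.symm, hk⟩))
      have hεv : ∀ j, (σ (R j) = R j → ε j = 1) ∧ (σ (R j) = -R j → ε j = -1) := by
        intro j
        constructor
        · intro h
          rw [hε] at h
          have : (ε j - 1) • R j = 0 := by rw [sub_smul, h, one_smul, sub_self]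
          have := hz j _ this
          omega
        · intro h
          rw [hε] at h
          have : (ε j + 1) • R j = 0 := by rw [add_smul, h, one_smul, neg_add_cancel]
          have := hz j _ this
          omega
      rcases h2 with ⟨h6, h7⟩ | ⟨h6, h7⟩
      · refine step 1 ?_ ?_
        · rw [(hεv l).2 h7]; ring
        · rw [(hεv k).1 h6]
          intro h8
          apply hck
          linarith
      · refine step (-1) ?_ ?_
        · rw [(hεv l).1 h7]; ring
        · rw [(hεv k).2 h6]
          intro h8
          apply hck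
          linarith
    · push Not at hl
      have hsk : s = {k} := Finset.eq_singleton_iff_unique_mem.2 ⟨hk, hl⟩
      rw [hsk, Finset.sum_singleton] at hc
      exact hck (hz k _ hc)

section
variable {K F : Type*} [Field K] [Field F] [Algebra K F] [Normal K F]

lemma exists_conj {t : F} {a : K} (ht : t ^ 2 = algebraMap K F a) (ha : ¬∃ s : K, s ^ 2 = a) :
    ∃ σ : F ≃ₐ[K] F, σ t = -t := by
  have hirr : Irreducible (X ^ 2 - C a : K[X]) :=
    X_pow_sub_C_irreducible_of_prime Nat.prime_two fun s hs => ha ⟨s, hs⟩
  have hmon : (X ^ 2 - C a : K[X]).Monic := monic_X_pow_sub_C a two_ne_zero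
  have h1 : minpoly K t = X ^ 2 - C a := by
    refine (minpoly.eq_of_irreducible_of_monic hirr ?_ hmon).symm
    simp [ht]
  have h2 : minpoly K (-t) = X ^ 2 - C a := by
    refine (minpoly.eq_of_irreducible_of_monic hirr ?_ hmon).symm
    simp [ht]
  obtain ⟨σ, hσ⟩ := (isConjRoot_iff_exists_algEquiv (K := K) (x := -t) (y := t)).1 (by
    unfold IsConjRoot
    rw [h1, h2])
  exact ⟨σ, hσ⟩

variable [DecidableEq F]

/-- **Points defined over different quadratic extensions are independent.** -/
theorem indep_points {E : WeierstrassCurve F} (h1 : E.a₁ = 0) (h3 : E.a₃ = 0)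
    (hE : ∃ W : WeierstrassCurve K, E = W.map (algebraMap K F))
    {ι : Type*} (R : ι → E.toAffine.Point) (y : ι → F) (d : ι → K)
    (hy : ∀ j, y j ^ 2 = algebraMap K F (d j))
    (hR : ∀ j, ∃ x g : K, ∃ h, R j = .some (algebraMap K F x) (y j * algebraMap K F g) h)
    (hns : ∀ k l, k ≠ l → ¬∃ t : K, t ^ 2 = d k * d l)
    (hinf : ∀ k, ∀ n : ℕ, 0 < n → n • R k ≠ 0) : LinearIndependent ℤ R := by
  obtain ⟨W, rfl⟩ := hE
  refine indep_of_signs R hinf fun k l hkl => ?_
  obtain ⟨σ, hσ⟩ := exists_conj (t := y k * y l) (a := d k * d l)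
    (by rw [mul_pow, hy, hy, map_mul]) (hns k l hkl)
  have hsgn : ∀ j, σ (y j) = y j ∨ σ (y j) = -y j := by
    intro j
    refine sq_eq_sq_iff_eq_or_eq_neg.1 ?_
    rw [← map_pow, hy, AlgEquiv.commutes]
  have hyne : ∀ j, y j ≠ 0 := by
    intro j h0
    obtain ⟨x, g, h, hj⟩ := hR j
    refine hinf j 2 two_pos ?_
    rw [hj]
    exact two_smul_some' h1 h3 h (by rw [h0, zero_mul])
  have hmap : ∀ j, (σ (y j) = y j → Affine.Point.map (R := K) (S := K) (W' := W) (σ : F →ₐ[K] F) (R j) = R j) ∧
      (σ (y j) = -y j →
        Affine.Point.map (R := K) (S := K) (W' := W) (σ : F →ₐ[K] F) (R j) = -R j) := by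
    intro j
    obtain ⟨x, g, h, hj⟩ := hR j
    rw [hj]
    constructor
    · intro hs
      have e1 : (σ : F →ₐ[K] F) (algebraMap K F x) = algebraMap K F x := AlgEquiv.commutes σ x
      have e2 : (σ : F →ₐ[K] F) (y j * algebraMap K F g) = y j * algebraMap K F g := by
        rw [map_mul]
        have e3 : (σ : F →ₐ[K] F) (algebraMap K F g) = algebraMap K F g := AlgEquiv.commutes σ g
        rw [e3]
        congr 1
      refine (Affine.Point.map_some _ _).trans ?_
      simp only [e1, e2]
      rfl
    · intro hs
      have e1 : (σ : F →ₐ[K] F) (algebraMap K F x) = algebraMap K F x := AlgEquiv.commutes σ x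
      have e2 : (σ : F →ₐ[K] F) (y j * algebraMap K F g) = -(y j * algebraMap K F g) := by
        rw [map_mul]
        have e3 : (σ : F →ₐ[K] F) (algebraMap K F g) = algebraMap K F g := AlgEquiv.commutes σ g
        have e4 : (σ : F →ₐ[K] F) (y j) = -y j := hs
        rw [e3, e4]
        ring
      refine (Affine.Point.map_some _ _).trans ?_
      rw [Affine.Point.neg_some]
      have e5 : (W.map (algebraMap K F)).toAffine.negY (algebraMap K F x) (y j * algebraMap K F g) =
          -(y j * algebraMap K F g) := by
        change -(y j * algebraMap K F g) - (W.map (algebraMap K F)).a₁ * _ - (W.map (algebraMap K F)).a₃ = _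
        rw [h1, h3]
        ring
      simp only [e1, e2, e5]
      rfl
  refine ⟨Affine.Point.map (R := K) (S := K) (W' := W) (σ : F →ₐ[K] F), fun j => ?_, ?_⟩
  · rcases hsgn j with h | h
    · exact Or.inl ((hmap j).1 h)
    · exact Or.inr ((hmap j).2 h)
  · have h2F : ∀ z : F, z ≠ 0 → z ≠ -z → True := fun _ _ _ => trivial
    rw [map_mul] at hσ
    rcases hsgn k with h | h <;> rcases hsgn l with h' | h'
    · exfalso
      rw [h, h'] at hσ
      refine hns k l hkl ?_
      have h2 : (2 : F) * (y k * y l) = 0 := by linear_combination hσ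
      rcases mul_eq_zero.1 h2 with h4 | h4
      · -- characteristic two: no sign
        exfalso
        have h5 := (hmap k).2 (by
          rw [h]
          linear_combination (y k) * h4)
        have h6 := (hmap k).1 h
        refine hinf k 2 two_pos ?_
        rw [two_nsmul]
        nth_rewrite 1 [← h6]
        rw [h5, neg_add_cancel]
      · exact absurd h4 (mul_ne_zero (hyne k) (hyne l))
    · exact Or.inl ⟨(hmap k).1 h, (hmap l).2 h'⟩
    · exact Or.inr ⟨(hmap k).2 h, (hmap l).1 h'⟩
    · exfalso
      rw [h, h'] at hσ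
      have h2 : (2 : F) * (y k * y l) = 0 := by linear_combination hσ
      rcases mul_eq_zero.1 h2 with h4 | h4
      · have h5 := (hmap k).1 (by
          rw [h]
          linear_combination (-y k) * h4)
        have h6 := (hmap k).2 h
        refine hinf k 2 two_pos ?_
        rw [two_nsmul]
        nth_rewrite 1 [← h5]
        rw [h6, neg_add_cancel]
      · exact absurd h4 (mul_ne_zero (hyne k) (hyne l))

end

end Pool.Agent.H51.ZC
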