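import Pool.Agent.H51.ZC.Loc

/-!
# Multiples of a point of infinite order that are close to infinity
-/

set_option autoImplicit false
set_option linter.unusedSectionVars false

open WeierstrassCurve

namespace Pool.Agent.H51.ZC

section
variable {K : Type*} [Field K] {v : AbsoluteValue K ℝ}

/-- bounded sets are precompact -/
def PreC (v : AbsoluteValue K ℝ) : Prop :=
  ∀ R ε : ℝ, 0 < ε → ∃ S : Finset K, ∀ x : K, v x ≤ R → ∃ a ∈ S, v (x - a) < ε

/-- two close elements of a bounded sequence of pairs -/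
lemma close_pair (hna : IsNonarchimedean v) (hfin : PreC v) {R : ℝ} (f g : ℕ → K)
    (hf : ∀ n, v (f n) ≤ R) (hg : ∀ n, v (g n) ≤ R) {ε : ℝ} (hε : 0 < ε) :
    ∃ m n : ℕ, m < n ∧ v (f n - f m) < ε ∧ v (g n - g m) < ε := by
  obtain ⟨S, hS⟩ := hfin R ε hε
  choose a ha hav using fun n => hS (f n) (hf n)
  choose b hb hbv using fun n => hS (g n) (hg n)
  obtain ⟨m, n, hmn, he⟩ := Finite.exists_ne_map_eq_of_infinite
    (fun n : ℕ => ((⟨a n, ha n⟩, ⟨b n, hb n⟩) : S × S))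
  have ea : a m = a n := congrArg (fun z => z.1.1) he
  have eb : b m = b n := congrArg (fun z => z.2.1) he
  have key : ∀ m n : ℕ, a m = a n → b m = b n → v (f n - f m) < ε ∧ v (g n - g m) < ε := by
    intro m n ea eb
    constructor
    · have := na_sub' hna (hav n) (hav m)
      rw [ea] at this
      convert this using 2
      ring
    · have := na_sub' hna (hbv n) (hbv m)
      rw [eb] at this
      convert this using 2
      ring
  rcases lt_or_gt_of_ne hmn with h | h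
  · exact ⟨m, n, h, key m n ea eb⟩
  · exact ⟨n, m, h, key n m ea.symm eb.symm⟩

lemma bnd_mul (v : AbsoluteValue K ℝ) {r s : K} {A B : ℝ} (hr : v r ≤ A) (hs : v s ≤ B) (hA : 0 ≤ A) :
    v (r * s) ≤ A * B := by
  rw [map_mul]
  exact mul_le_mul hr hs (v.nonneg _) hA

/-- the discriminant as a combination -/
lemma disc_eq (u w x : K) : w ^ 2 * (u ^ 2 - 4 * w) =
    (3 * x ^ 2 + 2 * u * x + w) * (w * (u ^ 2 - 4 * w) + (3 * x + 2 * u) * x * (u * x + u ^ 2 - 2 * w)) -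
      (x ^ 3 + u * x ^ 2 + w * x) * ((3 * x + 2 * u) * (3 * u * x + 2 * u ^ 2 - 6 * w)) := by
  ring

/-- Bound for the discriminant. -/
lemma disc_small (hna : IsNonarchimedean v) {R ε : ℝ} (hR : 1 ≤ R) (hε : 0 ≤ ε) {u w x : K}
    (hu : v u ≤ R) (hw : v w ≤ R) (hx : v x ≤ R) (h1 : v (3 * x ^ 2 + 2 * u * x + w) ≤ ε)
    (h2 : v (x ^ 3 + u * x ^ 2 + w * x) ≤ ε) : v (w ^ 2 * (u ^ 2 - 4 * w)) ≤ ε * R ^ 4 := by
  have hR0 : 0 ≤ R := by linarith
  have n3 : v ((3 : ℕ) * x) ≤ R := mul_nat_le hna 3 hx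
  have n2 : v ((2 : ℕ) * u) ≤ R := mul_nat_le hna 2 hu
  have h32 : v (3 * x + 2 * u) ≤ R := by
    push_cast at n3 n2
    exact na_sum hna n3 n2
  have up : R ≤ R ^ 2 := by nlinarith
  have hux : v (u * x) ≤ R ^ 2 := by rw [sq]; exact bnd_mul v hu hx hR0
  have hu2 : v (u ^ 2) ≤ R ^ 2 := by rw [sq, sq]; exact bnd_mul v hu hu hR0
  have hw2 : v ((2 : ℕ) * w) ≤ R ^ 2 := (mul_nat_le hna 2 hw).trans up
  have hw4 : v ((4 : ℕ) * w) ≤ R ^ 2 := (mul_nat_le hna 4 hw).trans up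
  have hw6 : v ((6 : ℕ) * w) ≤ R ^ 2 := (mul_nat_le hna 6 hw).trans up
  have h3ux : v ((3 : ℕ) * (u * x)) ≤ R ^ 2 := mul_nat_le hna 3 hux
  have h2u2 : v ((2 : ℕ) * u ^ 2) ≤ R ^ 2 := mul_nat_le hna 2 hu2
  push_cast at hw2 hw4 hw6 h3ux h2u2
  have e1 : v (u * x + u ^ 2 - 2 * w) ≤ R ^ 2 := na_sub hna (na_sum hna hux hu2) hw2
  have e2 : v (3 * u * x + 2 * u ^ 2 - 6 * w) ≤ R ^ 2 := by
    rw [mul_assoc]
    exact na_sub hna (na_sum hna h3ux h2u2) hw6
  have e3 : v (u ^ 2 - 4 * w) ≤ R ^ 2 := na_sub hna hu2 hw4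
  have e4 : v (w * (u ^ 2 - 4 * w)) ≤ R ^ 4 := by
    refine (bnd_mul v hw e3 hR0).trans ?_
    have : R * R ^ 2 = R ^ 3 := by ring
    rw [this]
    exact pow_le_pow_right₀ hR (by norm_num)
  have e5 : v ((3 * x + 2 * u) * x * (u * x + u ^ 2 - 2 * w)) ≤ R ^ 4 := by
    refine (bnd_mul v (bnd_mul v h32 hx hR0) e1 (by positivity)).trans ?_
    exact le_of_eq (by ring)
  have e6 : v (w * (u ^ 2 - 4 * w) + (3 * x + 2 * u) * x * (u * x + u ^ 2 - 2 * w)) ≤ R ^ 4 :=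
    na_sum hna e4 e5
  have e7 : v ((3 * x + 2 * u) * (3 * u * x + 2 * u ^ 2 - 6 * w)) ≤ R ^ 4 := by
    refine (bnd_mul v h32 e2 hR0).trans ?_
    have : R * R ^ 2 = R ^ 3 := by ring
    rw [this]
    exact pow_le_pow_right₀ hR (by norm_num)
  rw [disc_eq u w x]
  exact na_sub hna (bnd_mul v h1 e6 hε) (bnd_mul v h2 e7 hε)

variable [DecidableEq K] {W : WeierstrassCurve K}

/-- the difference of two points -/
lemma sub_x {u w : K} (hW : IsA u w W) {x y x' y' : K} (h : W.toAffine.Nonsingular x y)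
    (h' : W.toAffine.Nonsingular x' y') (hx : x ≠ x') :
    ∃ x'' y'' h'', (Affine.Point.some x y h - Affine.Point.some x' y' h' : W.toAffine.Point) =
      Affine.Point.some x'' y'' h'' ∧ x'' = ((y + y') / (x - x')) ^ 2 - u - x - x' := by
  have hneg : W.toAffine.negY x' y' = -y' := by simp [Affine.negY, hW.a₁, hW.a₃]
  rw [sub_eq_add_neg, Affine.Point.neg_some, Affine.Point.add_some (by tauto)]
  refine ⟨_, _, _, rfl, ?_⟩
  rw [Affine.slope_of_X_ne hx, hneg, Affine.addX, hW.a₁, hW.a₂]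
  ring

/-- **A point of infinite order has a multiple close to infinity.** -/
theorem large₀ (hna : IsNonarchimedean v) (h20 : (2 : K) ≠ 0) (hfin : PreC v)
    {u w : K} (hW : IsA u w W) (hd : w ^ 2 * (u ^ 2 - 4 * w) ≠ 0) (B : W.toAffine.Point)
    (hB : ∀ n : ℕ, 0 < n → n • B ≠ 0) : ∃ n : ℕ, 0 < n ∧ ∃ x y h, n • B = .some x y h ∧ Big v W x := by
  by_contra hcon
  push Not at hcon
  set R : ℝ := max 1 (max (v u) (v w)) with hRdef
  have hR1 : 1 ≤ R := le_max_left _ _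
  have hR0 : 0 ≤ R := by linarith
  have hu : v u ≤ R := (le_max_left _ _).trans (le_max_right _ _)
  have hw : v w ≤ R := (le_max_right _ _).trans (le_max_right _ _)
  have hbd : ∀ n : ℕ, 0 < n → ∀ x y h, n • B = .some x y h → v x ≤ R := by
    intro n hn x y h he
    by_contra hx
    push Not at hx
    refine hcon n hn x y h he ⟨?_, ?_, ?_⟩
    · rw [hW.a₂]; exact hu.trans_lt hx
    · rw [hW.a₄]
      calc v w ≤ R := hw
        _ < v x := hx
        _ ≤ v x ^ 2 := by nlinarith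
    · rw [hW.a₆, map_zero]
      have : 0 < v x := by linarith
      positivity
  have hpt : ∀ n : ℕ, ∃ x y, ∃ h : W.toAffine.Nonsingular x y, (n + 1) • B = .some x y h := by
    intro n
    rcases hP : (n + 1) • B with _ | ⟨x, y, h⟩
    · exact absurd hP (hB (n + 1) n.succ_pos)
    · exact ⟨x, y, h, rfl⟩
  choose X Y hXY hn using hpt
  have hXR : ∀ n, v (X n) ≤ R := fun n => hbd (n + 1) n.succ_pos _ _ _ (hn n)
  have heq : ∀ n, Y n ^ 2 = X n ^ 3 + u * X n ^ 2 + w * X n := by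
    intro n
    have := (eqn_iff hW.a₁ hW.a₃).1 (hXY n).1
    rw [hW.a₂, hW.a₄, hW.a₆] at this
    rw [this, add_zero]
  have up2 : R ≤ R ^ 2 := by nlinarith
  have up3 : R ^ 2 ≤ R ^ 3 := pow_le_pow_right₀ hR1 (by norm_num)
  have hYR : ∀ n, v (Y n) ≤ R ^ 2 := by
    intro n
    have h1 : v (X n ^ 3) ≤ R ^ 4 := by
      rw [map_pow]
      exact (pow_le_pow_left₀ (v.nonneg _) (hXR n) 3).trans (pow_le_pow_right₀ hR1 (by norm_num))
    have h2 : v (u * X n ^ 2) ≤ R ^ 4 := by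
      have : v (X n ^ 2) ≤ R ^ 2 := by
        rw [map_pow]
        exact pow_le_pow_left₀ (v.nonneg _) (hXR n) 2
      refine (bnd_mul v hu this hR0).trans ?_
      have : R * R ^ 2 = R ^ 3 := by ring
      rw [this]
      exact pow_le_pow_right₀ hR1 (by norm_num)
    have h3 : v (w * X n) ≤ R ^ 4 := by
      refine (bnd_mul v hw (hXR n) hR0).trans ?_
      have : R * R = R ^ 2 := by ring
      rw [this]
      exact pow_le_pow_right₀ hR1 (by norm_num)
    have h4 : v (Y n) ^ 2 ≤ (R ^ 2) ^ 2 := by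
      rw [← map_pow, heq n]
      have := na_sum hna (na_sum hna h1 h2) h3
      calc _ ≤ R ^ 4 := this
        _ = (R ^ 2) ^ 2 := by ring
    exact (sq_le_sq₀ (v.nonneg _) (by positivity)).1 h4
  have hv2 : 0 < v 2 := v.pos h20
  have hv21 : v 2 ≤ 1 := by
    have := na_nat hna 2
    exact_mod_cast this
  have hdpos : 0 < v (w ^ 2 * (u ^ 2 - 4 * w)) := v.pos hd
  have hRpos : 0 < R := by linarith
  -- the precision
  obtain ⟨ε, hε0, hε1, hε2⟩ : ∃ ε : ℝ, 0 < ε ∧ ε ≤ 1 ∧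
      (ε * R ^ 2 / v 2 ^ 2) * R ^ 4 < v (w ^ 2 * (u ^ 2 - 4 * w)) := by
    refine ⟨min 1 (v (w ^ 2 * (u ^ 2 - 4 * w)) * v 2 ^ 2 / (2 * R ^ 6)),
      lt_min one_pos (by positivity), min_le_left _ _, ?_⟩
    have hm := min_le_right 1 (v (w ^ 2 * (u ^ 2 - 4 * w)) * v 2 ^ 2 / (2 * R ^ 6))
    calc (min 1 (v (w ^ 2 * (u ^ 2 - 4 * w)) * v 2 ^ 2 / (2 * R ^ 6)) * R ^ 2 / v 2 ^ 2) * R ^ 4
        ≤ ((v (w ^ 2 * (u ^ 2 - 4 * w)) * v 2 ^ 2 / (2 * R ^ 6)) * R ^ 2 / v 2 ^ 2) * R ^ 4 := by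
          gcongr
      _ = v (w ^ 2 * (u ^ 2 - 4 * w)) / 2 := by
          field_simp
      _ < _ := by linarith
  obtain ⟨m, n, hmn, hc1, hc2⟩ := close_pair hna hfin X Y (fun n => (hXR n).trans up2) hYR hε0
  have hxne : X n ≠ X m := by
    intro hx
    have hy : Y n ^ 2 = Y m ^ 2 := by rw [heq, heq, hx]
    have hcase : (n + 1) • B = (m + 1) • B ∨ (n + 1) • B = -((m + 1) • B) := by
      rw [hn n, hn m]
      rcases sq_eq_sq_iff_eq_or_eq_neg.1 hy with h | h
      · left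
        simp only [hx, h]
      · right
        rw [Affine.Point.neg_some]
        have hneg : W.toAffine.negY (X m) (Y m) = -Y m := by simp [Affine.negY, hW.a₁, hW.a₃]
        simp only [hx, h, hneg]
    rcases hcase with h | h
    · apply hB (n - m) (Nat.sub_pos_of_lt hmn)
      have h5 : (n - m + (m + 1)) • B = (n + 1) • B := by congr 1; omega
      rw [add_nsmul, h] at h5
      simpa using h5
    · apply hB (n + 1 + (m + 1)) (by omega)
      rw [add_nsmul, h, neg_add_cancel]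
  obtain ⟨x'', y'', h'', es, ex⟩ := sub_x hW (hXY n) (hXY m) hxne
  have hsub : (n - m) • B = Affine.Point.some x'' y'' h'' := by
    rw [← es, ← hn n, ← hn m]
    have h5 : (n - m + (m + 1)) • B = (n + 1) • B := by congr 1; omega
    rw [add_nsmul] at h5
    rw [← h5, add_sub_cancel_right]
  have hx''R := hbd (n - m) (Nat.sub_pos_of_lt hmn) _ _ _ hsub
  obtain ⟨l, hl⟩ : ∃ l : K, l = (Y n + Y m) / (X n - X m) := ⟨_, rfl⟩
  rw [← hl] at ex
  have hd0 : X n - X m ≠ 0 := sub_ne_zero.2 hxne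
  have hl' : l * (X n - X m) = Y n + Y m := by rw [hl]; field_simp
  have hlR : v l ≤ R := by
    have h6 : v (l ^ 2) ≤ R := by
      have : l ^ 2 = x'' + u + X n + X m := by rw [ex]; ring
      rw [this]
      exact na_sum hna (na_sum hna (na_sum hna hx''R hu) (hXR n)) (hXR m)
    rw [map_pow] at h6
    have h7 : v l ^ 2 ≤ R ^ 2 := h6.trans up2
    exact (sq_le_sq₀ (v.nonneg _) hR0).1 h7
  -- the coordinate `Y n` is small
  have hs1 : v (Y n + Y m) ≤ R * ε := by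
    rw [← hl']
    exact bnd_mul v hlR hc1.le hR0
  have hs2 : v (2 * Y n) ≤ R * ε := by
    have : 2 * Y n = (Y n + Y m) + (Y n - Y m) := by ring
    rw [this]
    refine na_sum hna hs1 (hc2.le.trans ?_)
    nlinarith
  have hs3 : v (Y n) ^ 2 ≤ ε * R ^ 2 / v 2 ^ 2 := by
    rw [map_mul] at hs2
    rw [le_div_iff₀ (by positivity)]
    have h8 : (v 2 * v (Y n)) ^ 2 ≤ (R * ε) ^ 2 :=
      pow_le_pow_left₀ (by positivity) hs2 2
    calc v (Y n) ^ 2 * v 2 ^ 2 = (v 2 * v (Y n)) ^ 2 := by ring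
      _ ≤ (R * ε) ^ 2 := h8
      _ = (ε * R ^ 2) * ε := by ring
      _ ≤ (ε * R ^ 2) * 1 := by gcongr
      _ = ε * R ^ 2 := mul_one _
  -- the derivative is small
  obtain ⟨G, hG⟩ : ∃ G : K, G = (Y n - Y m) * l := ⟨_, rfl⟩
  have hG2 : G = X n ^ 2 + X n * X m + X m ^ 2 + u * (X n + X m) + w := by
    have : (G - (X n ^ 2 + X n * X m + X m ^ 2 + u * (X n + X m) + w)) * (X n - X m) = 0 := by
      rw [hG]
      linear_combination (Y n - Y m) * hl' + heq n - heq m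
    rcases mul_eq_zero.1 this with h | h
    · linear_combination h
    · exact absurd h hd0
  have hGs : v G ≤ ε * R := by
    rw [hG]
    exact bnd_mul v hc2.le hlR hε0.le
  have hf' : v (3 * X n ^ 2 + 2 * u * X n + w) ≤ ε * R ^ 2 / v 2 ^ 2 := by
    have h9 : 3 * X n ^ 2 + 2 * u * X n + w = G + (X n - X m) * (2 * X n + X m + u) := by
      rw [hG2]; ring
    have h10 : v (2 * X n + X m + u) ≤ R := by
      have := mul_nat_le hna 2 (hXR n)
      push_cast at this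
      exact na_sum hna (na_sum hna this (hXR m)) hu
    have h11 : v (3 * X n ^ 2 + 2 * u * X n + w) ≤ ε * R := by
      rw [h9]
      exact na_sum hna hGs (bnd_mul v hc1.le h10 hε0.le)
    refine h11.trans ?_
    rw [le_div_iff₀ (by positivity)]
    have h12 : v 2 ^ 2 ≤ 1 := by nlinarith
    calc ε * R * v 2 ^ 2 ≤ ε * R * 1 := by gcongr
      _ = ε * R := mul_one _
      _ ≤ ε * R ^ 2 := by gcongr
  have hf : v (X n ^ 3 + u * X n ^ 2 + w * X n) ≤ ε * R ^ 2 / v 2 ^ 2 := by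
    rw [← heq n, map_pow]
    exact hs3
  exact absurd (disc_small hna hR1 (by positivity) hu hw (hXR n) hf' hf) (not_le.2 hε2)

/-- **Multiples arbitrarily close to infinity.** -/
theorem large (hna : IsNonarchimedean v) (h2 : v 2 < 1) (h20 : (2 : K) ≠ 0) (hfin : PreC v)
    {u w : K} (hW : IsA u w W) (hd : w ^ 2 * (u ^ 2 - 4 * w) ≠ 0) (B : W.toAffine.Point)
    (hB : ∀ n : ℕ, 0 < n → n • B ≠ 0) (M : ℝ) :
    ∃ n : ℕ, 0 < n ∧ ∃ x y h, n • B = .some x y h ∧ M < v x := by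
  obtain ⟨n, hn, x, y, h, he, hb⟩ := large₀ hna h20 hfin hW hd B hB
  have hx0 : 0 < v x := (v.nonneg _).trans_lt hb.1
  obtain ⟨h8, h9⟩ := v_two h2 h20
  obtain ⟨k, hk⟩ := exists_pow_lt_of_lt_one (show 0 < v x / (|M| + 1) by positivity) h9
  obtain ⟨x', y', h', e1, e2, -⟩ := double_pow hna h2 h20 hW.a₁ hW.a₃ h hb k
  refine ⟨n * 2 ^ k, by positivity, x', y', h', ?_, ?_⟩
  · rw [mul_nsmul, he, e1]
  · have hM : M ≤ |M| := le_abs_self M
    rw [lt_div_iff₀ (by positivity)] at hk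
    have hp : 0 < (v 2 ^ 2) ^ k := by positivity
    have h3 : (v 2 ^ 2) ^ k * (|M| + 1) < v x' * (v 2 ^ 2) ^ k := by rw [e2]; exact hk
    have h4 : |M| + 1 < v x' := by
      rw [mul_comm] at h3
      exact lt_of_mul_lt_mul_right h3 hp.le
    linarith

end

end Pool.Agent.H51.ZC
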