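import Pool.Agent.H51.ZC.Fam

/-!
# Maps from Legendre curves
-/

set_option autoImplicit false
set_option linter.unusedSectionVars false

open Polynomial WeierstrassCurve

namespace Pool.Agent.H51.ZC

section
variable {F : Type*} [Field F]

/-- a map from the curve `y² = t (t - 1) (t - l)` to `W`, with `(0, 0)` mapped to the point `(e, 0)` -/
structure Leg (l : F) (W : WeierstrassCurve F) (e : F) where
  n : F[X]
  m : F[X]
  d : F[X]
  a₁ : W.a₁ = 0
  a₃ : W.a₃ = 0
  eq : X * (X - 1) * (X - C l) * m ^ 2 * d =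
    n ^ 3 + C W.a₂ * n ^ 2 * d + C W.a₄ * n * d ^ 2 + C W.a₆ * d ^ 3
  d0 : d.eval 0 ≠ 0
  n0 : n.eval 0 = e * d.eval 0
  deg : d.natDegree < n.natDegree

/-- the cubic has the roots `e₁, e₂, e₃` -/
structure Roots (W : WeierstrassCurve F) (e₁ e₂ e₃ : F) : Prop where
  a₁ : W.a₁ = 0
  a₃ : W.a₃ = 0
  a₂ : W.a₂ = -(e₁ + e₂ + e₃)
  a₄ : W.a₄ = e₁ * e₂ + e₁ * e₃ + e₂ * e₃
  a₆ : W.a₆ = -(e₁ * e₂ * e₃)

/-- the Legendre form of the curve -/
noncomputable def Leg.start {W : WeierstrassCurve F} {e₁ e₂ e₃ a l : F} (h : Roots W e₁ e₂ e₃)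
    (ha : a ^ 2 = e₂ - e₁) (ha0 : a ≠ 0) (hl : e₃ - e₁ = l * (e₂ - e₁)) : Leg l W e₁ where
  n := C e₁ + C (a ^ 2) * X
  m := C (a ^ 3)
  d := 1
  a₁ := h.a₁
  a₃ := h.a₃
  eq := by
    have e2 : e₂ = e₁ + a ^ 2 := by linear_combination -ha
    have e3 : e₃ = e₁ + l * a ^ 2 := by linear_combination hl - l * ha
    rw [h.a₂, h.a₄, h.a₆, e2, e3]
    simp only [map_neg, map_add, map_mul, map_pow]
    ring
  d0 := by simp
  n0 := by simp
  deg := by
    rw [natDegree_one, add_comm, natDegree_linear (pow_ne_zero 2 ha0)]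
    exact one_pos

/-- the curve `y² = X (X + (a + b)²) (X + (a - b)²)` -/
def up2 (p q : F) : WeierstrassCurve F := ⟨0, 2 * (p + q), 0, (p - q) ^ 2, 0⟩

lemma up2_roots (a b : F) : Roots (up2 (a ^ 2) (b ^ 2)) (-(a + b) ^ 2) (-(a - b) ^ 2) 0 := by
  refine ⟨rfl, rfl, ?_, ?_, ?_⟩
  · simp only [up2]; ring
  · simp only [up2]; ring
  · simp only [up2]; ring

/-- the push-forward along the isogeny of degree two -/
noncomputable def Leg.push {W : WeierstrassCurve F} {e₁ e₂ e₃ l p q : F} (h : Roots W e₁ e₂ e₃)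
    (hp : p = e₂ - e₁) (hq : q = e₃ - e₁) {e : F} (L : Leg l (up2 p q) e) (he : e ≠ 0)
    (he2 : e ^ 2 + 2 * (p + q) * e + (p - q) ^ 2 = 0) (h2 : (2 : F) ≠ 0) : Leg l W e₁ where
  n := 2 * L.n * (L.n ^ 2 + C (2 * (p + q)) * L.n * L.d + C ((p - q) ^ 2) * L.d ^ 2) +
    C (8 * e₁) * L.n ^ 2 * L.d
  m := L.m * (C ((p - q) ^ 2) * L.d ^ 2 - L.n ^ 2)
  d := C 8 * L.n ^ 2 * L.d
  a₁ := h.a₁
  a₃ := h.a₃
  eq := by
    have e2 : e₂ = e₁ + p := by linear_combination -hp
    have e3 : e₃ = e₁ + q := by linear_combination -hq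
    have k := L.eq
    simp only [up2, C_0, zero_mul, add_zero] at k
    rw [h.a₂, h.a₄, h.a₆, e2, e3]
    simp only [map_neg, map_add, map_mul, map_pow, map_ofNat, map_sub] at k ⊢
    linear_combination (8 * L.n ^ 2 * ((C p - C q) ^ 2 * L.d ^ 2 - L.n ^ 2) ^ 2) * k
  d0 := by
    rw [eval_mul, eval_mul, eval_C, eval_pow, L.n0]
    have h8 : (8 : F) ≠ 0 := by
      have : (8 : F) = 2 ^ 3 := by norm_num
      rw [this]
      exact pow_ne_zero 3 h2
    exact mul_ne_zero (mul_ne_zero h8 (pow_ne_zero 2 (mul_ne_zero he L.d0))) L.d0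
  n0 := by
    simp only [eval_add, eval_mul, eval_pow, eval_C, eval_ofNat, L.n0]
    linear_combination (2 * e * L.d.eval 0 ^ 3) * he2
  deg := by
    have hn := L.deg
    have hn0 : L.n ≠ 0 := by
      rintro h0
      rw [h0, natDegree_zero] at hn
      exact absurd hn (Nat.not_lt_zero _)
    have h20 : (2 : F[X]) ≠ 0 := by
      intro h0
      apply h2
      have := congrArg (eval 0) h0
      simpa using this
    have e1 : 2 * L.n * (L.n ^ 2 + C (2 * (p + q)) * L.n * L.d + C ((p - q) ^ 2) * L.d ^ 2) +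
        C (8 * e₁) * L.n ^ 2 * L.d = C 2 * L.n ^ 3 + (C (4 * (p + q) + 8 * e₁) * L.n ^ 2 * L.d +
          C (2 * (p - q) ^ 2) * L.n * L.d ^ 2) := by
      simp only [map_add, map_mul, map_pow, map_ofNat, map_sub]
      ring
    have hd3 : (C (2 : F) * L.n ^ 3).natDegree = 3 * L.n.natDegree := by
      rw [natDegree_C_mul h2, natDegree_pow]
    have b1 : (C (8 : F) * L.n ^ 2 * L.d).natDegree < 3 * L.n.natDegree := by
      calc (C (8 : F) * L.n ^ 2 * L.d).natDegree ≤ (C (8 : F) * L.n ^ 2).natDegree + L.d.natDegree :=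
            natDegree_mul_le
        _ ≤ (L.n ^ 2).natDegree + L.d.natDegree := by
          gcongr
          exact natDegree_C_mul_le _ _
        _ = 2 * L.n.natDegree + L.d.natDegree := by rw [natDegree_pow]
        _ < _ := by omega
    have b2 : (C (4 * (p + q) + 8 * e₁) * L.n ^ 2 * L.d).natDegree < 3 * L.n.natDegree := by
      calc _ ≤ (C (4 * (p + q) + 8 * e₁) * L.n ^ 2).natDegree + L.d.natDegree := natDegree_mul_le
        _ ≤ (L.n ^ 2).natDegree + L.d.natDegree := by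
          gcongr
          exact natDegree_C_mul_le _ _
        _ = 2 * L.n.natDegree + L.d.natDegree := by rw [natDegree_pow]
        _ < _ := by omega
    have b3 : (C (2 * (p - q) ^ 2) * L.n * L.d ^ 2).natDegree < 3 * L.n.natDegree := by
      calc _ ≤ (C (2 * (p - q) ^ 2) * L.n).natDegree + (L.d ^ 2).natDegree := natDegree_mul_le
        _ ≤ L.n.natDegree + (L.d ^ 2).natDegree := by
          gcongr
          exact natDegree_C_mul_le _ _
        _ = L.n.natDegree + 2 * L.d.natDegree := by rw [natDegree_pow]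
        _ < _ := by omega
    have b4 : (C (4 * (p + q) + 8 * e₁) * L.n ^ 2 * L.d + C (2 * (p - q) ^ 2) * L.n * L.d ^ 2).natDegree <
        (C (2 : F) * L.n ^ 3).natDegree := by
      rw [hd3]
      exact (natDegree_add_le _ _).trans_lt (max_lt b2 b3)
    rw [e1, natDegree_add_eq_left_of_natDegree_lt b4, hd3]
    exact b1

end

end Pool.Agent.H51.ZC
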