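import Pool.Agent.H51.ZC.Leg

/-!
# Two maps from Legendre curves are linked
-/

set_option autoImplicit false
set_option linter.unusedSectionVars false

open Polynomial WeierstrassCurve

namespace Pool.Agent.H51.ZC

section
variable {F : Type*} [Field F]

/-- the homogeneous form of `p` of degree `k` at `A, B` -/
noncomputable def hom (k : ℕ) (p A B : F[X]) : F[X] :=
  ∑ i ∈ Finset.range (k + 1), C (p.coeff i) * A ^ i * B ^ (k - i)

lemma eval_hom {k : ℕ} {p A B : F[X]} (hk : p.natDegree ≤ k) {s x : F}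
    (hx : A.eval s = x * B.eval s) : (hom k p A B).eval s = B.eval s ^ k * p.eval x := by
  unfold hom
  rw [eval_finsetSum, eval_eq_sum_range' (p := p) (n := k + 1) (by omega) x, Finset.mul_sum]
  refine Finset.sum_congr rfl fun i hi => ?_
  have hik : i ≤ k := Nat.lt_succ_iff.1 (Finset.mem_range.1 hi)
  rw [eval_mul, eval_mul, eval_C, eval_pow, eval_pow, hx]
  obtain ⟨j, rfl⟩ := Nat.exists_eq_add_of_le hik
  rw [Nat.add_sub_cancel_left]
  ring

/-- the value at `μ` -/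
def Leg.At {l : F} {W : WeierstrassCurve F} {e : F} (L : Leg l W e) (μ : F) (P : W.toAffine.Point) :
    Prop :=
  L.d.eval μ ≠ 0 ∧ ∃ y : F, y ^ 2 = μ * (μ - 1) * (μ - l) ∧
    ∃ h, P = .some (L.n.eval μ / L.d.eval μ) (y * L.m.eval μ / L.d.eval μ) h

lemma poly_eq [Infinite F] {p q B : F[X]} (hB : B ≠ 0)
    (h : ∀ s, B.eval s ≠ 0 → p.eval s = q.eval s) : p = q := by
  refine eq_of_infinite_eval_eq p q ?_
  refine Set.Infinite.mono (s := {s | B.eval s ≠ 0}) (fun s hs => h s hs) ?_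
  have hfin : {s | B.eval s = 0}.Finite := by
    have := finite_setOfPred_isRoot hB
    exact this
  have := hfin.infinite_compl
  exact this

lemma B_ne : (X ^ 2 - 1 : F[X]) ≠ 0 := by
  intro h
  have := congrArg (eval 0) h
  simp at this

/-- the family for `l ≠ l'` -/
noncomputable def famL [Infinite F] {l l' : F} {W W' : WeierstrassCurve F} {e e' : F}
    (L : Leg l W e) (L' : Leg l' W' e') (k : ℕ)
    (hn : L.n.natDegree ≤ k) (hm : L.m.natDegree ≤ k) (hd : L.d.natDegree ≤ k)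
    (hn' : L'.n.natDegree ≤ k) (hm' : L'.m.natDegree ≤ k) (hd' : L'.d.natDegree ≤ k) :
    Family W W' where
  h := (C l * X ^ 2 - C l') * ((C (l - 1)) * X ^ 2 + C (1 - l')) * C (l - l') * (X ^ 2 - 1)
  d := (X ^ 2 - 1) ^ 2 * hom k L.d (C l * X ^ 2 - C l') (X ^ 2 - 1) *
    hom k L'.d (C l * X ^ 2 - C l') (X ^ 2 - 1)
  n₁ := (X ^ 2 - 1) ^ 2 * hom k L.n (C l * X ^ 2 - C l') (X ^ 2 - 1) *
    hom k L'.d (C l * X ^ 2 - C l') (X ^ 2 - 1)
  m₁ := hom k L.m (C l * X ^ 2 - C l') (X ^ 2 - 1) * hom k L'.d (C l * X ^ 2 - C l') (X ^ 2 - 1)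
  n₂ := (X ^ 2 - 1) ^ 2 * hom k L'.n (C l * X ^ 2 - C l') (X ^ 2 - 1) *
    hom k L.d (C l * X ^ 2 - C l') (X ^ 2 - 1)
  m₂ := X * hom k L'.m (C l * X ^ 2 - C l') (X ^ 2 - 1) *
    hom k L.d (C l * X ^ 2 - C l') (X ^ 2 - 1)
  short₁ := ⟨L.a₁, L.a₃⟩
  short₂ := ⟨L'.a₁, L'.a₃⟩
  eq₁ := by
    refine poly_eq B_ne fun s hs => ?_
    obtain ⟨x, hx⟩ : ∃ x : F, x = (C l * X ^ 2 - C l').eval s / (X ^ 2 - 1 : F[X]).eval s := ⟨_, rfl⟩
    have hx' : (C l * X ^ 2 - C l').eval s = x * (X ^ 2 - 1 : F[X]).eval s := by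
      rw [hx, div_mul_cancel₀ _ hs]
    have k1 := congrArg (eval x) L.eq
    simp only [eval_add, eval_mul, eval_pow, eval_C, eval_X, eval_sub, eval_one] at k1
    simp only [eval_add, eval_mul, eval_pow, eval_C, eval_hom hn hx', eval_hom hm hx',
      eval_hom hd hx', eval_hom hd' hx']
    simp only [eval_mul, eval_pow, eval_C, eval_X, eval_sub, eval_one] at hx' hs ⊢
    obtain ⟨β, hβ⟩ : ∃ β : F, β = s ^ 2 - 1 := ⟨_, rfl⟩
    obtain ⟨bk, hbk⟩ : ∃ bk : F, bk = (s ^ 2 - 1) ^ k := ⟨_, rfl⟩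
    rw [← hbk]
    rw [← hβ] at hx' ⊢
    have f1 : l * s ^ 2 - l' = x * β := hx'
    have f2 : (l - 1) * s ^ 2 + (1 - l') = (x - 1) * β := by linear_combination f1 + hβ
    have f3 : l - l' = (x - l) * β := by linear_combination f1 + l * hβ
    rw [f1, f2, f3]
    linear_combination (β ^ 6 * bk ^ 6 * (eval x L'.d) ^ 3) * k1
  eq₂ := by
    refine poly_eq B_ne fun s hs => ?_
    obtain ⟨x, hx⟩ : ∃ x : F, x = (C l * X ^ 2 - C l').eval s / (X ^ 2 - 1 : F[X]).eval s := ⟨_, rfl⟩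
    have hx' : (C l * X ^ 2 - C l').eval s = x * (X ^ 2 - 1 : F[X]).eval s := by
      rw [hx, div_mul_cancel₀ _ hs]
    have k1 := congrArg (eval x) L'.eq
    simp only [eval_add, eval_mul, eval_pow, eval_C, eval_X, eval_sub, eval_one] at k1
    simp only [eval_add, eval_mul, eval_pow, eval_C, eval_hom hn' hx', eval_hom hm' hx',
      eval_hom hd hx', eval_hom hd' hx']
    simp only [eval_mul, eval_pow, eval_C, eval_X, eval_sub, eval_one] at hx' hs ⊢
    obtain ⟨β, hβ⟩ : ∃ β : F, β = s ^ 2 - 1 := ⟨_, rfl⟩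
    obtain ⟨bk, hbk⟩ : ∃ bk : F, bk = (s ^ 2 - 1) ^ k := ⟨_, rfl⟩
    rw [← hbk]
    rw [← hβ] at hx' ⊢
    have f1 : l * s ^ 2 - l' = x * β := hx'
    have f2 : (l - 1) * s ^ 2 + (1 - l') = (x - 1) * β := by linear_combination f1 + hβ
    have f3 : l - l' = (x - l) * β := by linear_combination f1 + l * hβ
    have f4 : (x - l) * s ^ 2 = x - l' := by
      have hβ0 : β ≠ 0 := by rw [hβ]; exact hs
      apply mul_right_cancel₀ hβ0
      linear_combination -s ^ 2 * f3 + f1 + l' * hβ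
    rw [f1, f2, f3]
    linear_combination (β ^ 6 * bk ^ 6 * (eval x L.d) ^ 3) * k1 +
      (β ^ 6 * bk ^ 6 * (eval x L.d) ^ 3 * x * (x - 1) * (eval x L'.m) ^ 2 * eval x L'.d) * f4

/-- the family for `l = l'` -/
noncomputable def famD {l : F} {W W' : WeierstrassCurve F} {e e' : F}
    (L : Leg l W e) (L' : Leg l W' e') : Family W W' where
  h := X * (X - 1) * (X - C l)
  d := L.d * L'.d
  n₁ := L.n * L'.d
  m₁ := L.m * L'.d
  n₂ := L'.n * L.d
  m₂ := L'.m * L.d
  short₁ := ⟨L.a₁, L.a₃⟩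
  short₂ := ⟨L'.a₁, L'.a₃⟩
  eq₁ := by linear_combination L'.d ^ 3 * L.eq
  eq₂ := by linear_combination L.d ^ 3 * L'.eq

variable [DecidableEq F] {W W' : WeierstrassCurve F}

/-- **Two points with the same coordinate are linked.** -/
theorem Leg.link [IsAlgClosed F] {l l' : F} {e e' : F} (L : Leg l W e) (L' : Leg l' W' e')
    (hΔ : W.Δ ≠ 0) (hΔ' : W'.Δ ≠ 0) (hl : l ≠ 0) {μ : F} (hy0 : μ * (μ - 1) * (μ - l) ≠ 0)
    {P : W.toAffine.Point} {P' : W'.toAffine.Point} (hP : L.At μ P) (hP' : L'.At μ P') :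
    Linked P P' := by
  obtain ⟨hd, y, hy, h, rfl⟩ := hP
  obtain ⟨hd', y', hy', h', rfl⟩ := hP'
  have hyne : y ≠ 0 := by
    rintro rfl
    exact hy0 (by rw [← hy]; ring)
  by_cases hll : l = l'
  · subst hll
    have hyy : y' = y ∨ y' = -y := sq_eq_sq_iff_eq_or_eq_neg.1 (by rw [hy, hy'])
    obtain ⟨T, T', hT1, hT2⟩ := base (famD L L') (s := 0)
      (by simp only [famD, eval_mul]; exact mul_ne_zero L.d0 L'.d0)
      (by simp only [famD, eval_mul, eval_X, zero_mul]) hΔ hΔ'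
    rcases hyy with rfl | rfl
    · refine ⟨famD L L', μ, 0, T, T', over_mk (famD L L') (y := y') ?_ ?_ ?_ ?_ ?_ ?_ h h', hT1, hT2⟩ <;>
        simp only [famD, eval_mul, eval_sub, eval_X, eval_one, eval_C]
      · exact mul_ne_zero hd hd'
      · exact hy
      · field_simp
      · field_simp
      · field_simp
      · field_simp
    · -- change the sign of the second map
      let L'' : Leg l W' e' := { L' with
        m := -L'.m
        eq := by linear_combination L'.eq }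
      obtain ⟨T, T', hT1, hT2⟩ := base (famD L L'') (s := 0)
        (by simp only [famD, eval_mul]; exact mul_ne_zero L.d0 L'.d0)
        (by simp only [famD, eval_mul, eval_X, zero_mul]) hΔ hΔ'
      refine ⟨famD L L'', μ, 0, T, T', over_mk (famD L L'') (y := y) ?_ ?_ ?_ ?_ ?_ ?_ h h', hT1, hT2⟩ <;>
        simp only [famD, L'', eval_mul, eval_sub, eval_X, eval_one, eval_C, eval_neg]
      · exact mul_ne_zero hd hd'
      · exact hy
      · field_simp
      · field_simp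
      · field_simp
      · field_simp
  · have hl0 : l - l' ≠ 0 := sub_ne_zero.2 hll
    obtain ⟨k, hk⟩ : ∃ k : ℕ, L.n.natDegree ≤ k ∧ L.m.natDegree ≤ k ∧ L.d.natDegree ≤ k ∧
        L'.n.natDegree ≤ k ∧ L'.m.natDegree ≤ k ∧ L'.d.natDegree ≤ k :=
      ⟨L.n.natDegree + L.m.natDegree + L.d.natDegree + L'.n.natDegree + L'.m.natDegree +
        L'.d.natDegree, by omega, by omega, by omega, by omega, by omega, by omega⟩
    obtain ⟨hn1, hm1, hd1, hn2, hm2, hd2⟩ := hk
    obtain ⟨s₀, hs₀⟩ := IsAlgClosed.exists_pow_nat_eq (l' / l) (n := 2) two_pos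
    have hs₀' : l * s₀ ^ 2 = l' := by rw [hs₀]; field_simp
    have hB0 : (X ^ 2 - 1 : F[X]).eval s₀ ≠ 0 := by
      simp only [eval_sub, eval_pow, eval_X, eval_one]
      intro h0
      apply hl0
      linear_combination hs₀' - l * h0
    have hA0 : (C l * X ^ 2 - C l').eval s₀ = 0 * (X ^ 2 - 1 : F[X]).eval s₀ := by
      simp only [eval_sub, eval_mul, eval_C, eval_pow, eval_X, eval_one, zero_mul]
      linear_combination hs₀'
    obtain ⟨T, T', hT1, hT2⟩ := base (famL L L' k hn1 hm1 hd1 hn2 hm2 hd2) (s := s₀)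
      (by
        simp only [famL, eval_mul, eval_pow, eval_hom hd1 hA0, eval_hom hd2 hA0]
        exact mul_ne_zero (mul_ne_zero (pow_ne_zero 2 hB0) (mul_ne_zero (pow_ne_zero k hB0) L.d0))
          (mul_ne_zero (pow_ne_zero k hB0) L'.d0))
      (by simp only [famL, eval_mul, hA0, zero_mul]) hΔ hΔ'
    -- the parameter
    have hμl : μ - l ≠ 0 := right_ne_zero_of_mul hy0
    obtain ⟨s, hs⟩ : ∃ s : F, s = y' / y := ⟨_, rfl⟩
    have hsy : y' = s * y := by rw [hs]; field_simp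
    have hs2 : s ^ 2 * (μ - l) = μ - l' := by
      have h1 : (s ^ 2 * (μ - l) - (μ - l')) * (μ * (μ - 1)) = 0 := by
        have : s ^ 2 * y ^ 2 = y' ^ 2 := by rw [hsy]; ring
        rw [hy, hy'] at this
        linear_combination this
      rcases mul_eq_zero.1 h1 with h2 | h2
      · linear_combination h2
      · exact absurd h2 (left_ne_zero_of_mul hy0)
    have hβ : (s ^ 2 - 1) * (μ - l) = l - l' := by linear_combination hs2
    have hBe : (X ^ 2 - 1 : F[X]).eval s = s ^ 2 - 1 := by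
      simp only [eval_sub, eval_pow, eval_X, eval_one]
    have hB : s ^ 2 - 1 ≠ 0 := by
      intro h0
      apply hl0
      rw [← hβ, h0, zero_mul]
    have hAe : (C l * X ^ 2 - C l').eval s = μ * (X ^ 2 - 1 : F[X]).eval s := by
      simp only [eval_sub, eval_mul, eval_C, eval_pow, eval_X, eval_one]
      linear_combination -hs2
    have hAe' : l * s ^ 2 - l' = μ * (s ^ 2 - 1) := by linear_combination -hs2
    refine ⟨famL L L' k hn1 hm1 hd1 hn2 hm2 hd2, s, s₀, T, T',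
      over_mk (famL L L' k hn1 hm1 hd1 hn2 hm2 hd2) (y := y * (s ^ 2 - 1) ^ 2) ?_ ?_ ?_ ?_ ?_ ?_ h h',
      hT1, hT2⟩ <;>
      simp only [famL, eval_mul, eval_add, eval_pow, eval_hom hn1 hAe, eval_hom hm1 hAe,
        eval_hom hd1 hAe, eval_hom hn2 hAe, eval_hom hm2 hAe, eval_hom hd2 hAe, hBe, eval_X, eval_C,
        eval_sub, eval_one]
    · exact mul_ne_zero (mul_ne_zero (pow_ne_zero 2 hB) (mul_ne_zero (pow_ne_zero k hB) hd))
          (mul_ne_zero (pow_ne_zero k hB) hd')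
    · have f2 : (l - 1) * s ^ 2 + (1 - l') = (μ - 1) * (s ^ 2 - 1) := by linear_combination hAe'
      rw [hAe', f2, ← hβ]
      linear_combination (s ^ 2 - 1) ^ 4 * hy
    · field_simp
    · field_simp
    · field_simp
    · rw [hsy]
      field_simp

end

end Pool.Agent.H51.ZC
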