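import Pool.Agent.H51.ZC.Fam

/-!
# Points close to the point at infinity at a place above two
-/

set_option autoImplicit false
set_option linter.unusedSectionVars false

open WeierstrassCurve

namespace Pool.Agent.H51.ZC

section
variable {K : Type*} [Field K] {v : AbsoluteValue K ℝ}

lemma na_lt (hna : IsNonarchimedean v) {r s : K} (h : v r < v s) : v (s + r) = v s := by
  have h1 := hna s r
  have h2 := hna (s + r) (-r)
  rw [add_neg_cancel_right, v.map_neg] at h2
  rw [max_eq_left h.le] at h1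
  rcases le_max_iff.1 h2 with h3 | h3
  · exact le_antisymm h1 h3
  · exact absurd h3 (not_le.2 h)

lemma na_sum (hna : IsNonarchimedean v) {r s : K} {M : ℝ} (hr : v r ≤ M) (hs : v s ≤ M) :
    v (r + s) ≤ M := (hna r s).trans (max_le hr hs)

lemma na_sub (hna : IsNonarchimedean v) {r s : K} {M : ℝ} (hr : v r ≤ M) (hs : v s ≤ M) :
    v (r - s) ≤ M := by
  rw [sub_eq_add_neg]
  exact na_sum hna hr (by rwa [v.map_neg])

lemma na_sum' (hna : IsNonarchimedean v) {r s : K} {M : ℝ} (hr : v r < M) (hs : v s < M) :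
    v (r + s) < M := (hna r s).trans_lt (max_lt hr hs)

lemma na_sub' (hna : IsNonarchimedean v) {r s : K} {M : ℝ} (hr : v r < M) (hs : v s < M) :
    v (r - s) < M := by
  rw [sub_eq_add_neg]
  exact na_sum' hna hr (by rwa [v.map_neg])

lemma na_nat (hna : IsNonarchimedean v) (n : ℕ) : v (n : K) ≤ 1 := hna.apply_natCast_le_one

lemma mul_nat_lt (hna : IsNonarchimedean v) (n : ℕ) {r : K} {M : ℝ} (h : v r < M) :
    v ((n : K) * r) < M := by
  rw [map_mul]
  calc v (n : K) * v r ≤ 1 * v r := mul_le_mul_of_nonneg_right (na_nat hna n) (v.nonneg _)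
    _ < M := by rwa [one_mul]

lemma mul_nat_le (hna : IsNonarchimedean v) (n : ℕ) {r : K} {M : ℝ} (h : v r ≤ M) :
    v ((n : K) * r) ≤ M := by
  rw [map_mul]
  calc v (n : K) * v r ≤ 1 * v r := mul_le_mul_of_nonneg_right (na_nat hna n) (v.nonneg _)
    _ ≤ M := by rwa [one_mul]

variable [DecidableEq K] {W : WeierstrassCurve K}

/-- the point is close to the point at infinity -/
def Big (v : AbsoluteValue K ℝ) (W : WeierstrassCurve K) (x : K) : Prop :=
  v W.a₂ < v x ∧ v W.a₄ < v x ^ 2 ∧ v W.a₆ < v x ^ 3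

lemma v_two (h2 : v 2 < 1) (h20 : (2 : K) ≠ 0) : 0 < v 2 ∧ v 2 ^ 2 < 1 := by
  have h0 : 0 < v 2 := v.pos h20
  exact ⟨h0, by nlinarith⟩

/-- **Doubling a point close to infinity.** -/
theorem double (hna : IsNonarchimedean v) (h2 : v 2 < 1) (h20 : (2 : K) ≠ 0)
    (h1 : W.a₁ = 0) (h3 : W.a₃ = 0) {x y : K} (h : W.toAffine.Nonsingular x y) (hb : Big v W x) :
    ∃ x' y' h', 2 • (Affine.Point.some x y h : W.toAffine.Point) = Affine.Point.some x' y' h' ∧
      v x' * v 2 ^ 2 = v x ∧ Big v W x' := by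
  obtain ⟨b1, b2, b3⟩ := hb
  have hx0 : 0 < v x := (v.nonneg _).trans_lt b1
  have he := (eqn_iff h1 h3).1 h.1
  have t1 : v (W.a₂ * x ^ 2) < v x ^ 3 := by
    rw [map_mul, map_pow]
    calc v W.a₂ * v x ^ 2 < v x * v x ^ 2 := by gcongr
      _ = v x ^ 3 := by ring
  have t2 : v (W.a₄ * x) < v x ^ 3 := by
    rw [map_mul]
    calc v W.a₄ * v x < v x ^ 2 * v x := by gcongr
      _ = v x ^ 3 := by ring
  have hy : v (y ^ 2) = v x ^ 3 := by
    rw [he, add_assoc, add_assoc, ← map_pow]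
    refine na_lt hna ?_
    rw [map_pow]
    exact na_sum' hna t1 (na_sum' hna t2 b3)
  have hy0 : y ≠ 0 := by
    rintro rfl
    rw [zero_pow two_ne_zero, map_zero] at hy
    exact absurd hy (pow_pos hx0 3).ne
  have hneg : W.toAffine.negY x y = -y := by simp [Affine.negY, h1, h3]
  have hyn : y ≠ W.toAffine.negY x y := by
    rw [hneg]
    intro h4
    have : 2 * y = 0 := by linear_combination h4
    rcases mul_eq_zero.1 this with h5 | h5
    · exact h20 h5
    · exact hy0 h5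
  have hadd := Affine.Point.add_self_of_Y_ne (h₁ := h) hyn
  rw [← two_nsmul] at hadd
  refine ⟨_, _, _, hadd, ?_, ?_⟩
  all_goals
    have hX : W.toAffine.addX x x (W.toAffine.slope x x y y) * (4 * y ^ 2) =
        x ^ 4 + -(2 * (W.a₄ * x ^ 2) + 8 * (W.a₆ * x) - W.a₄ ^ 2 + 4 * (W.a₂ * W.a₆)) := by
      have hsl : W.toAffine.slope x x y y = (3 * x ^ 2 + 2 * W.a₂ * x + W.a₄) / (2 * y) := by
        rw [Affine.slope_of_Y_ne rfl hyn, hneg, h1]
        congr 1 <;> ring
      have hadX : W.toAffine.addX x x (W.toAffine.slope x x y y) =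
          ((3 * x ^ 2 + 2 * W.a₂ * x + W.a₄) / (2 * y)) ^ 2 - W.a₂ - 2 * x := by
        rw [hsl, Affine.addX, h1]
        ring
      rw [hadX]
      field_simp
      linear_combination (-16 * (W.a₂ + 2 * x)) * he
    have hX2 : v (W.toAffine.addX x x (W.toAffine.slope x x y y)) * v 2 ^ 2 = v x := by
      have h4 := congrArg v hX
      have t3 : v (W.a₄ * x ^ 2) < v x ^ 4 := by
        rw [map_mul, map_pow]
        calc v W.a₄ * v x ^ 2 < v x ^ 2 * v x ^ 2 := by gcongr
          _ = v x ^ 4 := by ring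
      have t4 : v (W.a₆ * x) < v x ^ 4 := by
        rw [map_mul]
        calc v W.a₆ * v x < v x ^ 3 * v x := by gcongr
          _ = v x ^ 4 := by ring
      have t5 : v (W.a₄ ^ 2) < v x ^ 4 := by
        rw [map_pow]
        calc v W.a₄ ^ 2 < (v x ^ 2) ^ 2 := by gcongr
          _ = v x ^ 4 := by ring
      have t6 : v (W.a₂ * W.a₆) < v x ^ 4 := by
        rw [map_mul]
        calc v W.a₂ * v W.a₆ ≤ v x * v W.a₆ := by gcongr
          _ < v x * v x ^ 3 := by gcongr
          _ = v x ^ 4 := by ring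
      have t7 : v (-(2 * (W.a₄ * x ^ 2) + 8 * (W.a₆ * x) - W.a₄ ^ 2 + 4 * (W.a₂ * W.a₆))) < v (x ^ 4) := by
        rw [v.map_neg, map_pow]
        have n2 := mul_nat_lt hna 2 t3
        have n8 := mul_nat_lt hna 8 t4
        have n4 := mul_nat_lt hna 4 t6
        push_cast at n2 n8 n4
        exact na_sum' hna (na_sub' hna (na_sum' hna n2 n8) t5) n4
      rw [na_lt hna t7, map_mul, map_mul, hy, map_pow] at h4
      have h5 : v (4 : K) = v 2 ^ 2 := by rw [← map_pow]; norm_num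
      rw [h5] at h4
      have h6 : v x ^ 3 ≠ 0 := (pow_pos hx0 3).ne'
      apply mul_right_cancel₀ h6
      linear_combination h4
  · exact hX2
  · have h7 : v x ≤ v (W.toAffine.addX x x (W.toAffine.slope x x y y)) := by
      obtain ⟨h8, h9⟩ := v_two h2 h20
      calc v x = v (W.toAffine.addX x x (W.toAffine.slope x x y y)) * v 2 ^ 2 := hX2.symm
        _ ≤ v (W.toAffine.addX x x (W.toAffine.slope x x y y)) * 1 :=
          mul_le_mul_of_nonneg_left h9.le (v.nonneg _)
        _ = _ := mul_one _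
    exact ⟨b1.trans_le h7, b2.trans_le (by gcongr), b3.trans_le (by gcongr)⟩

/-- iterated doubling -/
theorem double_pow (hna : IsNonarchimedean v) (h2 : v 2 < 1) (h20 : (2 : K) ≠ 0)
    (h1 : W.a₁ = 0) (h3 : W.a₃ = 0) {x y : K} (h : W.toAffine.Nonsingular x y) (hb : Big v W x)
    (k : ℕ) : ∃ x' y' h', 2 ^ k • (Affine.Point.some x y h : W.toAffine.Point) =
      Affine.Point.some x' y' h' ∧ v x' * (v 2 ^ 2) ^ k = v x ∧ Big v W x' := by
  induction k with
  | zero => exact ⟨x, y, h, by simp, by simp, hb⟩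
  | succ k ih =>
    obtain ⟨x', y', h', e1, e2, e3⟩ := ih
    obtain ⟨x'', y'', h'', f1, f2, f3⟩ := double hna h2 h20 h1 h3 h' e3
    refine ⟨x'', y'', h'', ?_, ?_, f3⟩
    · rw [pow_succ, mul_nsmul, e1, f1]
    · rw [pow_succ, ← e2, ← f2]
      ring

/-- **A point close to infinity has infinite order.** -/
theorem inf_order (hna : IsNonarchimedean v) (h2 : v 2 < 1) (h20 : (2 : K) ≠ 0)
    (h1 : W.a₁ = 0) (h3 : W.a₃ = 0) {x y : K} (h : W.toAffine.Nonsingular x y) (hb : Big v W x)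
    (n : ℕ) (hn : 0 < n) : n • (Affine.Point.some x y h : W.toAffine.Point) ≠ 0 := by
  intro h0
  set P : W.toAffine.Point := Affine.Point.some x y h
  have hfin : ∃ j k : ℕ, j ≠ k ∧ 2 ^ j % n = 2 ^ k % n := by
    obtain ⟨j, k, hjk, he⟩ := Finite.exists_ne_map_eq_of_infinite
      (fun k : ℕ => (⟨2 ^ k % n, Nat.mod_lt _ hn⟩ : Fin n))
    exact ⟨j, k, hjk, congrArg Fin.val he⟩
  obtain ⟨j, k, hjk, he⟩ := hfin
  have hmod : ∀ m : ℕ, m • P = (m % n) • P := fun m => by
    conv_lhs => rw [← Nat.div_add_mod m n, add_nsmul, mul_comm, mul_nsmul', h0, smul_zero, zero_add]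
  have heq : 2 ^ j • P = 2 ^ k • P := by rw [hmod (2 ^ j), hmod (2 ^ k), he]
  obtain ⟨x1, y1, g1, e1, e2, -⟩ := double_pow hna h2 h20 h1 h3 h hb j
  obtain ⟨x2, y2, g2, f1, f2, -⟩ := double_pow hna h2 h20 h1 h3 h hb k
  have h4 : (Affine.Point.some x1 y1 g1 : W.toAffine.Point) = Affine.Point.some x2 y2 g2 := by
    rw [← e1, ← f1]
    exact heq
  have h5 : x1 = x2 := (Affine.Point.some.inj h4).1
  subst h5
  have hx0 : 0 < v x := (v.nonneg _).trans_lt hb.1
  have hx1 : 0 < v x1 := by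
    rcases (v.nonneg x1).lt_or_eq with h6 | h6
    · exact h6
    · rw [← h6, zero_mul] at e2
      exact absurd e2.symm hx0.ne'
  have h7 : (v 2 ^ 2) ^ j = (v 2 ^ 2) ^ k := by
    apply mul_left_cancel₀ hx1.ne'
    rw [e2, f2]
  obtain ⟨h8, h9⟩ := v_two h2 h20
  exact hjk (pow_right_injective₀ (by positivity) h9.ne h7)

end

end Pool.Agent.H51.ZC
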