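import Pool.Agent.H51.ZC.Cycles
import Pool.Agent.H51.ZC.Params

/-!
# The theorem
-/

set_option autoImplicit false
set_option linter.unusedSectionVars false

open WeierstrassCurve Polynomial

namespace Pool.Agent.H51.ZC

section
variable {K : Type*} [Field K] {F : Type*} [Field F] (φ : K →+* F)

lemma dd_map (u w x : K) : φ (dd u w x) = dd (φ u) (φ w) (φ x) := by
  simp only [dd, map_add, map_mul, map_pow]

lemma IsA.map {u w : K} {W : WeierstrassCurve K} (h : IsA u w W) : IsA (φ u) (φ w) (W.map φ) := by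
  refine ⟨?_, ?_, ?_, ?_, ?_⟩
  · rw [WeierstrassCurve.map_a₁, h.a₁, map_zero]
  · rw [WeierstrassCurve.map_a₂, h.a₂]
  · rw [WeierstrassCurve.map_a₃, h.a₃, map_zero]
  · rw [WeierstrassCurve.map_a₄, h.a₄]
  · rw [WeierstrassCurve.map_a₆, h.a₆, map_zero]

lemma IsB.map {u w x₀ c : K} {W : WeierstrassCurve K} (h : IsB u w x₀ c W) :
    IsB (φ u) (φ w) (φ x₀) (φ c) (W.map φ) := by
  refine ⟨?_, ?_, ?_, ?_, ?_⟩
  · rw [WeierstrassCurve.map_a₁, h.a₁, map_zero]
  · rw [WeierstrassCurve.map_a₂, h.a₂]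
    simp only [al, map_add, map_mul, map_pow, map_ofNat]
  · rw [WeierstrassCurve.map_a₃, h.a₃, map_zero]
  · rw [WeierstrassCurve.map_a₄, h.a₄]
    simp only [be, dd, map_add, map_mul, map_pow, map_ofNat]
  · rw [WeierstrassCurve.map_a₆, h.a₆]
    simp only [ga, dd, map_add, map_mul, map_pow]

lemma delta_map {W : WeierstrassCurve K} (h : W.Δ ≠ 0) : (W.map φ).Δ ≠ 0 := by
  rw [WeierstrassCurve.map_Δ]
  exact (map_ne_zero φ).2 h

end

section
variable {F : Type*} [Field F] [DecidableEq F]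

/-- a point is linked with itself -/
theorem diag_link [IsAlgClosed F] {W : WeierstrassCurve F} (h1 : W.a₁ = 0) (h3 : W.a₃ = 0)
    (hΔ : W.Δ ≠ 0) {P : W.toAffine.Point} (hP : P ≠ 0) : Linked P P := by
  rcases P with _ | ⟨x, y, h⟩
  · exact absurd rfl hP
  let f : Family W W :=
    { h := X ^ 3 + C W.a₂ * X ^ 2 + C W.a₄ * X + C W.a₆
      d := 1
      n₁ := X
      m₁ := 1
      n₂ := X
      m₂ := 1
      short₁ := ⟨h1, h3⟩
      short₂ := ⟨h1, h3⟩
      eq₁ := by ring
      eq₂ := by ring }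
  obtain ⟨s, hs⟩ := IsAlgClosed.exists_root (X ^ 3 + C W.a₂ * X ^ 2 + C W.a₄ * X + C W.a₆ : F[X])
    (by
      have : (X ^ 3 + C W.a₂ * X ^ 2 + C W.a₄ * X + C W.a₆ : F[X]).degree = 3 := by compute_degree!
      rw [this]
      norm_num)
  obtain ⟨T, T', hT1, hT2⟩ := base f (s := s) (by simp [f]) hs hΔ hΔ
  refine ⟨f, x, s, T, T', over_mk f (y := y) ?_ ?_ ?_ ?_ ?_ ?_ h h, hT1, hT2⟩ <;>
    simp only [f, eval_add, eval_mul, eval_pow, eval_C, eval_X, eval_one, mul_one]
  · exact one_ne_zero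
  · exact (eqn_iff h1 h3).1 h.1

end

/-- **Theorem.** -/
theorem main (K : Type*) [Field K] [NumberField K] [DecidableEq K] (F : Type*) [Field F]
    [DecidableEq F] [Algebra K F] [IsAlgClosed F] {u w : K} (hw : w ≠ 0) (huw : u ^ 2 - 4 * w ≠ 0)
    {W : WeierstrassCurve K} (hW : IsA u w W)
    (A B : W.toAffine.Point) (hA : 2 • A ≠ 0) (hB : ∀ n : ℕ, 0 < n → n • B ≠ 0) :
    ∃ (E : ℕ → WeierstrassCurve K) (Q : ∀ i, (E i).toAffine.Point),
      (∀ o, (crv W E o).Δ ≠ 0) ∧
      (Function.Injective fun o => (crv W E o).c₄ ^ 3 / (crv W E o).Δ) ∧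
      (∀ i, ∀ n : ℕ, 0 < n → n • Q i ≠ 0) ∧
      (∀ i, Rel (bc F W A) (bc F (E i) (Q i))) ∧ (∀ i, Rel (bc F W B) (bc F (E i) (Q i))) ∧
      ∀ i j, Rel (bc F (E i) (Q i)) (bc F (E j) (Q j)) := by
  have hd : w ^ 2 * (u ^ 2 - 4 * w) ≠ 0 := mul_ne_zero (pow_ne_zero 2 hw) huw
  have h16 : (16 : K) ≠ 0 := by norm_num
  have hΔ : W.Δ ≠ 0 := by
    rw [delta_A hW]
    exact mul_ne_zero h16 hd
  rcases A with _ | ⟨a, b, hab⟩
  · exact absurd (smul_zero 2) hA
  have hb : b ≠ 0 := fun h => hA (two_smul_some' hW.a₁ hW.a₃ hab h)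
  have he : b ^ 2 = a ^ 3 + u * a ^ 2 + w * a := by
    have := (eqn_iff hW.a₁ hW.a₃).1 hab.1
    rw [hW.a₂, hW.a₄, hW.a₆, add_zero] at this
    exact this
  obtain ⟨v, hna, h2, hfin⟩ := exists_place K
  obtain ⟨c, hgood, hjne, hjinj⟩ := exists_seq hna h2 hfin hW hd hb he B hB
  have hΔB : ∀ i, (crvB u w a (c i)).Δ ≠ 0 := by
    intro i
    rw [delta_B (isB u w a (c i))]
    exact mul_ne_zero (mul_ne_zero (mul_ne_zero h16 (pow_ne_zero 6 (hgood i).c0))
      (pow_ne_zero 2 (hgood i).D0)) hd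
  have hns : ∀ i, (crvB u w a (c i)).toAffine.Nonsingular (dd u w (a - c i)) (dd u w (a - c i) * b) := by
    intro i
    refine ns_of rfl rfl (hΔB i) ?_
    rw [(isB u w a (c i)).a₂, (isB u w a (c i)).a₄, (isB u w a (c i)).a₆]
    have h3 : (dd u w (a - c i) * b) ^ 2 = dd u w (a - c i) ^ 2 * (a ^ 3 + u * a ^ 2 + w * a) := by
      rw [← he]; ring
    rw [h3]
    unfold al be ga dd
    ring
  set φ := algebraMap K F with hφ
  have hinj : Function.Injective φ := φ.injective
  have hne : ∀ {x : K}, x ≠ 0 → φ x ≠ 0 := fun h => (map_ne_zero φ).2 h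
  have h2F : (2 : F) ≠ 0 := by
    have := hne (x := 2) two_ne_zero
    rwa [map_ofNat] at this
  have hWF := hW.map φ
  have hBF : ∀ i, IsB (φ u) (φ w) (φ (a - c i)) (φ (c i)) ((crvB u w a (c i)).map φ) :=
    fun i => (isB u w a (c i)).map φ
  have hDF : ∀ i, dd (φ u) (φ w) (φ (a - c i)) ≠ 0 := fun i => by
    rw [← dd_map]
    exact hne (hgood i).D0
  -- the points `Q i` over `F`
  have hnsF : ∀ i, ((crvB u w a (c i)).map φ).toAffine.Nonsingular
      (dd (φ u) (φ w) (φ (a - c i))) (dd (φ u) (φ w) (φ (a - c i)) * φ b) := by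
    intro i
    have := ns_map F _ (hns i)
    rwa [map_mul, dd_map] at this
  have hQF : ∀ i, bc F (crvB u w a (c i)) (.some _ _ (hns i)) = .some _ _ (hnsF i) := by
    intro i
    rw [bc_some F _ (hns i) (ns_map F _ (hns i))]
    simp only [← hφ, map_mul, dd_map]
  have hlinks : ∀ i, (Linked (bc F W (.some a b hab)) (bc F _ (.some _ _ (hns i)))) ∧
      ∃ n : ℕ, 0 < n ∧ Linked (bc F W (n • B)) (bc F _ (.some _ _ (hns i))) := by
    intro i
    obtain ⟨n, hn, a₂, b₂, h₂, hnB, ha2, hb2, hq⟩ := (hgood i).link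
    have key := links hWF (hBF i) h2F (hne hw) (hne (hgood i).c0) (hDF i)
      (delta_map φ hΔ) (delta_map φ (hΔB i)) (ns_map F W hab) (ns_map F W h₂) (hnsF i)
      (by rw [← map_add]; congr 1; ring)
      (by
        have := congrArg φ hq
        simp only [map_add, map_mul, map_pow, map_sub] at this
        exact this) (hne ha2) (hne hb) (hne hb2)
    rw [hQF i]
    exact ⟨key.1, n, hn, by rw [hnB]; exact key.2⟩
  refine ⟨fun i => crvB u w a (c i), fun i => .some _ _ (hns i), ?_, ?_, ?_,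
    fun i => Rel.of_linked (hlinks i).1, fun i => ?_, fun i j => ?_⟩
  · rintro (_ | i)
    · exact hΔ
    · exact hΔB i
  · rintro (_ | i) (_ | i') h
    · rfl
    · exact absurd h.symm (hjne i')
    · exact absurd h (hjne i)
    · exact congrArg some (hjinj h)
  · intro i n hn
    exact inf_order hna h2 two_ne_zero rfl rfl (hns i) (hgood i).big n hn
  · obtain ⟨-, n, hn, l2⟩ := hlinks i
    exact ⟨n, 1, hn, one_pos, Or.inl (by rwa [one_smul, ← map_nsmul])⟩
  · by_cases hij : i = j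
    · subst hij
      refine Rel.of_linked (diag_link (hBF i).a₁ (hBF i).a₃ (delta_map φ (hΔB i)) ?_)
      rw [hQF i]
      exact Affine.Point.some_ne_zero _
    · have hcc : φ (a - c i) ≠ φ (a - c j) := by
        intro h
        apply hij
        apply hjinj
        have : c i = c j := by
          have := hinj h
          linear_combination -this
        simp only [this]
      have key := link₃ (hBF i) (hBF j) h2F (hne hw) (hne (hgood i).c0) (hne (hgood j).c0)
        (hDF i) (hDF j) (delta_map φ (hΔB i)) (delta_map φ (hΔB j)) (a := φ a) (b := φ b)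
        (by
          have := congrArg φ he
          simp only [map_add, map_mul, map_pow] at this
          exact this) (hnsF i) (hnsF j) (by rw [← map_add]; congr 1; ring)
        (by rw [← map_add]; congr 1; ring) hcc
      have e1 := hQF i
      have e2 := hQF j
      rw [← e1, ← e2] at key
      exact Rel.of_linked key

end Pool.Agent.H51.ZC
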