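import Pool.Agent.H51.ZC.Grow
import Pool.Agent.H51.ZC.Agm
import Pool.Agent.H51.ZC.Indep

/-!
# Many independent linked points
-/

set_option autoImplicit false
set_option linter.unusedSectionVars false

open WeierstrassCurve Polynomial

namespace Pool.Agent.H51.ZC

section
variable {F : Type*} [Field F]

lemma exists_roots [IsAlgClosed F] (h2 : (2 : F) ≠ 0) {W : WeierstrassCurve F} (h1 : W.a₁ = 0)
    (h3 : W.a₃ = 0) : ∃ e₁ e₂ e₃, Roots W e₁ e₂ e₃ := by
  obtain ⟨e₁, he⟩ := IsAlgClosed.exists_root (X ^ 3 + C W.a₂ * X ^ 2 + C W.a₄ * X + C W.a₆ : F[X])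
    (by
      have : (X ^ 3 + C W.a₂ * X ^ 2 + C W.a₄ * X + C W.a₆ : F[X]).degree = 3 := by compute_degree!
      rw [this]
      norm_num)
  rw [IsRoot.def] at he
  simp only [eval_add, eval_mul, eval_pow, eval_C, eval_X] at he
  obtain ⟨z, hz⟩ := IsAlgClosed.exists_pow_nat_eq
    ((W.a₂ + e₁) ^ 2 - 4 * (W.a₄ + (W.a₂ + e₁) * e₁)) (n := 2) two_pos
  refine ⟨e₁, (-(W.a₂ + e₁) + z) / 2, (-(W.a₂ + e₁) - z) / 2, h1, h3, ?_, ?_, ?_⟩
  · field_simp
    ring
  · field_simp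
    linear_combination hz
  · field_simp
    linear_combination 4 * he - e₁ * hz

lemma delta_roots {W : WeierstrassCurve F} {e₁ e₂ e₃ : F} (h : Roots W e₁ e₂ e₃) :
    W.Δ = 16 * ((e₁ - e₂) * (e₁ - e₃) * (e₂ - e₃)) ^ 2 := by
  simp only [WeierstrassCurve.Δ, WeierstrassCurve.b₂, WeierstrassCurve.b₄, WeierstrassCurve.b₆,
    WeierstrassCurve.b₈, h.a₁, h.a₂, h.a₃, h.a₄, h.a₆]
  ring

/-- the tower over a curve -/
lemma exists_tower [IsAlgClosed F] [CharZero F] (ι : F →+* ℂ) {W : WeierstrassCurve F}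
    (h1 : W.a₁ = 0) (h3 : W.a₃ = 0) (hΔ : W.Δ ≠ 0) : ∃ (e : F) (l : ℕ → F), Function.Injective l ∧
      (∀ k, l k ≠ 0) ∧ ∀ k, Nonempty (Leg (l k) W e) := by
  obtain ⟨e₁, e₂, e₃, h⟩ := exists_roots two_ne_zero h1 h3
  rw [delta_roots h] at hΔ
  have hp := right_ne_zero_of_mul hΔ
  have h12 : e₂ - e₁ ≠ 0 := by
    intro h0
    apply hp
    linear_combination (-((e₁ - e₂) * (e₁ - e₃) ^ 2 * (e₂ - e₃) ^ 2)) * h0
  have h13 : e₃ - e₁ ≠ 0 := by
    intro h0
    apply hp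
    linear_combination (-((e₁ - e₂) ^ 2 * (e₁ - e₃) * (e₂ - e₃) ^ 2)) * h0
  have h23 : e₃ - e₂ ≠ 0 := by
    intro h0
    apply hp
    linear_combination (-((e₁ - e₂) ^ 2 * (e₁ - e₃) ^ 2 * (e₂ - e₃))) * h0
  obtain ⟨r, hr, hr0, hr1, hrl, hinj⟩ := exists_agm ι (l := (e₃ - e₁) / (e₂ - e₁))
    (div_ne_zero h13 h12) (by
      intro h0
      rw [div_eq_one_iff_eq h12] at h0
      apply h23
      linear_combination h0)
  refine ⟨e₁, fun k => r (k + 1) ^ 2, hinj, fun k => pow_ne_zero 2 (hr0 _), fun k => ?_⟩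
  refine exists_leg two_ne_zero (k + 1) r hr hr0 hr1 h (sub_ne_zero.1 h12) ?_
  rw [hrl]
  field_simp

end

lemma eval_mem' {F : Type*} [Field F] [Algebra ℚ F] (K : IntermediateField ℚ F) {p : F[X]}
    (hp : ∀ i, p.coeff i ∈ K) {x : F} (hx : x ∈ K) : p.eval x ∈ K := by
  rw [eval_eq_sum_range]
  exact K.sum_mem fun i _ => K.mul_mem (hp i) (pow_mem hx i)

/-- **Many independent linked points.** -/
theorem unbounded {F : Type*} [Field F] [CharZero F] [Algebra ℚ F] [Algebra.IsAlgebraic ℚ F]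
    [IsAlgClosed F] [DecidableEq F] {m : ℕ} (N : ℕ) (E : Fin m → WeierstrassCurve F)
    (h1 : ∀ j, (E j).a₁ = 0) (h3 : ∀ j, (E j).a₃ = 0) (hΔ : ∀ j, (E j).Δ ≠ 0) :
    ∃ P : ∀ j, Fin N → (E j).toAffine.Point, (∀ j, LinearIndependent ℤ (P j)) ∧
      ∀ j k j' k', Linked (P j k) (P j' k') := by
  classical
  have ι₀ : F →+* ℂ := (IsAlgClosed.lift : F →ₐ[ℚ] ℂ).toRingHom
  obtain ⟨v, hna, hv2⟩ := exists_abv F
  choose e l hinj hl0 hL using fun j => exists_tower ι₀ (h1 j) (h3 j) (hΔ j)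
  let L : ∀ (j : Fin m) (k : Fin N), Leg (l j k) (E j) (e j) := fun j k => (hL j k).some
  -- the field of definition
  let S : Finset F := (Finset.univ.biUnion fun p : Fin m × Fin N => (L p.1 p.2).n.coeffs ∪
    ((L p.1 p.2).m.coeffs ∪ ((L p.1 p.2).d.coeffs ∪ {l p.1 p.2}))) ∪
    Finset.univ.biUnion fun j : Fin m => {(E j).a₂, (E j).a₄, (E j).a₆}
  let K : IntermediateField ℚ F := IntermediateField.adjoin ℚ (S : Set F)
  have hSK : ∀ x ∈ S, x ∈ K := fun x hx => IntermediateField.subset_adjoin ℚ (S : Set F) hx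
  have hcoef : ∀ (p : F[X]), p.coeffs ⊆ S → ∀ i, p.coeff i ∈ K := by
    intro p hp i
    by_cases h0 : p.coeff i = 0
    · rw [h0]
      exact K.zero_mem
    · exact hSK _ (hp (coeff_mem_coeffs h0))
  have hSp : ∀ (j : Fin m) (k : Fin N), (L j k).n.coeffs ∪
      ((L j k).m.coeffs ∪ ((L j k).d.coeffs ∪ {l j k})) ⊆ S := fun j k x hx =>
    Finset.mem_union_left _ (Finset.mem_biUnion.2 ⟨(j, k), Finset.mem_univ _, hx⟩)
  have hn : ∀ j k i, (L j k).n.coeff i ∈ K := fun j k =>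
    hcoef _ (Finset.subset_union_left.trans (hSp j k))
  have hm : ∀ j k i, (L j k).m.coeff i ∈ K := fun j k =>
    hcoef _ (Finset.subset_union_left.trans (Finset.subset_union_right.trans (hSp j k)))
  have hd : ∀ j k i, (L j k).d.coeff i ∈ K := fun j k =>
    hcoef _ (Finset.subset_union_left.trans (Finset.subset_union_right.trans
      (Finset.subset_union_right.trans (hSp j k))))
  have hl : ∀ (j : Fin m) (k : Fin N), l j k ∈ K := fun j k => hSK _ (hSp j k (by simp))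
  have hE : ∀ j, (E j).a₂ ∈ K ∧ (E j).a₄ ∈ K ∧ (E j).a₆ ∈ K := by
    intro j
    have : ∀ x, x ∈ ({(E j).a₂, (E j).a₄, (E j).a₆} : Finset F) → x ∈ K := fun x hx => hSK _
      (Finset.mem_union_right _ (Finset.mem_biUnion.2 ⟨j, Finset.mem_univ _, hx⟩))
    exact ⟨this _ (by simp), this _ (by simp), this _ (by simp)⟩
  have hfd : FiniteDimensional ℚ K := by
    refine IntermediateField.finiteDimensional_adjoin fun x _ => ?_
    exact (Algebra.IsAlgebraic.isAlgebraic x).isIntegral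
  have hNF : NumberField K :=
    { to_charZero := inferInstance
      to_finiteDimensional := by
        convert hfd
        exact Subsingleton.elim _ _ }
  have hclos : IsAlgClosure K F := ⟨inferInstance, inferInstance⟩
  have hnormal : Normal K F := IsAlgClosure.normal K F
  -- the absolute value on the field of definition
  let vK : AbsoluteValue K ℝ := v.comp (algebraMap K F).injective
  have hvK : ∀ x : K, vK x = v (x : F) := fun _ => rfl
  have hnaK : IsNonarchimedean vK := fun x y => by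
    rw [hvK, hvK, hvK]
    exact hna _ _
  have hv2K : vK 2 < 1 := by
    rw [hvK]
    exact_mod_cast hv2
  choose C hC using fun j k => (L j k).big hna
  let R : ℝ := ∑ j, ∑ k, |C j k|
  have hCR : ∀ j k, C j k ≤ R := by
    intro j k
    calc C j k ≤ |C j k| := le_abs_self _
      _ ≤ ∑ k, |C j k| := Finset.single_le_sum (f := fun k => |C j k|) (fun _ _ => abs_nonneg _)
        (Finset.mem_univ k)
      _ ≤ R := Finset.single_le_sum (f := fun j => ∑ k, |C j k|)
        (fun _ _ => Finset.sum_nonneg fun _ _ => abs_nonneg _) (Finset.mem_univ j)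
  obtain ⟨μ, hμ, hsq⟩ := exists_mu hnaK hv2K
    (Finset.univ.image fun p : Fin m × Fin N => (⟨l p.1 p.2, hl p.1 p.2⟩ : K)) R
  have hμv : ∀ j k, C j k < v (μ : F) := fun j k => (hCR j k).trans_lt hμ
  choose P hP using fun j k => (L j k).exists_at (hΔ j) (hC j k _ (hμv j k)).1
  have hP' := hP
  choose hd0 y hy hns hPe using hP'
  -- infinite order
  have hinf : ∀ j k, ∀ n : ℕ, 0 < n → n • P j k ≠ 0 := by
    intro j k n hn
    rw [hPe j k]
    exact inf_order hna hv2 two_ne_zero (h1 j) (h3 j) (hns j k) (hC j k _ (hμv j k)).2 n hn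
  have hy0 : ∀ j k, y j k ≠ 0 := by
    intro j k h0
    refine hinf j k 2 two_pos ?_
    rw [hPe j k]
    exact two_smul_some' (h1 j) (h3 j) (hns j k) (by rw [h0, zero_mul, zero_div])
  have hμ0 : ∀ (j : Fin m) (k : Fin N), (μ : F) * (μ - 1) * (μ - l j k) ≠ 0 := fun j k => by
    rw [← hy j k]
    exact pow_ne_zero 2 (hy0 j k)
  refine ⟨P, fun j => ?_, fun j k j' k' =>
    (L j k).link (L j' k') (hΔ j) (hΔ j') (hl0 j k) (hμ0 j k) (hP j k) (hP j' k')⟩
  refine indep_points (K := K) (h1 j) (h3 j) ⟨⟨0, ⟨_, (hE j).1⟩, 0, ⟨_, (hE j).2.1⟩, ⟨_, (hE j).2.2⟩⟩, ?_⟩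
    (P j) (y j) (fun k => μ * (μ - 1) * (μ - ⟨l j k, hl j k⟩)) (fun k => ?_) (fun k => ?_)
    (fun k k' hkk => ?_) (hinf j)
  · refine WeierstrassCurve.ext ?_ ?_ ?_ ?_ ?_
    · rw [WeierstrassCurve.map_a₁, map_zero, h1 j]
    · rw [WeierstrassCurve.map_a₂]; rfl
    · rw [WeierstrassCurve.map_a₃, map_zero, h3 j]
    · rw [WeierstrassCurve.map_a₄]; rfl
    · rw [WeierstrassCurve.map_a₆]; rfl
  · rw [hy j k, map_mul, map_mul, map_sub, map_sub, map_one]
    rfl
  · refine ⟨⟨_, K.div_mem (eval_mem' K (hn j k) μ.2) (eval_mem' K (hd j k) μ.2)⟩,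
      ⟨_, K.div_mem (eval_mem' K (hm j k) μ.2) (eval_mem' K (hd j k) μ.2)⟩, ?_⟩
    have e1 : y j k * (eval (μ : F) (L j k).m / eval (μ : F) (L j k).d) =
        y j k * eval (μ : F) (L j k).m / eval (μ : F) (L j k).d := by ring
    change ∃ h, P j k = Affine.Point.some (eval (μ : F) (L j k).n / eval (μ : F) (L j k).d)
      (y j k * (eval (μ : F) (L j k).m / eval (μ : F) (L j k).d)) h
    rw [e1]
    exact ⟨hns j k, hPe j k⟩
  · rintro ⟨t, ht⟩
    have hμK0 : μ * (μ - 1) ≠ 0 := by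
      intro h0
      apply hμ0 j k
      have : (μ : F) * (μ - 1) = 0 := by
        have := congrArg (algebraMap K F) h0
        rw [map_mul, map_sub, map_one, map_zero] at this
        exact this
      rw [this, zero_mul]
    refine hsq ⟨l j k, hl j k⟩ (Finset.mem_image.2 ⟨(j, k), Finset.mem_univ _, rfl⟩)
      ⟨l j k', hl j k'⟩ (Finset.mem_image.2 ⟨(j, k'), Finset.mem_univ _, rfl⟩) ?_
      ⟨t / (μ * (μ - 1)), ?_⟩
    · intro h
      have h5 := congrArg Subtype.val h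
      exact hkk (Fin.ext (hinj j h5))
    · rw [div_pow, div_eq_iff (pow_ne_zero 2 hμK0), ht]
      ring

end Pool.Agent.H51.ZC
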