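import Pool.Agent.H51.ZC.Sys
import Pool.Agent.H51.ZC.Unb

/-!
# Two points whose difference is slightly smaller
-/

set_option autoImplicit false
set_option linter.unusedSectionVars false

open WeierstrassCurve Polynomial Finset

namespace Pool.Agent.H51.ZC

section
variable {F : Type*} [Field F] {v : AbsoluteValue F ℝ}

lemma cons_agm {r₀ : F} {R : ℕ → F} (h0 : R 0 ^ 2 * (4 * r₀) = (1 + r₀) ^ 2) (hR : IsAgm R) :
    IsAgm (cons r₀ R) := by
  intro j
  cases j with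
  | zero => exact h0
  | succ j => exact hR j

lemma cons_nice {r₀ : F} {R : ℕ → F} (h1 : 1 ≤ v r₀) (h0 : v (R 0) ^ 2 * v 2 ^ 2 = v r₀) (hR : Nice v R) :
    Nice v (cons r₀ R) := by
  refine ⟨h1, fun j => ?_⟩
  cases j with
  | zero => exact h0
  | succ j => exact hR.2 j

/-- the size of the product -/
lemma prod_large {r₀ : F} {R : ℕ → F} (h20 : 0 < v 2) (h1 : 1 ≤ v r₀) (hR : Nice v R)
    (hR1 : ∀ j, 1 < v (R j)) (m : ℕ) : (1 / v 2) ^ m ≤ ∏ i ∈ range (m + 2), v (cons r₀ R i) := by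
  rw [prod_range_succ', prod_range_succ']
  change _ ≤ (∏ i ∈ range m, v (R (i + 1))) * v (R 0) * v r₀
  have h2 : (1 / v 2) ^ m ≤ ∏ i ∈ range m, v (R (i + 1)) := by
    have h3 : (1 / v (2 : F)) ^ m = ∏ i ∈ range m, (1 / v (2 : F)) := by
      rw [prod_const, card_range]
    rw [h3]
    refine prod_le_prod (fun i _ => by positivity) fun i _ => ?_
    rw [div_le_iff₀ h20]
    have h4 := hR.2 i
    have h5 : 1 < (v (R (i + 1)) * v 2) ^ 2 := by
      rw [mul_pow, h4]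
      exact hR1 i
    by_contra hc
    push Not at hc
    have : (v (R (i + 1)) * v 2) ^ 2 ≤ 1 := pow_le_one₀ (by positivity) hc.le
    linarith
  have h6 : 0 ≤ ∏ i ∈ range m, v (R (i + 1)) := prod_nonneg fun i _ => v.nonneg _
  calc (1 / v 2) ^ m ≤ ∏ i ∈ range m, v (R (i + 1)) := h2
    _ = (∏ i ∈ range m, v (R (i + 1))) * 1 * 1 := by ring
    _ ≤ _ := by
      gcongr
      exact (hR1 0).le

variable [IsAlgClosed F] [CharZero F] [DecidableEq F]

/-- **Two points.** -/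
theorem exists_pair (hna : IsNonarchimedean v) (h2 : v 2 < 1) {W : WeierstrassCurve F} (h1 : W.a₁ = 0)
    (h3 : W.a₃ = 0) (hΔ : W.Δ ≠ 0) {μ : F} (hμ : 1 < v μ * v 2 ^ 4) (B : ℕ) :
    ∃ m : ℕ, B < 2 ^ m ∧ ∃ x y h x' y' h', Affine.Point.some x y h ∈ gens μ W ∧
      Affine.Point.some x' y' h' ∈ gens μ W ∧ Big v W x ∧ v x' = v x ∧
      ∃ d : ℝ, d ^ 2 ^ m = v 2 ∧ v 2 < d ∧ d < 1 ∧ v (x - x') = d * v x := by
  have h20 : 0 < v (2 : F) := v.pos two_ne_zero
  have e4 : v (4 : F) = v 2 ^ 2 := by rw [← map_pow]; norm_num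
  obtain ⟨f₁, f₂, f₃, hroots'⟩ := exists_roots two_ne_zero h1 h3
  obtain ⟨e₁, e₂, e₃, hroots, hm1, hm2⟩ := hroots'.min (v := v)
  rw [delta_roots hroots] at hΔ
  have hp := right_ne_zero_of_mul hΔ
  have h12 : e₂ - e₁ ≠ 0 := by
    intro h0
    apply hp
    linear_combination (-((e₁ - e₂) * (e₁ - e₃) ^ 2 * (e₂ - e₃) ^ 2)) * h0
  have h13 : e₃ - e₁ ≠ 0 := by
    intro h0
    apply hp
    linear_combination (-((e₁ - e₂) ^ 2 * (e₁ - e₃) * (e₂ - e₃) ^ 2)) * h0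
  have h23 : e₃ - e₂ ≠ 0 := by
    intro h0
    apply hp
    linear_combination (-((e₁ - e₂) ^ 2 * (e₁ - e₃) ^ 2 * (e₂ - e₃))) * h0
  rw [← delta_roots hroots] at hΔ
  have hα : 0 < v (e₂ - e₁) := v.pos h12
  obtain ⟨r₀, hr₀⟩ := IsAlgClosed.exists_pow_nat_eq ((e₃ - e₁) / (e₂ - e₁)) (n := 2) two_pos
  have hr1 : 1 ≤ v r₀ := by
    by_contra hc
    push Not at hc
    have h5 : v r₀ ^ 2 < 1 := pow_lt_one₀ (v.nonneg _) hc two_ne_zero
    rw [← map_pow, hr₀, map_div₀, div_lt_one hα] at h5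
    exact absurd hm1 (not_le.2 h5)
  have hr00 : r₀ ≠ 0 := by
    rw [← v.pos_iff]
    linarith
  have hsum : v (1 + r₀) = v r₀ := by
    rcases hr1.lt_or_eq with h | h
    · rw [add_comm]
      exact na_lt hna (by rwa [map_one])
    · have b1 : v (1 + r₀) ≤ 1 := na_sum hna (by rw [map_one]) h.symm.le
      have b2 : v (r₀ - 1) ≤ 1 := na_sub hna h.symm.le (by rw [map_one])
      have b3 : 1 ≤ v (1 + r₀) * v (r₀ - 1) := by
        have e : (1 + r₀) * (r₀ - 1) = (e₃ - e₂) / (e₂ - e₁) := by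
          have : (1 + r₀) * (r₀ - 1) = r₀ ^ 2 - 1 := by ring
          rw [this, hr₀]
          field_simp
          ring
        rw [← map_mul, e, map_div₀, le_div_iff₀ hα, one_mul]
        exact hm2
      rw [← h]
      refine le_antisymm b1 ?_
      calc (1 : ℝ) ≤ v (1 + r₀) * v (r₀ - 1) := b3
        _ ≤ v (1 + r₀) * 1 := by gcongr
        _ = _ := mul_one _
  obtain ⟨R₀, hR₀⟩ := IsAlgClosed.exists_pow_nat_eq ((1 + r₀) ^ 2 / (4 * r₀)) (n := 2) two_pos
  have hR₀' : R₀ ^ 2 * (4 * r₀) = (1 + r₀) ^ 2 := by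
    rw [hR₀]
    field_simp
  have hvR₀ : v R₀ ^ 2 * v 2 ^ 2 = v r₀ := by
    have e := congrArg v hR₀'
    rw [map_mul, map_pow, map_mul, map_pow, hsum, e4] at e
    have : v r₀ ≠ 0 := by linarith
    apply mul_right_cancel₀ this
    linear_combination e
  have hR₀1 : 1 < v R₀ := by
    by_contra hc
    push Not at hc
    have : v R₀ ^ 2 * v 2 ^ 2 < 1 := by
      calc v R₀ ^ 2 * v 2 ^ 2 ≤ 1 ^ 2 * v 2 ^ 2 := by gcongr
        _ = v 2 ^ 2 := by ring
        _ < 1 := pow_lt_one₀ h20.le h2 two_ne_zero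
    rw [hvR₀] at this
    linarith
  obtain ⟨R, hR0, hRa, hRn, hR1⟩ := exists_seq' hna h2 hR₀1
  obtain ⟨R', hR0', hRa', hRn', hR1'⟩ := exists_seq' hna h2 (x := -R₀) (by rwa [v.map_neg])
  have hveq : ∀ j, v (R' j) = v (R j) := fun j => hRn.eq h20 hRn' (by rw [hR0, hR0', v.map_neg]) j
  have hag : IsAgm (cons r₀ R) := cons_agm (by rw [hR0]; exact hR₀') hRa
  have hag' : IsAgm (cons r₀ R') := cons_agm (by rw [hR0', neg_sq]; exact hR₀') hRa'
  have hni : Nice v (cons r₀ R) := cons_nice hr1 (by rw [hR0]; exact hvR₀) hRn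
  have hni' : Nice v (cons r₀ R') := cons_nice hr1 (by rw [hR0', v.map_neg]; exact hvR₀) hRn'
  have hne0 : ∀ {S : ℕ → F}, (∀ j, 1 < v (S j)) → (∀ j, cons r₀ S j ≠ 0) ∧ ∀ j, cons r₀ S j ^ 2 ≠ 1 := by
    intro S hS
    constructor
    · intro j
      cases j with
      | zero => exact hr00
      | succ j =>
        rw [← v.pos_iff]
        exact one_pos.trans (hS j)
    · intro j
      cases j with
      | zero =>
        intro h0
        change r₀ ^ 2 = 1 at h0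
        rw [hr₀, div_eq_one_iff_eq h12] at h0
        apply h23
        linear_combination h0
      | succ j =>
        intro h0
        have h5 := congrArg v h0
        rw [map_pow, map_one] at h5
        have := one_lt_pow₀ (hS j) two_ne_zero
        exact absurd h5 this.ne'
  have hl : e₃ - e₁ = r₀ ^ 2 * (e₂ - e₁) := by
    rw [hr₀]
    field_simp
  -- the choice of the level
  obtain ⟨C₀, hC₀⟩ : ∃ C₀ : ℝ, C₀ = max (v e₁) (max 1 (max (v W.a₂) (max (v W.a₄) (v W.a₆)))) := ⟨_, rfl⟩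
  have hv0 : 0 < v μ := by
    by_contra hc
    push Not at hc
    have : v μ * v 2 ^ 4 ≤ 0 * v 2 ^ 4 := by gcongr
    linarith
  obtain ⟨m, hmA, hmB, hmC, hm1'⟩ : ∃ m : ℕ, v R₀ * v 2 ^ 2 / v 2 < (v μ * v 2 ^ 4) ^ 2 ^ m ∧
      C₀ / (v (e₂ - e₁) * v μ) < (1 / v 2) ^ m ∧ B < 2 ^ m ∧ 1 ≤ m := by
    have t1 := ((tendsto_pow_atTop_atTop_of_one_lt hμ).comp
      (tendsto_pow_atTop_atTop_of_one_lt (α := ℕ) one_lt_two)).eventually_gt_atTop (v R₀ * v 2 ^ 2 / v 2)
    have t2 := (tendsto_pow_atTop_atTop_of_one_lt (one_lt_one_div h20 h2)).eventually_gt_atTop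
      (C₀ / (v (e₂ - e₁) * v μ))
    have t3 := (tendsto_pow_atTop_atTop_of_one_lt (α := ℕ) one_lt_two).eventually_gt_atTop B
    obtain ⟨m, a1, a2, a3, a4⟩ := (t1.and (t2.and (t3.and (Filter.eventually_ge_atTop 1)))).exists
    exact ⟨m, a1, a2, a3, a4⟩
  obtain ⟨D, hD⟩ : ∃ D : F, D = ∏ i ∈ range (m + 1), (R' i / R i) := ⟨_, rfl⟩
  have hdm : v (D - 1) ^ 2 ^ m = v 2 := by
    rw [hD]
    exact twist_prod hna h20 h2 hRa hRa' hR1 hveq (by rw [hR0, hR0']) m
  have hd1 : v (D - 1) < 1 := by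
    by_contra hc
    push Not at hc
    have := one_le_pow₀ (n := 2 ^ m) hc
    rw [hdm] at this
    linarith
  have hd2 : v 2 < v (D - 1) := by
    by_contra hc
    push Not at hc
    have h5 : v (D - 1) ^ 2 ^ m ≤ v 2 ^ 2 ^ m := by gcongr
    have h6 : v (2 : F) ^ 2 ^ m ≤ v 2 ^ 2 := by
      refine pow_le_pow_of_le_one h20.le h2.le ?_
      calc 2 = 2 ^ 1 := rfl
        _ ≤ 2 ^ m := Nat.pow_le_pow_right two_pos hm1'
    rw [hdm] at h5
    nlinarith
  have hd0 : 0 < v (D - 1) := h20.trans hd2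
  -- the size of the last term
  have hlast : v (R (m + 1)) ^ 2 < v μ * v (D - 1) := by
    have h5 : v (R m) * v 2 ^ 2 < v μ * v 2 ^ 4 * v (D - 1) := by
      refine lt_of_pow_lt_pow_left₀ (2 ^ m) (by positivity) ?_
      rw [hRn.pow m, mul_pow, hdm, hR0]
      rwa [div_lt_iff₀ h20] at hmA
    rw [← hRn.2 m] at h5
    have h6 : v (R (m + 1)) ^ 2 * v 2 ^ 4 < v μ * v (D - 1) * v 2 ^ 4 := by
      calc v (R (m + 1)) ^ 2 * v 2 ^ 4 = v (R (m + 1)) ^ 2 * v 2 ^ 2 * v 2 ^ 2 := by ring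
        _ < v μ * v 2 ^ 4 * v (D - 1) := h5
        _ = _ := by ring
    exact lt_of_mul_lt_mul_right h6 (by positivity)
  have hlast1 : v (R (m + 1)) ^ 2 < v μ := by
    calc v (R (m + 1)) ^ 2 < v μ * v (D - 1) := hlast
      _ < v μ * 1 := by gcongr
      _ = _ := mul_one _
  obtain ⟨i1, -, i3, -, i5⟩ := desc_size hna h20 h2 (m + 2) (cons r₀ R) hni μ hlast1
  obtain ⟨j1, -, j3, -, j5⟩ := desc_size hna h20 h2 (m + 2) (cons r₀ R') hni' μ (by
    change v (R' (m + 1)) ^ 2 < v μ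
    rw [hveq]
    exact hlast1)
  change _ ≤ v (R (m + 1)) ^ 2 * _ at i5
  change _ ≤ v (R' (m + 1)) ^ 2 * _ at j5
  rw [hveq] at j5
  obtain ⟨X, hX⟩ : ∃ X : F, X = desc (m + 2) (cons r₀ R) μ := ⟨_, rfl⟩
  obtain ⟨X', hX'⟩ : ∃ X' : F, X' = desc (m + 2) (cons r₀ R') μ := ⟨_, rfl⟩
  rw [← hX] at i3 i5
  rw [← hX'] at j3 j5
  have hXX : v X' = v X := by
    rw [i3, j3]
    congr 1
    refine prod_congr rfl fun i _ => ?_
    cases i with
    | zero => rfl
    | succ i => exact hveq i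
  have hXlarge : C₀ < v (e₂ - e₁) * v X := by
    rw [div_lt_iff₀ (by positivity)] at hmB
    have h5 := prod_large h20 hr1 hRn hR1 m
    calc C₀ < (1 / v 2) ^ m * (v (e₂ - e₁) * v μ) := hmB
      _ ≤ (∏ i ∈ range (m + 2), v (cons r₀ R i)) * (v (e₂ - e₁) * v μ) := by gcongr
      _ = v (e₂ - e₁) * v X := by rw [i3]; ring
  have hC1 : 1 ≤ C₀ := by
    rw [hC₀]
    exact (le_max_left _ _).trans (le_max_right _ _)
  have hXpos : 0 < v X := by
    by_contra hc
    push Not at hc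
    have : v (e₂ - e₁) * v X ≤ v (e₂ - e₁) * 0 := by gcongr
    linarith
  -- the products
  obtain ⟨Q, hQ⟩ : ∃ Q : F, Q = ∏ i ∈ range (m + 2), cons r₀ R i := ⟨_, rfl⟩
  have hQ' : ∏ i ∈ range (m + 2), cons r₀ R' i = Q * D := by
    rw [hQ, hD, prod_range_succ' (fun i => cons r₀ R' i), prod_range_succ' (fun i => cons r₀ R i)]
    change (∏ i ∈ range (m + 1), R' i) * r₀ = (∏ i ∈ range (m + 1), R i) * r₀ * _
    have : ∀ i, R' i = R i * (R' i / R i) := fun i => by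
      have : R i ≠ 0 := (hne0 hR1).1 (i + 1)
      field_simp
    have h5 : ∏ i ∈ range (m + 1), R' i = (∏ i ∈ range (m + 1), R i) * ∏ i ∈ range (m + 1), (R' i / R i) := by
      rw [← prod_mul_distrib]
      exact prod_congr rfl fun i _ => this i
    rw [h5]
    ring
  rw [← hQ] at i5
  rw [hQ', hXX] at j5
  have hQv : v μ * v Q = v X := by
    rw [i3, hQ, map_prod]
  have hbound : v (R (m + 1)) ^ 2 * v X < v (D - 1) * v X * v μ := by
    calc v (R (m + 1)) ^ 2 * v X < v μ * v (D - 1) * v X := by gcongr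
      _ = _ := by ring
  have k1 : v (X - μ * Q) < v (D - 1) * v X := lt_of_mul_lt_mul_right (i5.trans_lt hbound) hv0.le
  have k2 : v (X' - μ * (Q * D)) < v (D - 1) * v X := lt_of_mul_lt_mul_right (j5.trans_lt hbound) hv0.le
  have hdiff : v (X - X') = v (D - 1) * v X := by
    have e : X - X' = -(μ * Q * (D - 1)) + ((X - μ * Q) - (X' - μ * (Q * D))) := by ring
    have hm : v (-(μ * Q * (D - 1))) = v (D - 1) * v X := by
      rw [v.map_neg, map_mul, map_mul, hQv]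
      ring
    rw [e, na_lt hna (by rw [hm]; exact na_sub' hna k1 k2), hm]
  -- the points
  have hpt : ∀ {S : ℕ → F}, IsAgm (cons r₀ S) → (∀ j, 1 < v (S j)) → v (S (m + 1)) ^ 2 < v μ →
      GoodD (m + 2) (cons r₀ S) μ → ∃ x y h, Affine.Point.some x y h ∈ gens μ W ∧
        x = e₁ + (e₂ - e₁) * desc (m + 2) (cons r₀ S) μ := by
    intro S hS hS1 hSl hG
    obtain ⟨L, hL⟩ := exists_leg' two_ne_zero (m + 2) (cons r₀ S) hS (hne0 hS1).1 (hne0 hS1).2 hroots
      (sub_ne_zero.1 h12) hl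
    obtain ⟨hd, hx⟩ := hL μ hG
    obtain ⟨P, hP⟩ := L.exists_at hΔ hd
    obtain ⟨hd', y, hy, h, rfl⟩ := hP
    refine ⟨_, _, h, ⟨_, _, L, pow_ne_zero 2 ((hne0 hS1).1 _), ?_, hd', y, hy, h, rfl⟩, hx⟩
    intro h0
    change μ = S (m + 1) ^ 2 at h0
    rw [h0, map_pow] at hSl
    exact lt_irrefl _ hSl
  obtain ⟨x, y, h, hP, hx⟩ := hpt hag hR1 hlast1 i1
  obtain ⟨x', y', h', hP', hx'⟩ := hpt hag' hR1' (by rw [hveq]; exact hlast1) j1
  rw [← hX] at hx
  rw [← hX'] at hx'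
  have he₁ : v e₁ ≤ C₀ := by rw [hC₀]; exact le_max_left _ _
  have hvx : v x = v (e₂ - e₁) * v X := by
    rw [hx, add_comm, na_lt hna, map_mul]
    rw [map_mul]
    exact he₁.trans_lt hXlarge
  have hvx' : v x' = v (e₂ - e₁) * v X := by
    rw [hx', add_comm, na_lt hna, map_mul, hXX]
    rw [map_mul, hXX]
    exact he₁.trans_lt hXlarge
  refine ⟨m, hmC, x, y, h, x', y', h', hP, hP', ?_, by rw [hvx, hvx'], v (D - 1), hdm, hd2, hd1, ?_⟩
  · have hcx : C₀ < v x := by rw [hvx]; exact hXlarge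
    have h1x : 1 < v x := hC1.trans_lt hcx
    have g2 : v W.a₂ < v x := by
      refine lt_of_le_of_lt ?_ hcx
      rw [hC₀]
      exact (le_max_left _ _).trans ((le_max_right _ _).trans (le_max_right _ _))
    have g4 : v W.a₄ < v x := by
      refine lt_of_le_of_lt ?_ hcx
      rw [hC₀]
      exact (le_max_left _ _).trans ((le_max_right _ _).trans ((le_max_right _ _).trans (le_max_right _ _)))
    have g6 : v W.a₆ < v x := by
      refine lt_of_le_of_lt ?_ hcx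
      rw [hC₀]
      exact (le_max_right _ _).trans ((le_max_right _ _).trans ((le_max_right _ _).trans (le_max_right _ _)))
    exact ⟨g2, g4.trans_le (le_self_pow₀ h1x.le two_ne_zero), g6.trans_le (le_self_pow₀ h1x.le three_ne_zero)⟩
  · have e : x - x' = (e₂ - e₁) * (X - X') := by rw [hx, hx']; ring
    rw [e, map_mul, hdiff, hvx]
    ring

end

end Pool.Agent.H51.ZC
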