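import Pool.Agent.H51.ZC.Large

/-!
# A place of a number field above two
-/

set_option autoImplicit false

open IsDedekindDomain NumberField WithZeroMulInt

namespace Pool.Agent.H51.ZC

theorem exists_place (K : Type*) [Field K] [NumberField K] :
    ∃ v : AbsoluteValue K ℝ, IsNonarchimedean v ∧ v 2 < 1 ∧ PreC v := by
  have : (Ideal.span {(2 : ℤ)}).IsMaximal :=
    PrincipalIdealRing.isMaximal_of_irreducible Int.prime_two.irreducible
  obtain ⟨P, hP, hover⟩ :=
    Ideal.exists_maximal_ideal_liesOver_of_isIntegral (S := 𝓞 K) (Ideal.span {(2 : ℤ)})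
  have h2P : (2 : 𝓞 K) ∈ P := by
    have h : (2 : ℤ) ∈ P.under ℤ := by
      rw [← hover.over]
      exact Ideal.mem_span_singleton_self _
    rw [Ideal.under_def, Ideal.mem_comap] at h
    simpa using h
  have hne : P ≠ ⊥ := by
    rintro rfl
    rw [Ideal.mem_bot] at h2P
    exact two_ne_zero h2P
  let w : HeightOneSpectrum (𝓞 K) := ⟨P, hP.isPrime, hne⟩
  have hb := HeightOneSpectrum.one_lt_absNorm_nnreal w
  refine ⟨HeightOneSpectrum.adicAbv K w, HeightOneSpectrum.isNonarchimedean_adicAbv K w, ?_, ?_⟩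
  · have := (w.adicAbv_coe_lt_one_iff (K := K) hb (2 : 𝓞 K)).2 h2P
    rw [map_ofNat] at this
    exact this
  · have hv2 : HeightOneSpectrum.adicAbv K w 2 < 1 := by
      have := (w.adicAbv_coe_lt_one_iff (K := K) hb (2 : 𝓞 K)).2 h2P
      rw [map_ofNat] at this
      exact this
    set v := HeightOneSpectrum.adicAbv K w with hv
    have hna : IsNonarchimedean v := HeightOneSpectrum.isNonarchimedean_adicAbv K w
    have hv20 : 0 < v 2 := v.pos two_ne_zero
    intro R ε hε
    obtain ⟨k, hk⟩ := exists_pow_lt_of_lt_one (show (0 : ℝ) < 1 / (|R| + 1) by positivity) hv2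
    obtain ⟨M, hM⟩ := exists_pow_lt_of_lt_one (show (0 : ℝ) < ε * v 2 ^ k by positivity) hv2
    have h2M : (2 : 𝓞 K) ^ M ≠ 0 := pow_ne_zero _ two_ne_zero
    have : Finite (𝓞 K ⧸ Ideal.span {(2 : 𝓞 K) ^ M}) :=
      Ideal.finiteQuotientOfFreeOfNeBot _ (by rwa [Ne, Ideal.span_singleton_eq_bot])
    have hfinr : (Set.range fun q : 𝓞 K ⧸ Ideal.span {(2 : 𝓞 K) ^ M} =>
        ((Quotient.out q : 𝓞 K) : K) / 2 ^ k).Finite := Set.finite_range _
    refine ⟨hfinr.toFinset, fun x hx => ?_⟩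
    have hx1 : v (2 ^ k * x) ≤ 1 := by
      rw [map_mul, map_pow]
      have h1 : v x ≤ |R| + 1 := hx.trans ((le_abs_self R).trans (by linarith))
      calc v 2 ^ k * v x ≤ (1 / (|R| + 1)) * (|R| + 1) := by gcongr
        _ = 1 := by field_simp
    have hval : w.valuation K (2 ^ k * x) ≤ 1 := by
      have h3 : (toNNReal (ne_zero_of_lt hb) (w.valuation K (2 ^ k * x)) : ℝ) ≤ 1 := hx1
      exact (toNNReal_le_one_iff hb).1 (by exact_mod_cast h3)
    have hu : w.valuation K ((2 : K) ^ M) ≠ 0 := by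
      rw [Ne, Valuation.zero_iff]
      exact pow_ne_zero _ two_ne_zero
    obtain ⟨a, ha⟩ := w.exists_valuation_sub_lt_of_integer hval (Units.mk0 _ hu)
    rw [Units.val_mk0] at ha
    have ha' : v ((a : K) - 2 ^ k * x) < v 2 ^ M := by
      have h4 := toNNReal_strictMono hb ha
      rw [← map_pow]
      exact_mod_cast h4
    obtain ⟨q, hq⟩ : ∃ q : 𝓞 K ⧸ Ideal.span {(2 : 𝓞 K) ^ M}, q = Ideal.Quotient.mk _ a := ⟨_, rfl⟩
    refine ⟨((Quotient.out q : 𝓞 K) : K) / 2 ^ k, ?_, ?_⟩
    · rw [Set.Finite.mem_toFinset]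
      exact ⟨q, rfl⟩
    · have h5 : a - Quotient.out q ∈ Ideal.span {(2 : 𝓞 K) ^ M} := by
        rw [← Ideal.Quotient.eq, ← hq]
        exact (Ideal.Quotient.mk_out q).symm
      obtain ⟨t, ht⟩ := Ideal.mem_span_singleton'.1 h5
      have ht' : (a : K) - (Quotient.out q : 𝓞 K) = t * 2 ^ M := by
        have := congrArg (algebraMap (𝓞 K) K) ht
        rw [map_mul, map_pow, map_ofNat, map_sub] at this
        exact this.symm
      have h6 : v ((a : K) - (Quotient.out q : 𝓞 K)) ≤ v 2 ^ M := by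
        rw [ht', map_mul, map_pow]
        have h7 : v (t : K) ≤ 1 := w.adicAbv_coe_le_one (K := K) hb t
        calc v (t : K) * v 2 ^ M ≤ 1 * v 2 ^ M := by gcongr
          _ = v 2 ^ M := one_mul _
      have h8 : v (2 ^ k * x - (Quotient.out q : 𝓞 K)) ≤ v 2 ^ M := by
        have := na_sub hna h6 ha'.le
        convert this using 2
        ring
      have h9 : x - ((Quotient.out q : 𝓞 K) : K) / 2 ^ k =
          (2 ^ k * x - (Quotient.out q : 𝓞 K)) / 2 ^ k := by
        field_simp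
      rw [h9, map_div₀, map_pow, div_lt_iff₀ (by positivity)]
      exact h8.trans_lt hM

end Pool.Agent.H51.ZC
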