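import Pool.Agent.H51.ZC.Pair

/-!
# The subgroups have infinite rank
-/

set_option autoImplicit false
set_option linter.unusedSectionVars false

open WeierstrassCurve Polynomial Finset

namespace Pool.Agent.H51.ZC

section
variable {F : Type*} [Field F] {v : AbsoluteValue F ℝ} [IsAlgClosed F] [CharZero F] [DecidableEq F]
  [Algebra ℚ F]

/-- **There are points none of whose multiples are defined over a given number field.** -/
theorem exists_outside (hna : IsNonarchimedean v) (h2 : v 2 < 1) {W : WeierstrassCurve F} (h1 : W.a₁ = 0)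
    (h3 : W.a₃ = 0) (hΔ : W.Δ ≠ 0) {μ : F} (hμ : 1 < v μ * v 2 ^ 4) (L : IntermediateField ℚ F)
    [NumberField L] (g₁ : W.a₁ ∈ L.toSubfield) (g₂ : W.a₂ ∈ L.toSubfield) (g₃ : W.a₃ ∈ L.toSubfield)
    (g₄ : W.a₄ ∈ L.toSubfield) :
    ∃ P ∈ gens μ W, ∀ n : ℕ, 0 < n → n • P ∉ ratSub L.toSubfield W g₁ g₂ g₃ g₄ := by
  by_contra hcon
  push Not at hcon
  have h20 : 0 < v (2 : F) := v.pos two_ne_zero
  let vL : AbsoluteValue L ℝ := v.comp (algebraMap L F).injective
  have hvL : ∀ x : L, vL x = v (x : F) := fun _ => rfl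
  have hnaL : IsNonarchimedean vL := fun x y => by
    rw [hvL, hvL, hvL]
    exact hna _ _
  have hv2L : vL 2 = v 2 := hvL 2
  obtain ⟨B, hB⟩ : ∃ B : ℕ, ∀ (z : L) (N : ℕ), 0 < N → vL z ^ N = vL 2 → N ≤ B :=
    ⟨_, fun z N hN h => root_le hnaL (by rw [hv2L]; exact h2) hN h⟩
  obtain ⟨m, hm, x, y, h, x', y', h', hP, hP', hb, heq, d, hd, hd2, hd1, hdx⟩ :=
    exists_pair hna h2 h1 h3 hΔ hμ B
  have hx0 : 0 < v x := hb.pos
  have hd0 : 0 < d := h20.trans hd2
  obtain ⟨x'', y'', h'', e1, e2⟩ := add_close hna h1 h3 h h' hb heq (by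
    rw [hdx]
    gcongr)
  have hx'' : v x'' * d = v x := by
    rw [hdx] at e2
    apply mul_right_cancel₀ hx0.ne'
    rw [mul_assoc, e2]
    ring
  have hx''0 : 0 < v x'' := by
    by_contra hc
    push Not at hc
    have : v x'' * d ≤ 0 * d := by gcongr
    linarith
  have hb'' : Big v W x'' := hb.mono (by
    rw [← hx'']
    calc v x'' * d ≤ v x'' * 1 := by gcongr
      _ = _ := mul_one _)
  obtain ⟨n, hn, hnP⟩ := hcon _ hP
  obtain ⟨n', hn', hnP'⟩ := hcon _ hP'
  have hsum : (n * n') • (Affine.Point.some x'' y'' h'' : W.toAffine.Point) ∈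
      ratSub L.toSubfield W g₁ g₂ g₃ g₄ := by
    rw [← e1, nsmul_add]
    refine add_mem ?_ ?_
    · rw [mul_comm, mul_nsmul']
      exact AddSubgroup.nsmul_mem _ hnP n'
    · rw [mul_nsmul']
      exact AddSubgroup.nsmul_mem _ hnP' n
  obtain ⟨X, Y, hX, s, f1, -, f2, -, -⟩ := multiples hna h2 two_ne_zero h1 h3 h hb n hn
  obtain ⟨Z, T, hZ, t, k1, k0, k2, -, -⟩ := multiples hna h2 two_ne_zero h1 h3 h'' hb'' (n * n')
    (Nat.mul_pos hn hn')
  rw [f1] at hnP
  rw [k1] at hsum
  have hXL : X ∈ L := (mem_ratSub hnP).1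
  have hZL : Z ∈ L := (mem_ratSub hsum).1
  have hZ0 : Z ≠ 0 := by
    rw [← v.pos_iff]
    exact k0.pos
  -- the element of `L`
  obtain ⟨z, hz⟩ : ∃ z : F, z = X * (2 ^ 2) ^ s / (Z * (2 ^ 2) ^ t) := ⟨_, rfl⟩
  have h2L : (2 : F) ∈ L := ofNat_mem L 2
  have hzL : z ∈ L := by
    rw [hz]
    exact L.div_mem (L.mul_mem hXL (pow_mem (pow_mem h2L 2) s)) (L.mul_mem hZL (pow_mem (pow_mem h2L 2) t))
  have hvz : v z = d := by
    rw [hz, map_div₀, map_mul, map_mul, map_pow, map_pow, map_pow, map_pow, f2, k2, ← hx'']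
    field_simp
  have := hB ⟨z, hzL⟩ (2 ^ m) (by positivity) (by
    rw [hvL, hv2L, ← hd]
    change v z ^ 2 ^ m = _
    rw [hvz])
  omega

lemma numberField_adjoin [Algebra.IsAlgebraic ℚ F] (S : Finset F) :
    NumberField (IntermediateField.adjoin ℚ (S : Set F)) := by
  have hfd : FiniteDimensional ℚ (IntermediateField.adjoin ℚ (S : Set F)) := by
    refine IntermediateField.finiteDimensional_adjoin fun x _ => ?_
    exact (Algebra.IsAlgebraic.isAlgebraic x).isIntegral
  exact
    { to_charZero := inferInstance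
      to_finiteDimensional := by
        convert hfd
        exact Subsingleton.elim _ _ }

/-- **The subgroups have infinite rank.** -/
theorem inf_rank [Algebra.IsAlgebraic ℚ F] (hna : IsNonarchimedean v) (h2 : v 2 < 1)
    {W : WeierstrassCurve F} (h1 : W.a₁ = 0)
    (h3 : W.a₃ = 0) (hΔ : W.Δ ≠ 0) {μ : F} (hμ : 1 < v μ * v 2 ^ 4) (N : ℕ) :
    ∃ P : Fin N → W.toAffine.Point, (∀ k, P k ∈ gens μ W) ∧ LinearIndependent ℤ P := by
  classical
  induction N with
  | zero => exact ⟨fun k => k.elim0, fun k => k.elim0, linearIndependent_empty_type⟩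
  | succ N ih =>
    obtain ⟨P, hP, hli⟩ := ih
    let S : Finset F := {W.a₂, W.a₄} ∪ univ.biUnion fun k : Fin N => match P k with
      | 0 => ∅
      | .some x y _ => {x, y}
    let L : IntermediateField ℚ F := IntermediateField.adjoin ℚ (S : Set F)
    have hNF : NumberField L := numberField_adjoin S
    have hSL : ∀ x ∈ S, x ∈ L.toSubfield := fun x hx =>
      IntermediateField.subset_adjoin ℚ (S : Set F) hx
    have g₁ : W.a₁ ∈ L.toSubfield := by rw [h1]; exact zero_mem _
    have g₃ : W.a₃ ∈ L.toSubfield := by rw [h3]; exact zero_mem _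
    have g₂ : W.a₂ ∈ L.toSubfield := hSL _ (mem_union_left _ (by simp))
    have g₄ : W.a₄ ∈ L.toSubfield := hSL _ (mem_union_left _ (by simp))
    have hPL : ∀ k, P k ∈ ratSub L.toSubfield W g₁ g₂ g₃ g₄ := by
      intro k
      rcases hk : P k with _ | ⟨x, y, h⟩
      · exact Or.inl rfl
      · have hsub : ({x, y} : Finset F) ⊆ S := by
          refine Finset.Subset.trans ?_ subset_union_right
          intro z hz
          refine mem_biUnion.2 ⟨k, mem_univ _, ?_⟩
          rw [hk]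
          exact hz
        exact Or.inr ⟨x, y, h, rfl, hSL _ (hsub (by simp)), hSL _ (hsub (by simp))⟩
    obtain ⟨P₀, hP₀, hout⟩ := exists_outside hna h2 h1 h3 hΔ hμ L g₁ g₂ g₃ g₄
    refine ⟨Fin.cons P₀ P, fun k => ?_, ?_⟩
    · refine Fin.cases ?_ (fun k => ?_) k
      · rw [Fin.cons_zero]
        exact hP₀
      · rw [Fin.cons_succ]
        exact hP k
    · refine hli.finCons' P₀ P fun c y hy hc => ?_
      by_contra hc0
      have hspan : y ∈ ratSub L.toSubfield W g₁ g₂ g₃ g₄ := by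
        have h5 : Submodule.span ℤ (Set.range P) ≤
            AddSubgroup.toIntSubmodule (ratSub L.toSubfield W g₁ g₂ g₃ g₄) := by
          rw [Submodule.span_le]
          rintro _ ⟨k, rfl⟩
          exact hPL k
        exact h5 hy
      have hc1 : c • P₀ ∈ ratSub L.toSubfield W g₁ g₂ g₃ g₄ := by
        have : c • P₀ = -y := eq_neg_of_add_eq_zero_left hc
        rw [this]
        exact neg_mem hspan
      obtain ⟨n, rfl | rfl⟩ := c.eq_nat_or_neg
      · rw [natCast_zsmul] at hc1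
        exact hout n (by omega) hc1
      · rw [neg_zsmul, natCast_zsmul, neg_mem_iff] at hc1
        exact hout n (by omega) hc1

end

end Pool.Agent.H51.ZC
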