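import Pool.Agent.H51.ZC.Desc
import Pool.Agent.H51.ZC.Mu

/-!
# Sizes at a place above two
-/

set_option autoImplicit false
set_option linter.unusedSectionVars false

open Polynomial WeierstrassCurve Finset

namespace Pool.Agent.H51.ZC

section
variable {F : Type*} [Field F] {v : AbsoluteValue F ℝ}

lemma na_lt' (hna : IsNonarchimedean v) {r s : F} (h : v r < v s) : v (s - r) = v s := by
  rw [sub_eq_add_neg]
  refine na_lt hna ?_
  rwa [v.map_neg]

/-- the sizes of the terms of the sequence -/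
def Nice (v : AbsoluteValue F ℝ) (r : ℕ → F) : Prop :=
  1 ≤ v (r 0) ∧ ∀ j, v (r (j + 1)) ^ 2 * v 2 ^ 2 = v (r j)

lemma Nice.sh (h20 : 0 < v 2) (h2 : v 2 < 1) {r : ℕ → F} (h : Nice v r) :
    Nice v (sh r) ∧ 1 < v (r 1) := by
  have h1 : 1 < v (r 1) := by
    have h3 := h.2 0
    rw [zero_add] at h3
    by_contra hc
    push Not at hc
    have h4 : v (r 1) ^ 2 * v 2 ^ 2 < 1 := by
      calc v (r 1) ^ 2 * v 2 ^ 2 ≤ 1 ^ 2 * v 2 ^ 2 := by gcongr
        _ = v 2 ^ 2 := by ring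
        _ < 1 := by nlinarith
    rw [h3] at h4
    exact absurd h.1 (not_le.2 h4)
  exact ⟨⟨h1.le, fun j => h.2 (j + 1)⟩, h1⟩

/-- **The sizes of the coordinates.** -/
theorem desc_size (hna : IsNonarchimedean v) (h20 : 0 < v 2) (h2 : v 2 < 1) (k : ℕ) :
    ∀ (r : ℕ → F), Nice v r → ∀ x, v (r k) ^ 2 < v x → GoodD k r x ∧ v (r 0) ^ 2 < v (desc k r x) ∧
      v (desc k r x) = v x * ∏ i ∈ range k, v (r i) ∧
      v (r 0) ^ 2 * v x ≤ v (r k) ^ 2 * v (desc k r x) ∧
      v (desc k r x - x * ∏ i ∈ range k, r i) * v x ≤ v (r k) ^ 2 * v (desc k r x) := by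
  induction k with
  | zero =>
    intro r hr x hx
    refine ⟨trivial, hx, by simp [desc], le_rfl, ?_⟩
    simp only [desc, range_zero, prod_empty, mul_one, sub_self, map_zero, zero_mul]
    positivity
  | succ k ih =>
    intro r hr x hx
    obtain ⟨hn, h1⟩ := hr.sh h20 h2
    obtain ⟨i1, i2, i3, i4, i5⟩ := ih (ZC.sh r) hn x hx
    obtain ⟨y, hy⟩ : ∃ y : F, y = desc k (ZC.sh r) x := ⟨_, rfl⟩
    rw [← hy] at i2 i3 i4 i5
    change v (r 1) ^ 2 < v y at i2
    change v y = v x * ∏ i ∈ range k, v (r (i + 1)) at i3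
    change v (r 1) ^ 2 * v x ≤ v (r (k + 1)) ^ 2 * v y at i4
    change v (y - x * ∏ i ∈ range k, r (i + 1)) * v x ≤ v (r (k + 1)) ^ 2 * v y at i5
    have r1 : 1 < v (r 1) ^ 2 := one_lt_pow₀ h1 two_ne_zero
    have r0 : v (r 0) ≤ v (r 1) ^ 2 := by
      have h3 := hr.2 0
      rw [zero_add] at h3
      rw [← h3]
      calc v (r 1) ^ 2 * v 2 ^ 2 ≤ v (r 1) ^ 2 * 1 := by gcongr; nlinarith
        _ = _ := mul_one _
    have p0 : 0 < v (r 0) := lt_of_lt_of_le one_pos hr.1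
    have hy1 : 1 < v y := r1.trans i2
    have e1 : v (y - 1) = v y := na_lt' hna (by rw [map_one]; exact hy1)
    have e2 : v (y - r 1 ^ 2) = v y := na_lt' hna (by rw [map_pow]; exact i2)
    have hyne : y - r 1 ^ 2 ≠ 0 := by
      rw [← v.pos_iff, e2]
      linarith
    have hdesc : desc (k + 1) r x = r 0 * (y * (y - 1)) / (y - r 1 ^ 2) := by rw [desc, ← hy]
    have hv : v (desc (k + 1) r x) = v (r 0) * v y := by
      rw [hdesc, map_div₀, map_mul, map_mul, e1, e2]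
      have : v y ≠ 0 := by linarith
      field_simp
    have hx0 : 0 ≤ v x := v.nonneg _
    have hr1x : v (r 0) * (v (r 1) ^ 2 * v x) ≤ v (r 0) * (v (r (k + 1)) ^ 2 * v y) :=
      mul_le_mul_of_nonneg_left i4 p0.le
    refine ⟨⟨?_, i1⟩, ?_, ?_, ?_, ?_⟩
    · rw [← hy]
      exact sub_ne_zero.1 hyne
    · rw [hv, sq]
      exact mul_lt_mul_of_pos_left (r0.trans_lt i2) p0
    · rw [hv, i3, prod_range_succ']
      ring
    · rw [hv]
      calc v (r 0) ^ 2 * v x = v (r 0) * (v (r 0) * v x) := by ring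
        _ ≤ v (r 0) * (v (r 1) ^ 2 * v x) := by gcongr
        _ ≤ v (r 0) * (v (r (k + 1)) ^ 2 * v y) := hr1x
        _ = _ := by ring
    · have hdiff : desc (k + 1) r x - x * ∏ i ∈ range (k + 1), r i =
          r 0 * (y * (r 1 ^ 2 - 1) / (y - r 1 ^ 2)) + r 0 * (y - x * ∏ i ∈ range k, r (i + 1)) := by
        rw [hdesc, prod_range_succ']
        field_simp
        ring
      have hb1 : v (r 1 ^ 2 - 1) ≤ v (r 1) ^ 2 := na_sub hna (by rw [map_pow]) (by rw [map_one]; exact r1.le)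
      have hA : v (r 0 * (y * (r 1 ^ 2 - 1) / (y - r 1 ^ 2))) ≤ v (r 0) * v (r 1) ^ 2 := by
        rw [map_mul, map_div₀, map_mul, e2]
        have : v y ≠ 0 := by linarith
        rw [mul_div_assoc, mul_comm (v y), div_mul_cancel₀ _ this]
        gcongr
      rw [hdiff, hv]
      have hA' : v (r 0 * (y * (r 1 ^ 2 - 1) / (y - r 1 ^ 2))) * v x ≤ v (r (k + 1)) ^ 2 * (v (r 0) * v y) :=
        calc _ ≤ v (r 0) * v (r 1) ^ 2 * v x := by gcongr
          _ = v (r 0) * (v (r 1) ^ 2 * v x) := by ring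
          _ ≤ v (r 0) * (v (r (k + 1)) ^ 2 * v y) := hr1x
          _ = _ := by ring
      have hB' : v (r 0 * (y - x * ∏ i ∈ range k, r (i + 1))) * v x ≤ v (r (k + 1)) ^ 2 * (v (r 0) * v y) := by
        rw [map_mul]
        calc _ = v (r 0) * (v (y - x * ∏ i ∈ range k, r (i + 1)) * v x) := by ring
          _ ≤ v (r 0) * (v (r (k + 1)) ^ 2 * v y) := by gcongr
          _ = _ := by ring
      rcases le_total (v (r 0 * (y * (r 1 ^ 2 - 1) / (y - r 1 ^ 2))))
        (v (r 0 * (y - x * ∏ i ∈ range k, r (i + 1)))) with hle | hle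
      · exact (mul_le_mul_of_nonneg_right (na_sum hna hle le_rfl) hx0).trans hB'
      · exact (mul_le_mul_of_nonneg_right (na_sum hna le_rfl hle) hx0).trans hA'

/-- the ratio of the next terms of two sequences -/
lemma twist_step (hna : IsNonarchimedean v) (h20 : 0 < v 2) (h2 : v 2 < 1) {r c s c₁ : F}
    (hr : 1 < v r) (hc : v c = 1) (hs : s ^ 2 * (4 * r) = (1 + r) ^ 2)
    (hs' : (c₁ * s) ^ 2 * (4 * (c * r)) = (1 + c * r) ^ 2) (hc1 : v 2 ≤ v (c - 1)) :
    v (c₁ - 1) ^ 2 = v (c - 1) ∧ v 2 < v (c₁ - 1) := by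
  have e1 : v (1 + r) = v r := by
    rw [add_comm]
    exact na_lt hna (by rw [map_one]; exact hr)
  have hcr : v (c * r ^ 2) = v r ^ 2 := by rw [map_mul, hc, map_pow, one_mul]
  have e2 : v (c * r ^ 2 - 1) = v r ^ 2 := by
    rw [← hcr]
    refine na_lt' hna ?_
    rw [map_one, hcr]
    exact one_lt_pow₀ hr two_ne_zero
  have key : (c₁ ^ 2 - 1) * (c * (1 + r) ^ 2) = (c - 1) * (c * r ^ 2 - 1) := by
    linear_combination (-(c * c₁ ^ 2)) * hs + hs'
  have hprod : v (c₁ - 1) * v (c₁ + 1) = v (c - 1) := by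
    have h := congrArg v key
    have e3 : c₁ ^ 2 - 1 = (c₁ - 1) * (c₁ + 1) := by ring
    rw [e3] at h
    simp only [map_mul, map_pow, hc, e1, e2, one_mul] at h
    have : v r ^ 2 ≠ 0 := by positivity
    exact mul_right_cancel₀ this h
  have hlt : v 2 < v (c₁ - 1) := by
    by_contra hcon
    push Not at hcon
    have h3 : v (c₁ + 1) ≤ v 2 := by
      have : c₁ + 1 = (c₁ - 1) + 2 := by ring
      rw [this]
      exact na_sum hna hcon le_rfl
    have h4 : v (c₁ - 1) * v (c₁ + 1) ≤ v 2 * v 2 := by gcongr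
    rw [hprod] at h4
    nlinarith
  refine ⟨?_, hlt⟩
  have h5 : v (c₁ + 1) = v (c₁ - 1) := by
    have : c₁ + 1 = (c₁ - 1) + 2 := by ring
    rw [this]
    exact na_lt hna hlt
  rw [h5] at hprod
  rw [sq, hprod]

/-- **The ratios of two twisted sequences.** -/
theorem twist (hna : IsNonarchimedean v) (h20 : 0 < v 2) (h2 : v 2 < 1) {R R' : ℕ → F}
    (hR : IsAgm R) (hR' : IsAgm R') (h1 : ∀ j, 1 < v (R j)) (hv : ∀ j, v (R' j) = v (R j))
    (h0 : R' 0 = -R 0) (m : ℕ) :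
    v (R' m / R m - 1) ^ 2 ^ m = v 2 ∧ v 2 ≤ v (R' m / R m - 1) := by
  have hne : ∀ j, R j ≠ 0 := fun j => by
    rw [← v.pos_iff]
    linarith [h1 j]
  induction m with
  | zero =>
    have : R' 0 / R 0 - 1 = -2 := by
      rw [h0, neg_div, div_self (hne 0)]
      ring
    rw [this, v.map_neg, pow_zero, pow_one]
    exact ⟨rfl, le_rfl⟩
  | succ m ih =>
    have hc : v (R' m / R m) = 1 := by
      rw [map_div₀, hv, div_self]
      have := h1 m
      linarith
    obtain ⟨k1, k2⟩ := twist_step hna h20 h2 (h1 m) hc (hR m) (c₁ := R' (m + 1) / R (m + 1))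
      (by rw [div_mul_cancel₀ _ (hne _), div_mul_cancel₀ _ (hne _)]; exact hR' m) ih.2
    refine ⟨?_, k2.le⟩
    rw [pow_succ' 2 m, pow_mul, k1]
    exact ih.1

/-- the products of the ratios -/
theorem twist_prod (hna : IsNonarchimedean v) (h20 : 0 < v 2) (h2 : v 2 < 1) {R R' : ℕ → F}
    (hR : IsAgm R) (hR' : IsAgm R') (h1 : ∀ j, 1 < v (R j)) (hv : ∀ j, v (R' j) = v (R j))
    (h0 : R' 0 = -R 0) (m : ℕ) :
    v (∏ i ∈ range (m + 1), (R' i / R i) - 1) ^ 2 ^ m = v 2 := by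
  suffices h : v (∏ i ∈ range (m + 1), (R' i / R i) - 1) = v (R' m / R m - 1) by
    rw [h]
    exact (twist hna h20 h2 hR hR' h1 hv h0 m).1
  have hc : ∀ j, v (R' j / R j) = 1 := fun j => by
    rw [map_div₀, hv, div_self]
    have := h1 j
    linarith
  induction m with
  | zero => rw [zero_add, prod_range_one]
  | succ m ih =>
    have e : ∏ i ∈ range (m + 1 + 1), (R' i / R i) - 1 =
        (∏ i ∈ range (m + 1), (R' i / R i)) * (R' (m + 1) / R (m + 1) - 1) +
          (∏ i ∈ range (m + 1), (R' i / R i) - 1) := by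
      rw [prod_range_succ]
      ring
    have hp : v (∏ i ∈ range (m + 1), (R' i / R i)) = 1 := by
      rw [map_prod]
      exact prod_eq_one fun i _ => hc i
    have hm : v ((∏ i ∈ range (m + 1), (R' i / R i)) * (R' (m + 1) / R (m + 1) - 1)) =
        v (R' (m + 1) / R (m + 1) - 1) := by rw [map_mul, hp, one_mul]
    rw [e, na_lt hna, hm]
    rw [hm, ih]
    obtain ⟨a1, a2⟩ := twist hna h20 h2 hR hR' h1 hv h0 m
    obtain ⟨b1, b2⟩ := twist hna h20 h2 hR hR' h1 hv h0 (m + 1)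
    -- `b ^ 2 = a`, both smaller than one
    refine lt_of_pow_lt_pow_left₀ (2 ^ m) (v.nonneg _) ?_
    rw [a1]
    have hb : v (R' (m + 1) / R (m + 1) - 1) < 1 := by
      by_contra hcon
      push Not at hcon
      have := one_le_pow₀ (n := 2 ^ (m + 1)) hcon
      rw [b1] at this
      linarith
    have hb0 : 0 < v (R' (m + 1) / R (m + 1) - 1) := h20.trans_le b2
    have hp1 : v (R' (m + 1) / R (m + 1) - 1) ^ 2 ^ m < 1 := pow_lt_one₀ hb0.le hb (by positivity)
    have hp0 : 0 < v (R' (m + 1) / R (m + 1) - 1) ^ 2 ^ m := by positivity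
    calc v 2 = (v (R' (m + 1) / R (m + 1) - 1) ^ 2 ^ m) ^ 2 := by
          rw [← b1, ← pow_mul, pow_succ]
      _ < v (R' (m + 1) / R (m + 1) - 1) ^ 2 ^ m := by nlinarith

end

end Pool.Agent.H51.ZC
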