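import Pool.Agent.H51.ZC.Size
import Pool.Agent.H51.ZC.Disc
import Pool.Agent.H51.ZC.Cycles
import Pool.Agent.H51.ZC.LegLink

/-!
# The system of subgroups
-/

set_option autoImplicit false
set_option linter.unusedSectionVars false

open WeierstrassCurve Polynomial Finset

namespace Pool.Agent.H51.ZC

section
variable {F : Type*} [Field F]

/-- the images of the points with the coordinate `μ` under the maps from the Legendre curves -/
def gens (μ : F) (W : WeierstrassCurve F) : Set W.toAffine.Point :=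
  {P | ∃ (l e : F) (L : Leg l W e), l ≠ 0 ∧ μ ≠ l ∧ L.At μ P}

variable [DecidableEq F]

/-- the points over a subfield -/
def ratSub (L : Subfield F) (W : WeierstrassCurve F) (h₁ : W.a₁ ∈ L) (h₂ : W.a₂ ∈ L) (h₃ : W.a₃ ∈ L)
    (h₄ : W.a₄ ∈ L) : AddSubgroup W.toAffine.Point where
  carrier := {P | P = 0 ∨ ∃ x y h, P = .some x y h ∧ x ∈ L ∧ y ∈ L}
  zero_mem' := Or.inl rfl
  add_mem' := by
    rintro P Q (rfl | ⟨x, y, h, rfl, hx, hy⟩) hQ
    · rwa [zero_add]
    rcases hQ with rfl | ⟨x', y', h', rfl, hx', hy'⟩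
    · rw [add_zero]
      exact Or.inr ⟨x, y, h, rfl, hx, hy⟩
    by_cases hxy : x = x' ∧ y = W.toAffine.negY x' y'
    · exact Or.inl (Affine.Point.add_of_Y_eq hxy.1 hxy.2)
    · rw [Affine.Point.add_some hxy]
      have hneg : ∀ {s t : F}, s ∈ L → t ∈ L → W.toAffine.negY s t ∈ L := fun hs ht =>
        L.sub_mem (L.sub_mem (L.neg_mem ht) (L.mul_mem h₁ hs)) h₃
      have hsl : W.toAffine.slope x x' y y' ∈ L := by
        by_cases hxx : x = x'
        · rw [Affine.slope_of_Y_ne hxx (fun h => hxy ⟨hxx, h⟩)]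
          refine L.div_mem (L.sub_mem (L.add_mem (L.add_mem ?_ ?_) h₄) (L.mul_mem h₁ hy))
            (L.sub_mem hy (hneg hx hy))
          · exact L.mul_mem (ofNat_mem L 3) (pow_mem hx 2)
          · exact L.mul_mem (L.mul_mem (ofNat_mem L 2) h₂) hx
        · rw [Affine.slope_of_X_ne hxx]
          exact L.div_mem (L.sub_mem hy hy') (L.sub_mem hx hx')
      have hX : W.toAffine.addX x x' (W.toAffine.slope x x' y y') ∈ L :=
        L.sub_mem (L.sub_mem (L.sub_mem (L.add_mem (pow_mem hsl 2) (L.mul_mem h₁ hsl)) h₂) hx) hx'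
      refine Or.inr ⟨_, _, _, rfl, hX, hneg hX ?_⟩
      exact L.add_mem (L.mul_mem hsl (L.sub_mem hX hx)) hy
  neg_mem' := by
    rintro P (rfl | ⟨x, y, h, rfl, hx, hy⟩)
    · exact Or.inl neg_zero
    · rw [Affine.Point.neg_some]
      exact Or.inr ⟨_, _, _, rfl, hx, L.sub_mem (L.sub_mem (L.neg_mem hy) (L.mul_mem h₁ hx)) h₃⟩

lemma mem_ratSub {L : Subfield F} {W : WeierstrassCurve F} {h₁ h₂ h₃ h₄} {x y : F}
    {h : W.toAffine.Nonsingular x y} : .some x y h ∈ ratSub L W h₁ h₂ h₃ h₄ → x ∈ L ∧ y ∈ L := by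
  rintro (h0 | ⟨x', y', h', he, hx, hy⟩)
  · exact absurd h0 (by simp)
  · obtain ⟨rfl, rfl⟩ := Affine.Point.some.inj he
    exact ⟨hx, hy⟩

end

section
variable {F : Type*} [Field F] {v : AbsoluteValue F ℝ}

lemma Roots.swap {W : WeierstrassCurve F} {e₁ e₂ e₃ : F} (h : Roots W e₁ e₂ e₃) : Roots W e₁ e₃ e₂ :=
  ⟨h.a₁, h.a₃, by rw [h.a₂]; ring, by rw [h.a₄]; ring, by rw [h.a₆]; ring⟩

lemma Roots.rot {W : WeierstrassCurve F} {e₁ e₂ e₃ : F} (h : Roots W e₁ e₂ e₃) : Roots W e₂ e₃ e₁ :=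
  ⟨h.a₁, h.a₃, by rw [h.a₂]; ring, by rw [h.a₄]; ring, by rw [h.a₆]; ring⟩

/-- the first two roots have minimal distance -/
lemma Roots.min {W : WeierstrassCurve F} {e₁ e₂ e₃ : F} (h : Roots W e₁ e₂ e₃) :
    ∃ f₁ f₂ f₃, Roots W f₁ f₂ f₃ ∧ v (f₂ - f₁) ≤ v (f₃ - f₁) ∧ v (f₂ - f₁) ≤ v (f₃ - f₂) := by
  by_cases h1 : v (e₂ - e₁) ≤ v (e₃ - e₁) ∧ v (e₂ - e₁) ≤ v (e₃ - e₂)
  · exact ⟨e₁, e₂, e₃, h, h1⟩
  by_cases h2 : v (e₃ - e₁) ≤ v (e₂ - e₁) ∧ v (e₃ - e₁) ≤ v (e₃ - e₂)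
  · refine ⟨e₁, e₃, e₂, h.swap, h2.1, ?_⟩
    rw [v.map_sub e₂ e₃]
    exact h2.2
  · refine ⟨e₂, e₃, e₁, h.rot, ?_, ?_⟩
    · rw [v.map_sub e₁ e₂]
      by_contra hc
      push Not at hc
      exact h1 ⟨by
        by_contra hc2
        push Not at hc2
        exact h2 ⟨hc2.le, (hc2.trans hc).le⟩, hc.le⟩
    · rw [v.map_sub e₁ e₃]
      by_contra hc
      push Not at hc
      exact h2 ⟨by
        by_contra hc2
        push Not at hc2
        exact h1 ⟨hc2.le, (hc2.trans hc).le⟩, hc.le⟩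

/-- a sequence with a large first term -/
lemma exists_seq' [IsAlgClosed F] [CharZero F] (hna : IsNonarchimedean v) (h2 : v 2 < 1) {x : F}
    (hx : 1 < v x) : ∃ R : ℕ → F, R 0 = x ∧ IsAgm R ∧ Nice v R ∧ ∀ j, 1 < v (R j) := by
  have h20 : 0 < v (2 : F) := v.pos two_ne_zero
  have hg : ∀ r : F, ∃ s : F, r ≠ 0 → s ^ 2 * (4 * r) = (1 + r) ^ 2 := by
    intro r
    obtain ⟨s, hs⟩ := IsAlgClosed.exists_pow_nat_eq ((1 + r) ^ 2 / (4 * r)) (n := 2) two_pos
    refine ⟨s, fun hr => ?_⟩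
    rw [hs]
    field_simp
  choose g hg using hg
  have hv : ∀ r : F, 1 < v r → v (g r) ^ 2 * v 2 ^ 2 = v r ∧ 1 < v (g r) := by
    intro r hr
    have hr0 : r ≠ 0 := by
      rw [← v.pos_iff]
      linarith
    have e1 : v (1 + r) = v r := by
      rw [add_comm]
      exact na_lt hna (by rw [map_one]; exact hr)
    have e := congrArg v (hg r hr0)
    have e4 : v (4 : F) = v 2 ^ 2 := by rw [← map_pow]; norm_num
    rw [map_mul, map_pow, map_mul, map_pow, e1, e4] at e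
    have e5 : v (g r) ^ 2 * v 2 ^ 2 = v r := by
      have : v r ≠ 0 := by linarith
      apply mul_right_cancel₀ this
      linear_combination e
    refine ⟨e5, ?_⟩
    by_contra hc
    push Not at hc
    have : v (g r) ^ 2 * v 2 ^ 2 ≤ 1 ^ 2 * 1 ^ 2 := by
      gcongr
    rw [e5] at this
    linarith
  have hR : ∀ n, 1 < v (g^[n] x) := by
    intro n
    induction n with
    | zero => exact hx
    | succ n ih =>
      rw [Function.iterate_succ_apply']
      exact (hv _ ih).2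
  refine ⟨fun n => g^[n] x, rfl, fun j => ?_, ⟨hx.le, fun j => ?_⟩, hR⟩
  · simp only [Function.iterate_succ_apply']
    refine hg _ ?_
    rw [← v.pos_iff]
    linarith [hR j]
  · simp only [Function.iterate_succ_apply']
    exact (hv _ (hR j)).1

/-- prepending a term -/
def cons (r₀ : F) (R : ℕ → F) : ℕ → F
  | 0 => r₀
  | j + 1 => R j

lemma Nice.eq (h20 : 0 < v 2) {R R' : ℕ → F} (h : Nice v R) (h' : Nice v R') (h0 : v (R' 0) = v (R 0))
    (j : ℕ) : v (R' j) = v (R j) := by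
  induction j with
  | zero => exact h0
  | succ j ih =>
    have e1 := h.2 j
    have e2 := h'.2 j
    rw [ih, ← e1] at e2
    have := mul_right_cancel₀ (pow_pos h20 2).ne' e2
    exact (sq_eq_sq₀ (v.nonneg _) (v.nonneg _)).1 this

lemma Nice.pow {R : ℕ → F} (h : Nice v R) (j : ℕ) :
    (v (R j) * v 2 ^ 2) ^ 2 ^ j = v (R 0) * v 2 ^ 2 := by
  induction j with
  | zero => rw [pow_zero, pow_one]
  | succ j ih =>
    rw [← ih, pow_succ' 2 j, pow_mul]
    congr 1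
    rw [← h.2 j]
    ring

end

end Pool.Agent.H51.ZC
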