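import Pool.Agent.H51.ZC.Rank
import Pool.Agent.H51.ZC.Conj
import Pool.Agent.H51.ZC.Abv

/-!
# The system of subgroups of infinite rank
-/

set_option autoImplicit false
set_option linter.unusedSectionVars false

open WeierstrassCurve Polynomial Finset

namespace Pool.Agent.H51.ZC

section
variable {F : Type*} [Field F] [DecidableEq F] [IsAlgClosed F]

/-- the elements of the system are pairwise related -/
lemma gens_rel {μ : F} (hμ0 : μ ≠ 0) (hμ1 : μ ≠ 1) {W W' : WeierstrassCurve F} (hΔ : W.Δ ≠ 0)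
    (hΔ' : W'.Δ ≠ 0) {P : W.toAffine.Point} {Q : W'.toAffine.Point} (hP : P ∈ gens μ W)
    (hQ : Q ∈ gens μ W') : Rel P Q := by
  obtain ⟨l, e, L, hl, hμl, hP⟩ := hP
  obtain ⟨l', e', L', hl', hμl', hQ⟩ := hQ
  exact Rel.of_linked (L.link L' hΔ hΔ' hl
    (mul_ne_zero (mul_ne_zero hμ0 (sub_ne_zero.2 hμ1)) (sub_ne_zero.2 hμl)) hP hQ)

theorem gens_torsion {μ : F} (hμ0 : μ ≠ 0) (hμ1 : μ ≠ 1) {ι : Type*} [Fintype ι] [DecidableEq ι]
    (W : ι → WeierstrassCurve F) (hΔ : ∀ o, (W o).Δ ≠ 0) (k : ℕ) :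
    TorsionOn W k fun o => satSub (gens μ (W o)) :=
  cycles_torsion (fun o => gens μ (W o)) fun o o' _ _ hP _ hQ => gens_rel hμ0 hμ1 (hΔ o) (hΔ o') hP hQ

end

section
variable {K : Type*} [Field K]

variable [DecidableEq K] {F : Type*} [Field F] [DecidableEq F] [IsAlgClosed F] [Algebra K F]

lemma mem_gens {a b : K} (ha : a ≠ 0) (hb : b ≠ 0) {x y : K}
    (h : (curve₂ a b).toAffine.Nonsingular x y) (hxb : x ≠ b) :
    bc F (curve₂ a b) (.some x y h) ∈ gens (algebraMap K F (x / a)) ((curve₂ a b).map (algebraMap K F)) := by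
  obtain ⟨a₀, ha₀⟩ := IsAlgClosed.exists_pow_nat_eq (algebraMap K F a) (n := 2) two_pos
  have hφa : algebraMap K F a ≠ 0 := (_root_.map_ne_zero _).2 ha
  have ha₀0 : a₀ ≠ 0 := by
    rintro rfl
    apply hφa
    rw [← ha₀, zero_pow two_ne_zero]
  have hroots : Roots ((curve₂ a b).map (algebraMap K F)) 0 (algebraMap K F a) (algebraMap K F b) := by
    refine ⟨?_, ?_, ?_, ?_, ?_⟩ <;> simp [curve₂, WeierstrassCurve.map]
  have he := (eqn_iff (W := curve₂ a b) rfl rfl).1 h.1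
  simp only [curve₂] at he
  have he' : y ^ 2 = x * (x - a) * (x - b) := by rw [he]; ring
  let L := Leg.start (l := algebraMap K F (b / a)) hroots (a := a₀) (by rw [ha₀, sub_zero]) ha₀0
    (by rw [sub_zero, sub_zero, map_div₀]; field_simp)
  refine ⟨_, _, L, (_root_.map_ne_zero _).2 (div_ne_zero hb ha), ?_, ?_⟩
  · intro h0
    apply hxb
    have := (algebraMap K F).injective h0
    field_simp at this
    exact this
  · refine ⟨by simp [L, Leg.start], algebraMap K F y / a₀ ^ 3, ?_, ?_⟩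
    · have e3 : (a₀ ^ 3) ^ 2 = algebraMap K F (a ^ 3) := by
        rw [map_pow, ← ha₀]
        ring
      rw [div_pow, e3, ← map_pow, ← map_div₀, ← map_one (algebraMap K F), ← map_sub, ← map_sub, ← map_mul,
        ← map_mul]
      congr 1
      rw [he']
      field_simp
    · have e1 : L.n.eval (algebraMap K F (x / a)) / L.d.eval (algebraMap K F (x / a)) =
          algebraMap K F x := by
        simp only [L, Leg.start, map_zero, zero_add, eval_mul, eval_C, eval_X, eval_one, div_one]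
        rw [ha₀, ← map_mul]
        congr 1
        field_simp
      have e2 : algebraMap K F y / a₀ ^ 3 * L.m.eval (algebraMap K F (x / a)) /
          L.d.eval (algebraMap K F (x / a)) = algebraMap K F y := by
        simp only [L, Leg.start, eval_C, eval_one, div_one]
        field_simp
      rw [e1, e2]
      exact ⟨ns_map F (curve₂ a b) h, rfl⟩

end

/-- **The system.** -/
theorem exists_system (K : Type*) [Field K] [NumberField K] [DecidableEq K] (F : Type*) [Field F]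
    [CharZero F] [DecidableEq F] [Algebra K F] [IsAlgClosed F] [Algebra ℚ F] [Algebra.IsAlgebraic ℚ F]
    (a b : K) (ha : a ≠ 0) (hb : b ≠ 0) (hab : a ≠ b) (P₀ : (curve₂ a b).toAffine.Point) :
    ∃ μ : K, μ ≠ 0 ∧ μ ≠ 1 ∧
      bc F (curve₂ a b) P₀ ∈ satSub (gens (algebraMap K F μ) ((curve₂ a b).map (algebraMap K F))) ∧
      ∀ W : WeierstrassCurve F, W.a₁ = 0 → W.a₃ = 0 → W.Δ ≠ 0 → ∀ N : ℕ,
        ∃ P : Fin N → W.toAffine.Point, (∀ k, P k ∈ gens (algebraMap K F μ) W) ∧ LinearIndependent ℤ P := by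
  obtain ⟨v, hna, h2, hfin⟩ := exists_abv_pre K F
  have h20 : 0 < v (2 : F) := v.pos two_ne_zero
  set vK : AbsoluteValue K ℝ := v.comp (algebraMap K F).injective with hvK
  have hvK' : ∀ x : K, vK x = v (algebraMap K F x) := fun _ => rfl
  have hnaK : IsNonarchimedean vK := fun x y => by
    rw [hvK', hvK', hvK', map_add]
    exact hna _ _
  have hv2 : vK 2 = v 2 := by rw [hvK', map_ofNat]
  have key : ∀ μ : K, 1 < vK μ * v 2 ^ 4 → μ ≠ 0 ∧ μ ≠ 1 ∧
      ∀ W : WeierstrassCurve F, W.a₁ = 0 → W.a₃ = 0 → W.Δ ≠ 0 → ∀ N : ℕ,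
        ∃ P : Fin N → W.toAffine.Point, (∀ k, P k ∈ gens (algebraMap K F μ) W) ∧ LinearIndependent ℤ P := by
    intro μ hμ
    refine ⟨?_, ?_, fun W h1 h3 hΔ N => inf_rank hna h2 h1 h3 hΔ hμ N⟩
    · rintro rfl
      rw [map_zero, zero_mul] at hμ
      linarith
    · rintro rfl
      rw [map_one, one_mul] at hμ
      have := pow_lt_one₀ h20.le h2 (n := 4) (by norm_num)
      linarith
  by_cases htor : ∃ n : ℕ, 0 < n ∧ n • P₀ = 0
  · obtain ⟨n, hn, h0⟩ := htor
    have hμ : 1 < vK ((2 : K) ^ 5)⁻¹ * v 2 ^ 4 := by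
      rw [map_inv₀, map_pow, hv2]
      have : (v (2 : F) ^ 5)⁻¹ * v 2 ^ 4 = (v 2)⁻¹ := by field_simp
      rw [this]
      exact (one_lt_inv₀ h20).2 h2
    obtain ⟨k1, k2, k3⟩ := key _ hμ
    refine ⟨_, k1, k2, ⟨n, hn, ?_⟩, k3⟩
    rw [← map_nsmul, h0, map_zero]
    exact zero_mem _
  · push Not at htor
    have hA : IsA (-(a + b)) (a * b) (curve₂ a b) := ⟨rfl, rfl, rfl, rfl, rfl⟩
    have hd : (a * b) ^ 2 * ((-(a + b)) ^ 2 - 4 * (a * b)) ≠ 0 := by
      have : (a * b) ^ 2 * ((-(a + b)) ^ 2 - 4 * (a * b)) = (a * b) ^ 2 * (a - b) ^ 2 := by ring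
      rw [this]
      exact mul_ne_zero (pow_ne_zero 2 (mul_ne_zero ha hb)) (pow_ne_zero 2 (sub_ne_zero.2 hab))
    obtain ⟨n, hn, x, y, h, hnP, hx⟩ := large hnaK (by rw [hv2]; exact h2) two_ne_zero hfin hA hd P₀ htor
      (max (vK b) (vK a / v 2 ^ 4))
    have hva : 0 < vK a := vK.pos ha
    have hx1 : vK a / v 2 ^ 4 < vK x := (le_max_right _ _).trans_lt hx
    have hx2 : x ≠ b := by
      rintro rfl
      exact lt_irrefl _ ((le_max_left _ _).trans_lt hx)
    have hμ : 1 < vK (x / a) * v 2 ^ 4 := by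
      rw [map_div₀, div_mul_eq_mul_div, lt_div_iff₀ hva, one_mul]
      rwa [div_lt_iff₀ (by positivity)] at hx1
    obtain ⟨k1, k2, k3⟩ := key _ hμ
    refine ⟨_, k1, k2, ⟨n, hn, ?_⟩, k3⟩
    rw [← map_nsmul, hnP]
    exact AddSubgroup.subset_closure (mem_gens ha hb h hx2)

end Pool.Agent.H51.ZC
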